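import Pool.Agent.Helper36.GS.Glue

/-!
# GS: rank and dimension under change of the ground field
-/

set_option autoImplicit false

namespace Pool.Agent.GS

universe u

theorem rk_le_rk_base (k₀ k : Type u) {K : Type u} [Field k₀] [Field k] [Field K] [Algebra k₀ k] [Algebra k K]
    [Algebra k₀ K] [IsScalarTower k₀ k K] (s : Set K) : rk k s ≤ rk k₀ s := by
  unfold rk
  rw [Matroid.eRk_le_iff]
  intro I hI hi
  rw [AlgebraicIndependent.matroid_indep_iff] at hi
  have h1 : AlgebraicIndepOn k₀ id I := AlgebraicIndependent.restrictScalars (algebraMap k₀ k).injective hi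
  exact (AlgebraicIndependent.matroid_indep_iff.mpr h1).encard_le_eRk_of_subset hI

theorem rk_base_le (k₀ k : Type u) {K : Type u} [Field k₀] [Field k] [Field K] [Algebra k₀ k] [Algebra k K]
    [Algebra k₀ K] [IsScalarTower k₀ k K] [Algebra.IsAlgebraic k₀ k] (s : Set K) : rk k₀ s ≤ rk k s := by
  unfold rk
  rw [Matroid.eRk_le_iff]
  intro I hI hi
  rw [AlgebraicIndependent.matroid_indep_iff] at hi
  have h1 : AlgebraicIndepOn k id I := (Algebra.IsAlgebraic.algebraicIndependent_iff k₀ k).mp hi
  exact (AlgebraicIndependent.matroid_indep_iff.mpr h1).encard_le_eRk_of_subset hI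

theorem dim_ext {k₀ k : Type u} [Field k₀] [Field k] [Algebra k₀ k] {N n : ℕ}
    {I : Set (MvPolynomial (Fin (N + 1)) k₀)} (h : Dim k₀ I n) : Dim k (ext k I) n := by
  intro K _ _ y hy
  letI : Algebra k₀ K := ((algebraMap k K).comp (algebraMap k₀ k)).toAlgebra
  haveI : IsScalarTower k₀ k K := IsScalarTower.of_algebraMap_eq fun _ => rfl
  exact (rk_le_rk_base k₀ k (Rat y)).trans (h K y ((onX_ext I y).1 hy))

end Pool.Agent.GS
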