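import Mathlib

/-!
# Homogeneous polynomials and scaling
-/

set_option autoImplicit false

namespace Pool.Agent.Helper64.GS

theorem aeval_scale {k A : Type*} [CommRing k] [CommRing A] [Algebra k A] {σ : Type*} {f : MvPolynomial σ k} {d : ℕ}
    (hf : f.IsHomogeneous d) (c : A) (x : σ → A) :
    MvPolynomial.aeval (fun j => c * x j) f = c ^ d * MvPolynomial.aeval x f := by
  rw [MvPolynomial.aeval_def, MvPolynomial.aeval_def, MvPolynomial.eval₂_eq, MvPolynomial.eval₂_eq, Finset.mul_sum]
  refine Finset.sum_congr rfl fun e he => ?_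
  have h1 : ∑ i ∈ e.support, e i = d := by
    have := hf (MvPolynomial.mem_support_iff.mp he)
    rw [Finsupp.weight_apply] at this
    simpa [Finsupp.sum] using this
  simp only [mul_pow]
  rw [Finset.prod_mul_distrib, Finset.prod_pow_eq_pow_sum, h1]
  ring

end Pool.Agent.Helper64.GS
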