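import Pool.Agent.Helper77.GS.Defs
import Pool.Agent.Helper64.GS.Scale

/-!
# GS, block D: the dimension of `X`

`𝔭` is the homogeneous prime ideal of the cone over `X`.
-/

set_option autoImplicit false

namespace Pool.Agent.GS

open MvPolynomial Set

universe u

/-- the homogeneous elements -/
def hom {k : Type u} [Field k] {N : ℕ} (𝔭 : Ideal (MvPolynomial (Fin (N + 1)) k)) :
    Set (MvPolynomial (Fin (N + 1)) k) := {f | f ∈ 𝔭 ∧ ∃ d, f.IsHomogeneous d}

theorem homog_hom {k : Type u} [Field k] {N : ℕ} (𝔭 : Ideal (MvPolynomial (Fin (N + 1)) k)) :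
    Homog (hom 𝔭) := fun _ hf => hf.2

/-- independent subsets under an algebra homomorphism -/
theorem indep_image_of {k A B : Type u} [Field k] [CommRing A] [CommRing B] [IsDomain A] [IsDomain B]
    [Algebra k A] [Algebra k B] (φ : A →ₐ[k] B) (I : Set A) (hI : InjOn φ I)
    (h : (AlgebraicIndependent.matroid k B).Indep (φ '' I)) : (AlgebraicIndependent.matroid k A).Indep I := by
  rw [AlgebraicIndependent.matroid_indep_iff] at h ⊢
  have h1 : AlgebraicIndependent k fun x : I => φ x := (algebraicIndependent_image hI).mpr h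
  exact AlgebraicIndependent.of_comp φ h1

theorem indep_image {k A B : Type u} [Field k] [CommRing A] [CommRing B] [IsDomain A] [IsDomain B]
    [Algebra k A] [Algebra k B] (φ : A →ₐ[k] B) (hφ : Function.Injective φ) (I : Set A) :
    (AlgebraicIndependent.matroid k B).Indep (φ '' I) ↔ (AlgebraicIndependent.matroid k A).Indep I := by
  refine ⟨indep_image_of φ I hφ.injOn, fun h => ?_⟩
  rw [AlgebraicIndependent.matroid_indep_iff] at h ⊢
  exact (algebraicIndependent_image hφ.injOn).mp ((AlgHom.algebraicIndependent_iff φ hφ).mpr h)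

theorem eRk_image {k A B : Type u} [Field k] [CommRing A] [CommRing B] [IsDomain A] [IsDomain B]
    [Algebra k A] [Algebra k B] (φ : A →ₐ[k] B) (hφ : Function.Injective φ) (s : Set A) :
    (AlgebraicIndependent.matroid k B).eRk (φ '' s) = (AlgebraicIndependent.matroid k A).eRk s := by
  apply le_antisymm
  · rw [Matroid.eRk_le_iff]
    intro J hJ hi
    obtain ⟨I, hI, rfl⟩ := subset_image_iff.mp hJ
    rw [hφ.encard_image]
    exact ((indep_image φ hφ I).mp hi).encard_le_eRk_of_subset hI
  · rw [Matroid.eRk_le_iff]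
    intro I hI hi
    rw [← hφ.encard_image]
    exact ((indep_image φ hφ I).mpr hi).encard_le_eRk_of_subset (image_mono hI)

variable {k : Type u} [Field k] {N n : ℕ}

/-- the coordinates times a variable -/
noncomputable def ty {K : Type u} [CommRing K] (y : Fin (N + 1) → K) (a : Fin (N + 1)) : Polynomial K :=
  Polynomial.X * Polynomial.C (y a)

/-- constants, as an algebra homomorphism -/
noncomputable def cc (k K : Type u) [Field k] [CommRing K] [Algebra k K] : K →ₐ[k] Polynomial K :=
  Polynomial.CAlgHom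

theorem cc_inj (K : Type u) [Field K] [Algebra k K] : Function.Injective (cc k K) := Polynomial.C_injective

theorem eRk_ty {K : Type u} [Field K] [Algebra k K] (y : Fin (N + 1) → K) (hy : y ≠ 0) :
    (AlgebraicIndependent.matroid k (Polynomial K)).eRk (range (ty y)) = rk k (Rat y) + 1 := by
  set M := AlgebraicIndependent.matroid k (Polynomial K) with hM
  obtain ⟨b, hb⟩ := Function.ne_iff.mp hy
  rw [Pi.zero_apply] at hb
  have hsub : ∀ s : Set (Polynomial K), s ⊆ M.closure s := fun s => M.subset_closure s (subset_univ _)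
  have hcl : ∀ (s : Set (Polynomial K)) (z : Polynomial K), z ∈ M.closure s ↔ IsAlgebraic (Algebra.adjoin k s) z := by
    intro s z
    rw [hM, AlgebraicIndependent.matroid_closure_eq]
    exact Iff.rfl
  have h1 : insert (ty y b) (cc k K '' Rat y) ⊆ M.closure (range (ty y)) := by
    refine insert_subset (hsub _ (mem_range_self b)) ?_
    rintro _ ⟨z, ⟨a, c, rfl⟩, rfl⟩
    rcases eq_or_ne (y c) 0 with h0 | h0
    · rw [h0, div_zero, map_zero, hcl]
      exact isAlgebraic_zero
    rw [hcl]
    have hc0 : ty y c ≠ 0 := mul_ne_zero Polynomial.X_ne_zero (Polynomial.C_ne_zero.mpr h0)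
    let A := Algebra.adjoin k (range (ty y))
    let ta : A := ⟨ty y a, Algebra.subset_adjoin (mem_range_self a)⟩
    let tc : A := ⟨ty y c, Algebra.subset_adjoin (mem_range_self c)⟩
    refine ⟨Polynomial.C tc * Polynomial.X - Polynomial.C ta, ?_, ?_⟩
    · intro h
      have := congrArg (fun p => Polynomial.coeff p 1) h
      simp only [Polynomial.coeff_sub, Polynomial.coeff_C_mul, Polynomial.coeff_X_one, mul_one,
        Polynomial.coeff_C_succ, sub_zero, Polynomial.coeff_zero] at this
      exact hc0 (congrArg Subtype.val this)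
    · rw [map_sub, map_mul, Polynomial.aeval_C, Polynomial.aeval_C, Polynomial.aeval_X, sub_eq_zero]
      show ty y c * Polynomial.C (y a / y c) = ty y a
      rw [ty, ty, mul_assoc, ← Polynomial.C_mul, mul_div_cancel₀ _ h0]
  have h2 : range (ty y) ⊆ M.closure (insert (ty y b) (cc k K '' Rat y)) := by
    rintro _ ⟨a, rfl⟩
    rw [hcl]
    have h3 : ty y a = cc k K (y a / y b) * ty y b := by
      show Polynomial.X * Polynomial.C (y a) = Polynomial.C (y a / y b) * (Polynomial.X * Polynomial.C (y b))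
      rw [mul_left_comm, ← Polynomial.C_mul, div_mul_cancel₀ _ hb]
    rw [h3]
    exact (isAlgebraic_algebraMap (A := Polynomial K) (⟨_, Algebra.subset_adjoin (mem_insert_of_mem _ ⟨_, ⟨a, b, rfl⟩, rfl⟩)⟩ :
        Algebra.adjoin k (insert (ty y b) (cc k K '' Rat y)))).mul
      (isAlgebraic_algebraMap (A := Polynomial K) (⟨_, Algebra.subset_adjoin (mem_insert _ _)⟩ :
        Algebra.adjoin k (insert (ty y b) (cc k K '' Rat y))))
  have h3 : M.closure (range (ty y)) = M.closure (insert (ty y b) (cc k K '' Rat y)) :=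
    (M.closure_subset_closure_of_subset_closure h2).antisymm (M.closure_subset_closure_of_subset_closure h1)
  have h4 : ty y b ∉ M.closure (cc k K '' Rat y) := by
    rw [hcl]
    intro h
    let A := Algebra.adjoin k (cc k K '' Rat y)
    have hA : ∀ z ∈ A, ∃ c, z = Polynomial.C c := by
      intro z hz
      have h5 : A ≤ (cc k K).range := Algebra.adjoin_le (image_subset_range _ _)
      obtain ⟨c, hc⟩ := h5 hz
      exact ⟨c, hc.symm⟩
    let f : A →+* K := (Polynomial.constantCoeff (R := K)).comp A.val.toRingHom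
    have hf : ∀ z : A, Polynomial.C (f z) = (z : Polynomial K) := by
      intro z
      obtain ⟨c, hc⟩ := hA z z.2
      show Polynomial.C (Polynomial.constantCoeff (z : Polynomial K)) = _
      rw [hc]
      simp
    have hfi : Function.Injective f := by
      intro z w hzw
      apply Subtype.ext
      rw [← hf z, ← hf w, hzw]
    have h5 : IsAlgebraic K (ty y b) := by
      refine h.ringHom_of_comp_eq f (RingHom.id (Polynomial K)) hfi ?_
      ext1 z
      exact hf z
    have h6 : IsAlgebraic K (Polynomial.X : Polynomial K) := by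
      have h7 : (Polynomial.X : Polynomial K) = algebraMap K (Polynomial K) (y b)⁻¹ * ty y b := by
        show _ = Polynomial.C (y b)⁻¹ * (Polynomial.X * Polynomial.C (y b))
        rw [mul_left_comm, ← Polynomial.C_mul, inv_mul_cancel₀ hb, Polynomial.C_1, mul_one]
      rw [h7]
      exact (isAlgebraic_algebraMap _).mul h5
    exact Polynomial.transcendental_X K h6
  rw [← M.eRk_closure_eq, h3, M.eRk_closure_eq, M.eRk_insert_eq_add_one ⟨mem_univ _, h4⟩, hM,
    eRk_image (cc k K) (cc_inj K)]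
  rfl

theorem aeval_ty {K : Type u} [CommRing K] [Algebra k K] (y : Fin (N + 1) → K) (f : MvPolynomial (Fin (N + 1)) k) (d : ℕ) :
    (aeval (ty y) f).coeff d = aeval y (homogeneousComponent d f) := by
  have h1 : aeval (ty y) f = ∑ i ∈ Finset.range (f.totalDegree + 1),
      Polynomial.X ^ i * Polynomial.C (aeval y (homogeneousComponent i f)) := by
    conv_lhs => rw [← sum_homogeneousComponent f]
    rw [map_sum]
    refine Finset.sum_congr rfl fun i _ => ?_
    have h2 : (ty y : Fin (N + 1) → Polynomial K) = fun a => Polynomial.X * (cc k K (y a)) := rfl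
    rw [h2, Pool.Agent.Helper64.GS.aeval_scale (homogeneousComponent_isHomogeneous i f), ← comp_aeval_apply]
    rfl
  rw [h1, Polynomial.finsetSum_coeff]
  have h3 : ∀ i ∈ Finset.range (f.totalDegree + 1),
      (Polynomial.X ^ i * Polynomial.C (aeval y (homogeneousComponent i f))).coeff d =
        if i = d then aeval y (homogeneousComponent d f) else 0 := by
    intro i _
    rw [mul_comm, Polynomial.coeff_C_mul, Polynomial.coeff_X_pow]
    by_cases h : i = d
    · rw [if_pos h.symm, if_pos h, h, mul_one]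
    · rw [if_neg (Ne.symm h), if_neg h, mul_zero]
  rw [Finset.sum_congr rfl h3, Finset.sum_ite_eq']
  split_ifs with h4
  · rfl
  · rw [Finset.mem_range] at h4
    rw [homogeneousComponent_eq_zero d f (by omega), map_zero]

theorem aeval_ty_zero {K : Type u} [Field K] [Algebra k K] (𝔭 : Ideal (MvPolynomial (Fin (N + 1)) k))
    (h𝔭 : ∀ f ∈ 𝔭, ∀ d, homogeneousComponent d f ∈ 𝔭) (y : Fin (N + 1) → K) (hX : OnX (hom 𝔭) y)
    (f : MvPolynomial (Fin (N + 1)) k) (hf : f ∈ 𝔭) : aeval (ty y) f = 0 := by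
  ext d
  rw [aeval_ty, Polynomial.coeff_zero]
  exact hX _ ⟨h𝔭 f hf d, d, homogeneousComponent_isHomogeneous d f⟩

/-- evaluation at the generic multiple -/
noncomputable def evp {K : Type u} [Field K] [Algebra k K] (𝔭 : Ideal (MvPolynomial (Fin (N + 1)) k))
    (h𝔭 : ∀ f ∈ 𝔭, ∀ d, homogeneousComponent d f ∈ 𝔭) (y : Fin (N + 1) → K) (hX : OnX (hom 𝔭) y) :
    (MvPolynomial (Fin (N + 1)) k ⧸ 𝔭) →ₐ[k] Polynomial K :=
  Ideal.Quotient.liftₐ 𝔭 (aeval (ty y)) (aeval_ty_zero 𝔭 h𝔭 y hX)

theorem evp_mk {K : Type u} [Field K] [Algebra k K] (𝔭 : Ideal (MvPolynomial (Fin (N + 1)) k))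
    (h𝔭 : ∀ f ∈ 𝔭, ∀ d, homogeneousComponent d f ∈ 𝔭) (y : Fin (N + 1) → K) (hX : OnX (hom 𝔭) y)
    (f : MvPolynomial (Fin (N + 1)) k) : evp 𝔭 h𝔭 y hX (Ideal.Quotient.mk 𝔭 f) = aeval (ty y) f := rfl

theorem eRank_quot (𝔭 : Ideal (MvPolynomial (Fin (N + 1)) k)) [𝔭.IsPrime]
    (hn : Algebra.trdeg k (MvPolynomial (Fin (N + 1)) k ⧸ 𝔭) = n + 1) :
    (AlgebraicIndependent.matroid k (MvPolynomial (Fin (N + 1)) k ⧸ 𝔭)).eRank = n + 1 := by
  rw [← Matroid.toENat_cRank_eq, AlgebraicIndependent.matroid_cRank_eq, hn]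
  simp

theorem rk_Rat_zero {K : Type u} [Field K] [Algebra k K] : rk k (Rat (0 : Fin (N + 1) → K)) = 0 := by
  have h1 : Rat (0 : Fin (N + 1) → K) = {0} := by
    ext z
    constructor
    · rintro ⟨a, b, rfl⟩
      simp
    · rintro rfl
      exact ⟨0, 0, by simp⟩
  rw [rk, h1, Matroid.eRk_eq_zero_iff (subset_univ _), Matroid.loops,
    AlgebraicIndependent.matroid_closure_eq, singleton_subset_iff]
  exact isAlgebraic_zero

theorem dim_le_hom (𝔭 : Ideal (MvPolynomial (Fin (N + 1)) k)) [𝔭.IsPrime]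
    (h𝔭 : ∀ f ∈ 𝔭, ∀ d, homogeneousComponent d f ∈ 𝔭)
    (hn : Algebra.trdeg k (MvPolynomial (Fin (N + 1)) k ⧸ 𝔭) = n + 1) : Dim k (hom 𝔭) n := by
  intro K _ _ y hX
  rcases eq_or_ne y 0 with rfl | hy
  · rw [rk_Rat_zero]
    exact zero_le
  · have h1 := eRk_ty (k := k) y hy
    have h2 : (AlgebraicIndependent.matroid k (Polynomial K)).eRk (range (ty y)) ≤ n + 1 := by
      rw [Matroid.eRk_le_iff]
      intro J hJ hi
      have h3 : J ⊆ range (evp 𝔭 h𝔭 y hX) := by
        rintro z hz
        obtain ⟨a, rfl⟩ := hJ hz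
        refine ⟨Ideal.Quotient.mk 𝔭 (X a), ?_⟩
        rw [evp_mk, aeval_X]
      obtain ⟨I, rfl, hI⟩ := exists_image_eq_injOn_of_subset_range h3
      rw [hI.encard_image, ← eRank_quot 𝔭 hn]
      exact (indep_image_of _ I hI hi).encard_le_eRank
    rw [h1] at h2
    exact (ENat.add_le_add_iff_right ENat.one_ne_top).mp h2

theorem generic_point_hom (𝔭 : Ideal (MvPolynomial (Fin (N + 1)) k)) [𝔭.IsPrime]
    (h𝔭 : ∀ f ∈ 𝔭, ∀ d, homogeneousComponent d f ∈ 𝔭)
    (hn : Algebra.trdeg k (MvPolynomial (Fin (N + 1)) k ⧸ 𝔭) = n + 1)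
    {K : Type u} [Field K] [Algebra k K] (y : Fin (N + 1) → K) (hX : OnX (hom 𝔭) y)
    (hgen : ∀ f : MvPolynomial (Fin (N + 1)) k, (∃ d, f.IsHomogeneous d) → f ∉ 𝔭 → aeval y f ≠ 0) :
    (n : ℕ∞) ≤ rk k (Rat y) := by
  have hinj : Function.Injective (evp 𝔭 h𝔭 y hX) := by
    rw [injective_iff_map_eq_zero]
    intro z hz
    obtain ⟨f, rfl⟩ := Ideal.Quotient.mk_surjective z
    rw [evp_mk] at hz
    rw [Ideal.Quotient.eq_zero_iff_mem, ← sum_homogeneousComponent f]
    refine Ideal.sum_mem _ fun d _ => ?_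
    by_contra hcon
    refine hgen _ ⟨d, homogeneousComponent_isHomogeneous d f⟩ hcon ?_
    rw [← aeval_ty, hz, Polynomial.coeff_zero]
  have h1 : (n + 1 : ℕ∞) ≤ (AlgebraicIndependent.matroid k (Polynomial K)).eRk (range (ty y)) := by
    rw [← eRank_quot 𝔭 hn, ← Matroid.eRk_ground, ← eRk_image _ hinj, ← Matroid.eRk_closure_eq _ (range (ty y))]
    refine Matroid.eRk_mono _ ?_
    rintro _ ⟨z, -, rfl⟩
    obtain ⟨f, rfl⟩ := Ideal.Quotient.mk_surjective z
    rw [evp_mk, AlgebraicIndependent.matroid_closure_eq]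
    have h2 : aeval (ty y) f ∈ Algebra.adjoin k (range (ty y)) := by
      rw [Algebra.adjoin_range_eq_range_aeval]
      exact ⟨f, rfl⟩
    exact isAlgebraic_algebraMap (A := Polynomial K) (⟨_, h2⟩ : Algebra.adjoin k (range (ty y)))
  have hy : y ≠ 0 := by
    rintro rfl
    have h2 : range (ty (0 : Fin (N + 1) → K)) ⊆ {0} := by
      rintro _ ⟨a, rfl⟩
      simp [ty]
    have h3 : (AlgebraicIndependent.matroid k (Polynomial K)).eRk (range (ty (0 : Fin (N + 1) → K))) = 0 := by
      rw [Matroid.eRk_eq_zero_iff (subset_univ _), Matroid.loops,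
        AlgebraicIndependent.matroid_closure_eq]
      refine h2.trans ?_
      rw [singleton_subset_iff]
      exact isAlgebraic_zero
    rw [h3] at h1
    exact absurd (le_antisymm h1 zero_le) (by simp)
  rw [eRk_ty (k := k) y hy] at h1
  exact (ENat.add_le_add_iff_right ENat.one_ne_top).mp h1

/-! ## Affine coordinates: `X` is the closure of the zeros of the prime ideal `P` -/

/-- the homogeneous equations of the closure -/
def cone {k : Type u} [Field k] {N : ℕ} (P : Ideal (MvPolynomial (Fin N) k)) : Set (MvPolynomial (Fin (N + 1)) k) :=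
  {f | (∃ d, f.IsHomogeneous d) ∧ aeval (Fin.cons 1 X : Fin (N + 1) → MvPolynomial (Fin N) k) f ∈ P}

theorem homog_cone {k : Type u} [Field k] {N : ℕ} (P : Ideal (MvPolynomial (Fin N) k)) : Homog (cone P) :=
  fun _ hf => hf.1

theorem eRank_aff (P : Ideal (MvPolynomial (Fin N) k)) [P.IsPrime]
    (hP : Algebra.trdeg k (MvPolynomial (Fin N) k ⧸ P) = n) :
    (AlgebraicIndependent.matroid k (MvPolynomial (Fin N) k ⧸ P)).eRank = n := by
  rw [← Matroid.toENat_cRank_eq, AlgebraicIndependent.matroid_cRank_eq, hP]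
  simp

theorem dim_le (P : Ideal (MvPolynomial (Fin N) k)) [P.IsPrime]
    (hP : Algebra.trdeg k (MvPolynomial (Fin N) k ⧸ P) = n) : Dim k (cone P) n := by
  intro K _ _ y hX
  rcases eq_or_ne y 0 with rfl | hy
  · rw [rk_Rat_zero]
    exact zero_le
  have h1 := eRk_ty (k := k) y hy
  let x : Fin (N + 1) → MvPolynomial (Fin N) k ⧸ P :=
    fun a => Ideal.Quotient.mkₐ k P ((Fin.cons 1 X : Fin (N + 1) → MvPolynomial (Fin N) k) a)
  have hx : ∀ f : MvPolynomial (Fin (N + 1)) k, aeval x f =
      Ideal.Quotient.mkₐ k P (aeval (Fin.cons 1 X : Fin (N + 1) → MvPolynomial (Fin N) k) f) :=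
    fun f => (comp_aeval_apply _ (Ideal.Quotient.mkₐ k P) f).symm
  have htr : Algebra.trdeg k (Polynomial (MvPolynomial (Fin N) k ⧸ P)) = n + 1 := by
    rw [← trdeg_add_eq k (MvPolynomial (Fin N) k ⧸ P), hP, Polynomial.trdeg_of_isDomain]
  have h2 : (AlgebraicIndependent.matroid k (Polynomial K)).eRk (range (ty y)) ≤ n + 1 := by
    rw [Matroid.eRk_le_iff]
    intro J hJ hi
    obtain ⟨S, rfl, hS⟩ := exists_image_eq_injOn_of_subset_range hJ
    rw [AlgebraicIndependent.matroid_indep_iff] at hi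
    have h3 : AlgebraicIndependent k fun a : S => ty y a := (algebraicIndependent_image hS).mpr hi
    have h4 : AlgebraicIndependent k fun a : S => ty x a := by
      rw [algebraicIndependent_iff] at h3 ⊢
      intro p hp
      apply h3
      have h5 : ∀ {B : Type u} [CommRing B] [Algebra k B] (z : Fin (N + 1) → B),
          aeval (fun a : S => z a) p = aeval z (rename (Subtype.val : S → Fin (N + 1)) p) := by
        intro B _ _ z
        rw [aeval_rename]
        rfl
      rw [h5 (ty x)] at hp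
      rw [h5 (ty y)]
      ext d
      rw [aeval_ty, Polynomial.coeff_zero]
      refine hX _ ⟨⟨d, homogeneousComponent_isHomogeneous d _⟩, ?_⟩
      rw [← Ideal.Quotient.eq_zero_iff_mem]
      have h6 := congrArg (fun q => Polynomial.coeff q d) hp
      simp only [aeval_ty, Polynomial.coeff_zero, hx] at h6
      exact h6
    have h7 := h4.lift_cardinalMk_le_trdeg
    rw [htr] at h7
    rw [hS.encard_image]
    have h8 : Cardinal.toENat (Cardinal.lift.{u} (Cardinal.mk S)) ≤ Cardinal.toENat (Cardinal.lift.{0} ((n : Cardinal.{u}) + 1)) :=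
      Cardinal.toENat.monotone' h7
    simpa using h8
  rw [h1] at h2
  exact (ENat.add_le_add_iff_right ENat.one_ne_top).mp h2

theorem generic_point (P : Ideal (MvPolynomial (Fin N) k)) [P.IsPrime]
    (hP : Algebra.trdeg k (MvPolynomial (Fin N) k ⧸ P) = n) {K : Type u} [Field K] [Algebra k K]
    (y : Fin N → K) (h : ∀ f, aeval y f = 0 → f ∈ P) :
    (n : ℕ∞) ≤ rk k (Rat (Fin.cons 1 y : Fin (N + 1) → K)) := by
  obtain ⟨B, hB⟩ := (AlgebraicIndependent.matroid k (MvPolynomial (Fin N) k ⧸ P)).exists_isBase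
  have hBn : B.encard = n := by rw [hB.encard_eq_eRank, eRank_aff P hP]
  have hBi : AlgebraicIndependent k fun b : B => (b : MvPolynomial (Fin N) k ⧸ P) :=
    AlgebraicIndependent.matroid_indep_iff.mp hB.indep
  let σ : MvPolynomial (Fin N) k ⧸ P → MvPolynomial (Fin N) k :=
    Function.surjInv (Ideal.Quotient.mk_surjective (I := P))
  have hσ : ∀ b, Ideal.Quotient.mkₐ k P (σ b) = b := Function.surjInv_eq _
  have hψ : AlgebraicIndependent k fun b : B => aeval y (σ b) := by
    rw [algebraicIndependent_iff] at hBi ⊢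
    intro p hp
    apply hBi
    have h1 : aeval (fun b : B => aeval y (σ b)) p = aeval y (aeval (fun b : B => σ b) p) :=
      (comp_aeval_apply _ (aeval y) p).symm
    rw [h1] at hp
    have h2 := Ideal.Quotient.eq_zero_iff_mem.mpr (h _ hp)
    have h3 : Ideal.Quotient.mkₐ k P (aeval (fun b : B => σ b) p) = 0 := h2
    rw [comp_aeval_apply] at h3
    simpa only [hσ] using h3
  have hr : (AlgebraicIndependent.matroid k K).Indep (range fun b : B => aeval y (σ b)) :=
    AlgebraicIndependent.matroid_indep_iff.mpr hψ.coe_range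
  have hc : (range fun b : B => aeval y (σ b)).encard = n := by
    rw [← image_univ, hψ.injective.injOn.encard_image, encard_univ, ← hBn]
    rfl
  rw [rk, ← Matroid.eRk_closure_eq, ← hc]
  refine hr.encard_le_eRk_of_subset ?_
  rintro _ ⟨b, rfl⟩
  rw [AlgebraicIndependent.matroid_closure_eq]
  have h2 : aeval y (σ b) ∈ Algebra.adjoin k (Rat (Fin.cons 1 y : Fin (N + 1) → K)) := by
    have h3 : Algebra.adjoin k (range y) ≤ Algebra.adjoin k (Rat (Fin.cons 1 y : Fin (N + 1) → K)) := by
      refine Algebra.adjoin_mono ?_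
      rintro _ ⟨j, rfl⟩
      exact ⟨j.succ, 0, by simp⟩
    apply h3
    rw [Algebra.adjoin_range_eq_range_aeval]
    exact ⟨_, rfl⟩
  exact isAlgebraic_algebraMap (A := K) (⟨_, h2⟩ : Algebra.adjoin k (Rat (Fin.cons 1 y : Fin (N + 1) → K)))

end Pool.Agent.GS
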