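import Pool.Agent.Helper64.GS.D7

/-!
# GS: the sixth moment in the shell is Gaussian

Compare `Helper92.GC.shell`, which has the factor `(1 + H³/ρ)^(4/15)`.
-/

open MeasureTheory Real Set Filter Topology

set_option autoImplicit false

namespace Pool.Agent.Helper64.GS

open Pool.Agent.Helper22.AE
open Pool.Agent.Helper22.AC (n6 IsWt mu)
open Pool.Agent.Helper92.GC

theorem shell0 {ε : ℝ} (hε : 0 < ε) : ∃ C : ℝ, 0 < C ∧ ∀ H ρ β : ℝ, 1 ≤ H → H ^ (3 / 2 : ℝ) ≤ ρ → |β| ≤ 1 / 2 →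
    ∫ r in Icc ρ (2 * ρ), m6 (reg β H) (fun k => ee (r * ph β k)) ≤ C * H ^ ε * ρ * H ^ 6 := shell2 hε

end Pool.Agent.Helper64.GS
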