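import Pool.Agent.Helper92.GC.Q1
import Pool.Agent.Helper92.GC.Defs
import Pool.Agent.Helper22.AC.A1
import Pool.Agent.Helper22.AC.B1

/-!
# GS, part C (helper64): the sixth moment against a weight, from a pointwise majorant

Everything with radius outside `[ρ/2, 4ρ]` is bounded by the decay of the weight.
-/

open MeasureTheory Real Set Filter Topology

set_option autoImplicit false

namespace Pool.Agent.Helper64.GS

open Pool.Agent.Helper22.AE
open Pool.Agent.Helper22.AC (n6 IsWt mu)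
open Pool.Agent.Helper92.GC

private theorem wt_int {X : ℝ} {v : ℝ → ℝ} (hv : IsWt X v) : Integrable v := by
  by_contra hcon
  have h2 := hv.int_one
  rw [integral_undef hcon] at h2
  exact zero_ne_one h2

private theorem tail_wt {X R₁ ρ c₀ : ℝ} {Cd : ℕ → ℝ} {v : ℝ → ℝ} (hX : 0 < X) (hv : IsDw X R₁ v c₀ Cd) (h1 : ρ ≤ R₁)
    (h2 : R₁ ≤ 2 * ρ) (hρ : 0 < ρ) (n : ℕ) :
    ∫ R in (Icc (ρ / 2) (4 * ρ))ᶜ, v R ≤ (2 * X / ρ) ^ n * (π * (Cd n + Cd (n + 2))) := by
  obtain ⟨hG, hG2⟩ := dw_tail hX hv n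
  have hfar : ∀ R, R ∈ (Icc (ρ / 2) (4 * ρ))ᶜ → 1 ≤ (2 * X / ρ) * (|R - R₁| / X) := by
    intro R hR
    have h3 : ρ / 2 ≤ |R - R₁| := by
      rw [mem_compl_iff, mem_Icc, not_and_or, not_le, not_le] at hR
      rcases hR with h | h
      · rw [abs_sub_comm]
        refine le_trans ?_ (le_abs_self _)
        linarith
      · refine le_trans ?_ (le_abs_self _)
        linarith
    have h4 : (1 : ℝ) = 2 * X / ρ * (ρ / 2 / X) := by
      field_simp
    have h5 : ρ / 2 / X ≤ |R - R₁| / X := div_le_div_of_nonneg_right h3 hX.le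
    rw [h4]
    exact mul_le_mul_of_nonneg_left h5 (by positivity)
  have h3 : ∫ R in (Icc (ρ / 2) (4 * ρ))ᶜ, v R ≤
      ∫ R in (Icc (ρ / 2) (4 * ρ))ᶜ, (2 * X / ρ) ^ n * (v R * (|R - R₁| / X) ^ n) := by
    refine setIntegral_mono_on (wt_int hv.wt).integrableOn (hG.const_mul _).integrableOn measurableSet_Icc.compl
      fun R hR => ?_
    have h4 : 1 ≤ ((2 * X / ρ) * (|R - R₁| / X)) ^ n := one_le_pow₀ (hfar R hR)
    rw [mul_pow] at h4
    have h5 : v R ≤ v R * ((2 * X / ρ) ^ n * (|R - R₁| / X) ^ n) := le_mul_of_one_le_right (hv.wt.nonneg R) h4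
    refine h5.trans (le_of_eq ?_)
    ring
  refine h3.trans ((setIntegral_le_integral (hG.const_mul _) (Eventually.of_forall fun R => ?_)).trans ?_)
  · exact mul_nonneg (by positivity) (mul_nonneg (hv.wt.nonneg R) (by positivity))
  · rw [integral_const_mul]
    exact mul_le_mul_of_nonneg_left hG2 (by positivity)

theorem n6_pw {X R₁ ρ L c₀ : ℝ} {Cd : ℕ → ℝ} {v : ℝ → ℝ} (hX : 0 < X) (hv : IsDw X R₁ v c₀ Cd) (h1 : ρ ≤ R₁)
    (h2 : R₁ ≤ 2 * ρ) (hρ : 0 < ρ) {f : (ℝ × ℝ) × ℝ → ℂ} (hf : Continuous f) (hL : ∀ q, ‖f q‖ ≤ L)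
    {G : (ℝ × ℝ) × ℝ → ENNReal} (hG : Measurable G)
    (h : ∀ q : (ℝ × ℝ) × ℝ, ρ / 2 ≤ q.2 → q.2 ≤ 4 * ρ → ENNReal.ofReal (‖f q‖ ^ 6) ≤ G q) (n : ℕ)
    (hfin : ∫⁻ R in Icc (ρ / 2) (4 * ρ), ∫⁻ c in Tq, G (c, R) ≠ ⊤) :
    n6 (mu v) f ^ 3 ≤ Cd 0 / X * (∫⁻ R in Icc (ρ / 2) (4 * ρ), ∫⁻ c in Tq, G (c, R)).toReal +
      L ^ 6 * ((2 * X / ρ) ^ n * (π * (Cd n + Cd (n + 2)))) := by
  have hL0 : 0 ≤ L := (norm_nonneg _).trans (hL ((0, 0), 0))
  have hprob := Pool.Agent.Helper22.AC.mu_prob hv.wt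
  have hv0 := hv.wt.nonneg
  have hvi := wt_int hv.wt
  have hvc : ∀ R, v R ≤ Cd 0 / X := fun R => by
    have := hv.dec 0 R
    rwa [pow_zero, mul_one] at this
  have hC0 : 0 ≤ Cd 0 / X := (hv0 0).trans (hvc 0)
  have hvm : Measurable fun R => ENNReal.ofReal (v R) := hv.wt.cont.measurable.ennreal_ofReal
  have hint : Integrable (fun q => ‖f q‖ ^ 6) (mu v) := by
    refine Integrable.of_bound (C := L ^ 6) (hf.norm.pow 6).aestronglyMeasurable (Eventually.of_forall fun q => ?_)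
    rw [Real.norm_of_nonneg (by positivity)]
    exact pow_le_pow_left₀ (norm_nonneg _) (hL q) 6
  have hI : MeasurableSet (Icc (ρ / 2) (4 * ρ)) := measurableSet_Icc
  set I : Set ℝ := Icc (ρ / 2) (4 * ρ) with hIdef
  set A : ENNReal := ∫⁻ R in I, ∫⁻ c in Tq, G (c, R) with hA
  have hT : 0 ≤ ∫ R in Iᶜ, v R := integral_nonneg_of_ae (Eventually.of_forall fun R => hv0 R)
  have hvol : (volume : Measure (ℝ × ℝ)) Tq = 1 := by
    unfold Tq
    rw [Measure.volume_eq_prod, Measure.prod_prod, Real.volume_Icc, sub_zero, ENNReal.ofReal_one, mul_one]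
  -- pointwise majorant
  have hmaj : ∀ q : (ℝ × ℝ) × ℝ, ENNReal.ofReal (‖f q‖ ^ 6) ≤
      I.indicator (fun _ => G q) q.2 + Iᶜ.indicator (fun _ => ENNReal.ofReal (L ^ 6)) q.2 := by
    intro q
    by_cases hq : q.2 ∈ I
    · rw [indicator_of_mem hq, indicator_of_notMem (by simpa using hq), add_zero]
      exact h q hq.1 hq.2
    · rw [indicator_of_notMem hq, indicator_of_mem (mem_compl hq), zero_add]
      exact ENNReal.ofReal_le_ofReal (pow_le_pow_left₀ (norm_nonneg _) (hL q) 6)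
  have hm1 : Measurable fun q : (ℝ × ℝ) × ℝ => I.indicator (fun _ => G q) q.2 := by
    have e : (fun q : (ℝ × ℝ) × ℝ => I.indicator (fun _ => G q) q.2) = (Prod.snd ⁻¹' I).indicator G := by
      funext q
      by_cases hq : q.2 ∈ I
      · rw [indicator_of_mem hq, indicator_of_mem (show q ∈ Prod.snd ⁻¹' I from hq)]
      · rw [indicator_of_notMem hq, indicator_of_notMem (show q ∉ Prod.snd ⁻¹' I from hq)]
    rw [e]
    exact hG.indicator (measurable_snd hI)
  have hm2 : Measurable fun q : (ℝ × ℝ) × ℝ => Iᶜ.indicator (fun _ => ENNReal.ofReal (L ^ 6)) q.2 :=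
    (measurable_const.indicator hI.compl).comp measurable_snd
  have key : ENNReal.ofReal (n6 (mu v) f ^ 3) ≤ ENNReal.ofReal (Cd 0 / X * A.toReal +
      L ^ 6 * ∫ R in Iᶜ, v R) := by
    rw [Pool.Agent.Helper22.AC.n6_cube, ofReal_integral_eq_lintegral_ofReal hint
      (Eventually.of_forall fun q => by positivity)]
    refine (lintegral_mono hmaj).trans ?_
    rw [lintegral_add_left hm1]
    rw [ENNReal.ofReal_add (by positivity) (by positivity)]
    refine add_le_add ?_ ?_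
    · unfold mu
      rw [lintegral_prod_symm' _ hm1, lintegral_withDensity_eq_lintegral_mul _ hvm (hm1.lintegral_prod_left')]
      have e1 : ∀ R : ℝ, ((fun R => ENNReal.ofReal (v R)) * fun y => ∫⁻ (x : ℝ × ℝ) in Icc (0 : ℝ) 1 ×ˢ Icc (0 : ℝ) 1,
          I.indicator (fun _ => G (x, y)) (x, y).2) R ≤
            I.indicator (fun R => ENNReal.ofReal (Cd 0 / X) * ∫⁻ c in Tq, G (c, R)) R := by
        intro R
        rw [Pi.mul_apply]
        by_cases hR : R ∈ I
        · rw [indicator_of_mem hR]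
          refine mul_le_mul' (ENNReal.ofReal_le_ofReal (hvc R)) (le_of_eq ?_)
          unfold Tq
          refine lintegral_congr fun c => ?_
          rw [indicator_of_mem (show (c, R).2 ∈ I from hR)]
        · rw [indicator_of_notMem hR]
          have : ∫⁻ (x : ℝ × ℝ) in Icc (0 : ℝ) 1 ×ˢ Icc (0 : ℝ) 1, I.indicator (fun _ => G (x, R)) (x, R).2 = 0 := by
            refine (lintegral_congr fun c => ?_).trans lintegral_zero
            rw [indicator_of_notMem (show (c, R).2 ∉ I from hR)]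
          rw [this, mul_zero]
      refine (lintegral_mono e1).trans ?_
      rw [lintegral_indicator hI, lintegral_const_mul' _ _ ENNReal.ofReal_ne_top, ENNReal.ofReal_mul hC0,
        ENNReal.ofReal_toReal hfin]
    · unfold mu
      rw [lintegral_prod_symm' _ hm2, lintegral_withDensity_eq_lintegral_mul _ hvm (hm2.lintegral_prod_left')]
      have e1 : ∀ R : ℝ, ((fun R => ENNReal.ofReal (v R)) * fun y => ∫⁻ (x : ℝ × ℝ) in Icc (0 : ℝ) 1 ×ˢ Icc (0 : ℝ) 1,
          Iᶜ.indicator (fun _ => ENNReal.ofReal (L ^ 6)) (x, y).2) R =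
            Iᶜ.indicator (fun R => ENNReal.ofReal (L ^ 6) * ENNReal.ofReal (v R)) R := by
        intro R
        rw [Pi.mul_apply]
        by_cases hR : R ∈ Iᶜ
        · rw [indicator_of_mem hR]
          have : ∫⁻ (x : ℝ × ℝ) in Icc (0 : ℝ) 1 ×ˢ Icc (0 : ℝ) 1, Iᶜ.indicator (fun _ => ENNReal.ofReal (L ^ 6)) (x, R).2 =
              ENNReal.ofReal (L ^ 6) := by
            have e2 : ∀ x : ℝ × ℝ, Iᶜ.indicator (fun _ => ENNReal.ofReal (L ^ 6)) (x, R).2 = ENNReal.ofReal (L ^ 6) := by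
              intro x
              rw [indicator_of_mem (show (x, R).2 ∈ Iᶜ from hR)]
            rw [lintegral_congr e2, lintegral_const, Measure.restrict_apply_univ]
            have := hvol
            unfold Tq at this
            rw [this, mul_one]
          rw [this, mul_comm]
        · rw [indicator_of_notMem hR]
          have : ∫⁻ (x : ℝ × ℝ) in Icc (0 : ℝ) 1 ×ˢ Icc (0 : ℝ) 1, Iᶜ.indicator (fun _ => ENNReal.ofReal (L ^ 6)) (x, R).2 = 0 := by
            refine (lintegral_congr fun c => ?_).trans lintegral_zero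
            rw [indicator_of_notMem (show (c, R).2 ∉ Iᶜ from hR)]
          rw [this, mul_zero]
      rw [lintegral_congr e1, lintegral_indicator hI.compl, lintegral_const_mul' _ _ ENNReal.ofReal_ne_top,
        ENNReal.ofReal_mul (by positivity), ofReal_integral_eq_lintegral_ofReal hvi.integrableOn
          (Eventually.of_forall fun R => hv0 R)]
  have h3 := (ENNReal.ofReal_le_ofReal_iff (by positivity)).1 key
  refine h3.trans ?_
  have h4 := tail_wt hX hv h1 h2 hρ n
  have h5 : L ^ 6 * ∫ R in Iᶜ, v R ≤ L ^ 6 * ((2 * X / ρ) ^ n * (π * (Cd n + Cd (n + 2)))) :=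
    mul_le_mul_of_nonneg_left h4 (by positivity)
  linarith

end Pool.Agent.Helper64.GS
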