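import Pool.Agent.Helper76.GS.A1
import Pool.Agent.Helper19.GS.Cd

/-!
# GS, part C (helper64): telescoping over the dyadic levels, definitions

Plan: /team-store/h76_GS_plan.md, part (C). Level `n`: `2^n` windows of `[-6, 6)`, width `wd n = 12/2^n`, centres `tc (2^n) i`.
-/

open MeasureTheory Real Set Filter Topology

set_option autoImplicit false

namespace Pool.Agent.Helper64.GS

open Pool.Agent.Helper22.AE
open Pool.Agent.Helper22.AC (n6 IsWt mu)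
open Pool.Agent.Helper92.GC
open Pool.Agent.Helper76.GS
open Pool.Agent.Helper19.GS

/-- the width of the windows of level `n` -/
noncomputable def wd (n : ℕ) : ℝ := 12 / ((2 ^ n : ℕ) : ℝ)

/-- the conditions on the width `w` of a level -/
structure Ok (H ρ e w : ℝ) : Prop where
  w0 : 0 < w
  w1 : w ≤ 1 / 4000
  big : H ^ (10 * e) ≤ ρ * H * w ^ 2
  cut : H ^ (3 * e - 1) / w ^ 2 ≤ ρ / 8
  dec : 1 / (ρ * H ^ (-e)) ≤ H ^ (1 + 10 * e) * w ^ 2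
  num : 12 / w ≤ 10 ^ 4 * H ^ 2
  num' : 12 / w ≤ H ^ (5 / 2 : ℝ)
  par4 : ∀ β t : ℝ, |β| ≤ 1 / 2 → |t| ≤ 6 → Par β ρ t (4 * w) (H ^ (5 * e - 1))
  par2 : ∀ β t : ℝ, |β| ≤ 1 / 2 → |t| ≤ 6 → Par β ρ t (2 * w) (H ^ (e - 1))

/-- the levels `n₀, ..., n₁` -/
structure Lv (H ρ e : ℝ) (n₀ n₁ : ℕ) : Prop where
  le : n₀ ≤ n₁
  top : (2 : ℝ) ^ n₀ ≤ 12 * ρ * H ^ (20 * e - 1)
  fin : 520 * ρ ^ 2 * (4 * wd n₁) ^ 3 < 1
  cnt : (n₁ : ℝ) + 1 ≤ H ^ e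
  ok : ∀ n, n₀ ≤ n → n ≤ n₁ → Ok H ρ e (wd n)

/-- the heavy set of the window number `i` of level `n` -/
def Hs (β H e : ℝ) (n i : ℕ) : Set ((ℝ × ℝ) × ℝ) :=
  {q | Tri (near β q.2 (tc (2 ^ n) i) (3 * wd n) (H ^ (4 * e - 1)) q.1)}

/-- `b` is a cutoff function of the set `E` at the window with centre `t` and width `w` -/
structure IsCf (β H ρ e η L t w : ℝ) (E : Set ((ℝ × ℝ) × ℝ)) (b : Xp) : Prop where
  bx : Bx β H (2 * e) t w b
  l1 : l1 b ≤ L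
  val : ∀ q : (ℝ × ℝ) × ℝ, ∃ r : ℝ, xp b q = (r : ℂ) ∧ 0 ≤ r ∧ r ≤ 1 ∧
    (ρ / 2 ≤ q.2 → q.2 ≤ 4 * ρ → (∀ q', Plk β t (H ^ (3 * e - 1)) w q q' → q' ∈ E) → 1 - η ≤ r) ∧
    (ρ / 2 ≤ q.2 → q.2 ≤ 4 * ρ → (∀ q', Plk β t (H ^ (3 * e - 1)) w q q' → q' ∉ E) → r ≤ η)

/-- the difference of level `n` at the child window `j` of level `n + 1` (parent `j / 2`) -/
noncomputable def Dj (F Φ : ℕ → ℕ → Xp) (n j : ℕ) : Xp := mx (F (n + 1) j) (Φ n (j / 2) - Φ (n + 1) j)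

/-- the top difference -/
noncomputable def Dt (F Φ : ℕ → ℕ → Xp) (n i : ℕ) : Xp := F n i - mx (F n i) (Φ n i)

/-- the integral of the indicator function of a triangle -/
noncomputable def J3 (β ρ t s d : ℝ) : ENNReal := ∫⁻ R in Icc (ρ / 2) (4 * ρ), volume (Tq ∩ {c | Tri (near β R t s d c)})

theorem wd_pos (n : ℕ) : 0 < wd n := by
  unfold wd
  positivity

theorem wd_succ (n : ℕ) : wd (n + 1) = wd n / 2 := by
  unfold wd
  push_cast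
  rw [pow_succ]
  field_simp

theorem wd_two (n : ℕ) : wd n * 2 ^ n = 12 := by
  unfold wd
  push_cast
  field_simp

theorem tc_abs {n i : ℕ} (hi : i < 2 ^ n) : |tc (2 ^ n) i| ≤ 6 := by
  have h1 : ((i : ℝ) + 1) ≤ ((2 ^ n : ℕ) : ℝ) := by exact_mod_cast hi
  have h2 : (0 : ℝ) < ((2 ^ n : ℕ) : ℝ) := by positivity
  unfold tc
  have h3 : 0 ≤ 12 * ((i : ℝ) + 1 / 2) / ((2 ^ n : ℕ) : ℝ) := by positivity
  have h4 : 12 * ((i : ℝ) + 1 / 2) / ((2 ^ n : ℕ) : ℝ) ≤ 12 := by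
    rw [div_le_iff₀ h2]
    nlinarith
  rw [abs_le]
  constructor <;> linarith

/-- centre of a child -/
theorem tc_child (n j : ℕ) : |tc (2 ^ (n + 1)) j - tc (2 ^ n) (j / 2)| = wd n / 4 := by
  unfold tc wd
  have h0 : (0 : ℝ) < ((2 ^ n : ℕ) : ℝ) := by positivity
  have h1 : ((2 ^ (n + 1) : ℕ) : ℝ) = 2 * ((2 ^ n : ℕ) : ℝ) := by
    push_cast
    rw [pow_succ]
    ring
  rw [h1]
  rcases Nat.even_or_odd' j with ⟨k, hk | hk⟩
  · subst hk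
    have h2 : (2 * k) / 2 = k := by omega
    rw [h2]
    push_cast
    have : -6 + 12 * (2 * (k : ℝ) + 1 / 2) / (2 * 2 ^ n) - (-6 + 12 * ((k : ℝ) + 1 / 2) / 2 ^ n) = -(12 / 2 ^ n / 4) := by
      field_simp
      ring
    rw [this, abs_neg, abs_of_pos (by positivity)]
  · subst hk
    have h2 : (2 * k + 1) / 2 = k := by omega
    rw [h2]
    push_cast
    have : -6 + 12 * (2 * (k : ℝ) + 1 + 1 / 2) / (2 * 2 ^ n) - (-6 + 12 * ((k : ℝ) + 1 / 2) / 2 ^ n) = 12 / 2 ^ n / 4 := by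
      field_simp
      ring
    rw [this, abs_of_pos (by positivity)]

end Pool.Agent.Helper64.GS
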