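import Pool.Agent.Helper64.GS.D0

/-!
# GS-D1: the levels (choice of the parameters)

PROOF. `H ≥ H₀` large. `n₀` = the largest natural number with `2^n₀ ≤ 12 ρ H^(20e-1)` (exists: the right side is `≥ 12 H^(1/2) ≥ 1`), so `wd n₀ = 12/2^n₀ < 24/(12 ρ H^(20e-1)) = 2 H^(1-20e)/ρ`.
`n₁` = the least natural number `≥ n₀` with `520 ρ² (4 wd n₁)³ < 1` (exists: `wd n → 0`). Lower bound for `w₁ = wd n₁`: if `n₁ = n₀`: `w₁ ≥ H^(1-20e)/ρ ≥ ρ^(-2/3)` because `ρ^(1/3) ≤ H^(1 - 100e/3) ≤ H^(1-20e)`; otherwise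
`520 ρ² (4 wd (n₁ - 1))³ ≥ 1`, `wd (n₁ - 1) = 2 w₁`, so `w₁³ ≥ 1/(512 · 520 ρ²)`, `w₁ ≥ ρ^(-2/3)/65`. So for all levels `n₀ ≤ n ≤ n₁`, `w = wd n` (`wd` is antitone):
`ρ^(-2/3)/65 ≤ w ≤ 2 H^(1-20e)/ρ ≤ 2 H^(-1/2)` (`ρ ≥ H^(3/2)`).
`big`: `ρ H w² ≥ H ρ^(-1/3)/4225 ≥ H^(100e/3)/4225 ≥ H^(10e)` (`H^(23e) ≥ 4225`). `cut`: `8 H^(3e) ≤ H^(10e) ≤ ρ H w²`. `dec`: `H^e/ρ ≤ H^(1+10e) w²` because `H^(-9e) ≤ 1 ≤ ρ H w²`.
`num`: `12/w ≤ 780 ρ^(2/3) ≤ 780 H²`. `num'`: `780 H² ≤ H^(5/2)`. `w1`: `2 H^(-1/2) ≤ 1/4000`.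
`par4`: `hsd`: `64 ρ · 4w · H^(5e-1) ≤ 512 H^(-15e) ≤ 1/1000`; `hdd`: `H^(15e-3) ρ ≤ H^(-85e) ≤ 10^(-6)`; `hd1`: `H^(5e-1) ≤ 1/1000`; `hs1`: `4w ≤ 1/1000`; `hρ`: `ρ ≥ H^(3/2) ≥ 1`. `par2`: the same, all quantities are smaller.
`cnt`: `2^n₁ = 12/w₁ ≤ 10^4 H²`, so `n₁ ≤ log (10^4 H²)/log 2`, and `n₁ + 1 ≤ H^e` for large `H` (`log H ≤ H^(e/2)/(e/2)`).
-/

open MeasureTheory Real Set Filter Topology

set_option autoImplicit false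

namespace Pool.Agent.Helper64.GS

open Pool.Agent.Helper22.AE
open Pool.Agent.Helper22.AC (n6 IsWt mu)
open Pool.Agent.Helper92.GC
open Pool.Agent.Helper76.GS
open Pool.Agent.Helper19.GS

private lemma alg_h17 {H ρ h r w : ℝ} (hr : 10 ^ 4 ≤ r) (hHr : H = r ^ 2) (hh : 10 ^ 4 ≤ h) (hρ1 : H * r ≤ ρ)
    (hρ2 : ρ * h ^ 100 ≤ H ^ 3) (hw : 0 < w) (hL : 1 ≤ 266240 * (ρ ^ 2 * w ^ 3)) (hU : w * ρ * h ^ 20 ≤ 2 * H) :
    w ≤ 1 / 4000 ∧ h ^ 10 ≤ ρ * H * w ^ 2 ∧ (12 / w) ^ 3 ≤ (10 ^ 4 * H ^ 2) ^ 3 := by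
  have hr0 : 0 < r := by linarith
  have hh0 : 0 < h := by linarith
  have hh1 : 1 ≤ h := by linarith
  have hH0 : 0 < H := by rw [hHr]; positivity
  have hρ0 : 0 < ρ := lt_of_lt_of_le (by positivity) hρ1
  refine ⟨?_, ?_, ?_⟩
  · have h20 : 1 ≤ h ^ 20 := one_le_pow₀ hh1
    have e1 : w * (H * r) ≤ 2 * H := by
      calc w * (H * r) ≤ w * ρ := mul_le_mul_of_nonneg_left hρ1 hw.le
        _ ≤ w * ρ * h ^ 20 := le_mul_of_one_le_right (by positivity) h20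
        _ ≤ 2 * H := hU
    have e2 : w * r * H ≤ 2 * H := by linarith
    have e3 : w * r ≤ 2 := le_of_mul_le_mul_right e2 hH0
    have e4 : w * 10 ^ 4 ≤ w * r := mul_le_mul_of_nonneg_left hr hw.le
    linarith
  · have h70 : (266240 : ℝ) ^ 2 ≤ h ^ 70 := by
      calc (266240 : ℝ) ^ 2 ≤ (10 ^ 4) ^ 70 := by norm_num
        _ ≤ h ^ 70 := pow_le_pow_left₀ (by norm_num) hh 70
    have e1 : ρ * 266240 ^ 2 * (h ^ 10) ^ 3 ≤ ρ * 266240 ^ 2 * (ρ * H * w ^ 2) ^ 3 := by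
      calc ρ * 266240 ^ 2 * (h ^ 10) ^ 3 = 266240 ^ 2 * (ρ * h ^ 30) := by ring
        _ ≤ h ^ 70 * (ρ * h ^ 30) := mul_le_mul_of_nonneg_right h70 (by positivity)
        _ = ρ * h ^ 100 := by ring
        _ ≤ H ^ 3 := hρ2
        _ ≤ H ^ 3 * (266240 * (ρ ^ 2 * w ^ 3)) ^ 2 := le_mul_of_one_le_right (by positivity) (one_le_pow₀ hL)
        _ = ρ * 266240 ^ 2 * (ρ * H * w ^ 2) ^ 3 := by ring
    have e2 : (h ^ 10) ^ 3 ≤ (ρ * H * w ^ 2) ^ 3 := le_of_mul_le_mul_left e1 (by positivity)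
    exact (pow_le_pow_iff_left₀ (by positivity) (by positivity) (by norm_num)).1 e2
  · rw [div_pow, div_le_iff₀ (by positivity)]
    have hρ3 : ρ ≤ H ^ 3 := by
      calc ρ ≤ ρ * h ^ 100 := le_mul_of_one_le_right hρ0.le (one_le_pow₀ hh1)
        _ ≤ H ^ 3 := hρ2
    have e1 : ρ ^ 2 ≤ H ^ 6 := by
      calc ρ ^ 2 ≤ (H ^ 3) ^ 2 := pow_le_pow_left₀ hρ0.le hρ3 2
        _ = H ^ 6 := by ring
    calc (12 : ℝ) ^ 3 ≤ 12 ^ 3 * (266240 * (ρ ^ 2 * w ^ 3)) := le_mul_of_one_le_right (by norm_num) hL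
      _ = 12 ^ 3 * 266240 * (ρ ^ 2 * w ^ 3) := by ring
      _ ≤ 10 ^ 12 * (H ^ 6 * w ^ 3) := by
          apply mul_le_mul (by norm_num) _ (by positivity) (by norm_num)
          exact mul_le_mul_of_nonneg_right e1 (by positivity)
      _ = (10 ^ 4 * H ^ 2) ^ 3 * w ^ 3 := by ring

private lemma rp_h17 {H e : ℝ} (hH0 : 0 < H) (k : ℕ) : H ^ ((k : ℝ) * e) = (H ^ e) ^ k := by
  rw [← rpow_natCast, ← rpow_mul hH0.le]
  congr 1
  ring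

private lemma ok_h17 {H ρ e w : ℝ} (he : 0 < e) (he1 : e ≤ 1 / 1000) (hH1 : 1 ≤ H) (hr : 10 ^ 4 ≤ H ^ (1 / 2 : ℝ))
    (hh : 10 ^ 4 ≤ H ^ e) (hρ1 : H ^ (3 / 2 : ℝ) ≤ ρ) (hρ2 : ρ ≤ H ^ (3 - 100 * e)) (hw : 0 < w)
    (hL : 1 ≤ 266240 * (ρ ^ 2 * w ^ 3)) (hU : w * ρ ≤ 2 * H ^ (1 - 20 * e)) : Ok H ρ e w := by
  have hH0 : 0 < H := by linarith
  obtain ⟨h, hhe⟩ : ∃ h, h = H ^ e := ⟨_, rfl⟩
  obtain ⟨r, hre⟩ : ∃ r, r = H ^ (1 / 2 : ℝ) := ⟨_, rfl⟩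
  rw [← hhe] at hh
  rw [← hre] at hr
  have hh0 : 0 < h := by linarith
  have hh1 : 1 ≤ h := by linarith
  have hr0 : 0 < r := by linarith
  have hHr : H = r ^ 2 := by
    rw [hre, ← rpow_natCast, ← rpow_mul hH0.le]
    norm_num
  have e100 : H ^ (3 - 100 * e) * h ^ 100 = H ^ 3 := by
    rw [hhe, ← rp_h17 hH0 100, ← rpow_add hH0, ← rpow_natCast]
    congr 1
    push_cast
    ring
  have e20 : H ^ (1 - 20 * e) * h ^ 20 = H := by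
    have : H ^ (1 - 20 * e) * h ^ 20 = H ^ (1 : ℝ) := by
      rw [hhe, ← rp_h17 hH0 20, ← rpow_add hH0]
      congr 1
      push_cast
      ring
    rwa [rpow_one] at this
  have e32 : H ^ (3 / 2 : ℝ) = H * r := by
    have : H ^ (3 / 2 : ℝ) = H ^ (1 : ℝ) * r := by
      rw [hre, ← rpow_add hH0]
      norm_num
    rwa [rpow_one] at this
  have e52 : H ^ (5 / 2 : ℝ) = H ^ 2 * r := by
    rw [hre, ← rpow_natCast H 2, ← rpow_add hH0]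
    norm_num
  have e10 : H ^ (10 * e) = h ^ 10 := by
    rw [hhe, ← rp_h17 hH0 10]
    norm_num
  have e31 : H ^ (3 * e - 1) * H = h ^ 3 := by
    have : H ^ (3 * e - 1) * H ^ (1 : ℝ) = h ^ 3 := by
      rw [hhe, ← rp_h17 hH0 3, ← rpow_add hH0]
      congr 1
      push_cast
      ring
    rwa [rpow_one] at this
  have e51 : H ^ (5 * e - 1) * H = h ^ 5 := by
    have : H ^ (5 * e - 1) * H ^ (1 : ℝ) = h ^ 5 := by
      rw [hhe, ← rp_h17 hH0 5, ← rpow_add hH0]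
      congr 1
      push_cast
      ring
    rwa [rpow_one] at this
  have e110 : H ^ (1 + 10 * e) = H * h ^ 10 := by
    rw [rpow_add hH0, rpow_one, e10]
  have em : H ^ (-e) * h = 1 := by
    rw [hhe, ← rpow_add hH0, neg_add_cancel, rpow_zero]
  rw [e32] at hρ1
  have hρ0 : 0 < ρ := lt_of_lt_of_le (by positivity) hρ1
  have hρ2' : ρ * h ^ 100 ≤ H ^ 3 := by
    rw [← e100]
    exact mul_le_mul_of_nonneg_right hρ2 (by positivity)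
  have hU' : w * ρ * h ^ 20 ≤ 2 * H := by
    calc w * ρ * h ^ 20 ≤ 2 * H ^ (1 - 20 * e) * h ^ 20 := mul_le_mul_of_nonneg_right hU (by positivity)
      _ = 2 * (H ^ (1 - 20 * e) * h ^ 20) := by ring
      _ = 2 * H := by rw [e20]
  obtain ⟨a1, a2, a3⟩ := alg_h17 hr hHr hh hρ1 hρ2' hw hL hU'
  have hnum : 12 / w ≤ 10 ^ 4 * H ^ 2 :=
    (pow_le_pow_iff_left₀ (by positivity) (by positivity) (by norm_num)).1 a3
  have h10 : 1 ≤ h ^ 10 := one_le_pow₀ hh1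
  have hρ1' : 1 ≤ ρ := by
    have : 1 ≤ H * r := one_le_mul_of_one_le_of_one_le hH1 (by linarith)
    linarith
  have hd0 : 0 < H ^ (5 * e - 1) := rpow_pos_of_pos hH0 _
  have hd0' : 0 < H ^ (e - 1) := rpow_pos_of_pos hH0 _
  have hdd' : H ^ (e - 1) ≤ H ^ (5 * e - 1) := rpow_le_rpow_of_exponent_le hH1 (by linarith)
  have hd1 : H ^ (5 * e - 1) ≤ 1 / 1000 := by
    calc H ^ (5 * e - 1) ≤ H ^ (-(1 / 2) : ℝ) := rpow_le_rpow_of_exponent_le hH1 (by linarith)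
      _ = 1 / r := by
          rw [hre, rpow_neg hH0.le]
          exact (one_div _).symm
      _ ≤ 1 / 1000 := one_div_le_one_div_of_le (by norm_num) (by linarith)
  -- 64 ρ (4 w) d ≤ 1/1000
  have hsd : 64 * ρ * (4 * w) * H ^ (5 * e - 1) ≤ 1 / 1000 := by
    have m1 : (64 * ρ * (4 * w) * H ^ (5 * e - 1)) * (H * h ^ 20) ≤ 512 * H * h ^ 5 := by
      calc (64 * ρ * (4 * w) * H ^ (5 * e - 1)) * (H * h ^ 20)
          = 256 * (w * ρ * h ^ 20) * (H ^ (5 * e - 1) * H) := by ring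
        _ = 256 * (w * ρ * h ^ 20) * h ^ 5 := by rw [e51]
        _ ≤ 256 * (2 * H) * h ^ 5 :=
            mul_le_mul_of_nonneg_right (mul_le_mul_of_nonneg_left hU' (by norm_num)) (by positivity)
        _ = 512 * H * h ^ 5 := by ring
    have m2 : 512 * H * h ^ 5 ≤ 1 / 1000 * (H * h ^ 20) := by
      have m3 : (512000 : ℝ) ≤ h ^ 15 := by
        calc (512000 : ℝ) ≤ (10 ^ 4) ^ 15 := by norm_num
          _ ≤ h ^ 15 := pow_le_pow_left₀ (by norm_num) hh 15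
      have m4 : 512000 * (H * h ^ 5) ≤ h ^ 15 * (H * h ^ 5) := mul_le_mul_of_nonneg_right m3 (by positivity)
      have m5 : h ^ 15 * (H * h ^ 5) = H * h ^ 20 := by ring
      rw [m5] at m4
      linarith
    exact le_of_mul_le_mul_right (m1.trans m2) (by positivity)
  have hddd : (H ^ (5 * e - 1)) ^ 3 * ρ ≤ 1 / 10 ^ 6 := by
    have m1 : ((H ^ (5 * e - 1)) ^ 3 * ρ) * (H ^ 3 * h ^ 100) ≤ h ^ 15 * H ^ 3 := by
      calc ((H ^ (5 * e - 1)) ^ 3 * ρ) * (H ^ 3 * h ^ 100)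
          = (H ^ (5 * e - 1) * H) ^ 3 * (ρ * h ^ 100) := by ring
        _ = (h ^ 5) ^ 3 * (ρ * h ^ 100) := by rw [e51]
        _ ≤ (h ^ 5) ^ 3 * H ^ 3 := mul_le_mul_of_nonneg_left hρ2' (by positivity)
        _ = h ^ 15 * H ^ 3 := by ring
    have m2 : h ^ 15 * H ^ 3 ≤ 1 / 10 ^ 6 * (H ^ 3 * h ^ 100) := by
      have m3 : (10 : ℝ) ^ 6 ≤ h ^ 85 := by
        calc (10 : ℝ) ^ 6 ≤ (10 ^ 4) ^ 85 := by norm_num
          _ ≤ h ^ 85 := pow_le_pow_left₀ (by norm_num) hh 85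
      have m4 : (10 : ℝ) ^ 6 * (H ^ 3 * h ^ 15) ≤ h ^ 85 * (H ^ 3 * h ^ 15) :=
        mul_le_mul_of_nonneg_right m3 (by positivity)
      have m5 : h ^ 85 * (H ^ 3 * h ^ 15) = H ^ 3 * h ^ 100 := by ring
      rw [m5] at m4
      linarith
    exact le_of_mul_le_mul_right (m1.trans m2) (by positivity)
  refine ⟨hw, a1, ?_, ?_, ?_, hnum, ?_, ?_, ?_⟩
  · rw [e10]
    exact a2
  · rw [div_le_iff₀ (by positivity)]
    have m1 : 8 * h ^ 3 ≤ h ^ 10 := by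
      have m2 : (8 : ℝ) ≤ h ^ 7 := by
        calc (8 : ℝ) ≤ (10 ^ 4) ^ 7 := by norm_num
          _ ≤ h ^ 7 := pow_le_pow_left₀ (by norm_num) hh 7
      have m3 : 8 * h ^ 3 ≤ h ^ 7 * h ^ 3 := mul_le_mul_of_nonneg_right m2 (by positivity)
      have m4 : h ^ 7 * h ^ 3 = h ^ 10 := by ring
      rwa [m4] at m3
    have m5 : H ^ (3 * e - 1) * H ≤ ρ / 8 * w ^ 2 * H := by
      rw [e31]
      linarith
    exact le_of_mul_le_mul_right m5 hH0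
  · have m0 : 0 < H ^ (-e) := rpow_pos_of_pos hH0 _
    rw [div_le_iff₀ (by positivity), e110]
    have m1 : 1 ≤ ρ * H * w ^ 2 := h10.trans a2
    have m2 : h ≤ h ^ 10 := le_self_pow₀ hh1 (by norm_num)
    have m3 : 1 * h ≤ (H * h ^ 10 * w ^ 2 * (ρ * H ^ (-e))) * h := by
      calc 1 * h ≤ h ^ 10 := by linarith
        _ ≤ h ^ 10 * (ρ * H * w ^ 2) := le_mul_of_one_le_right (by positivity) m1
        _ = h ^ 10 * (ρ * H * w ^ 2) * (H ^ (-e) * h) := by rw [em, mul_one]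
        _ = (H * h ^ 10 * w ^ 2 * (ρ * H ^ (-e))) * h := by ring
    exact le_of_mul_le_mul_right m3 hh0
  · rw [e52]
    calc 12 / w ≤ 10 ^ 4 * H ^ 2 := hnum
      _ ≤ r * H ^ 2 := mul_le_mul_of_nonneg_right hr (by positivity)
      _ = H ^ 2 * r := by ring
  · intro β t hβ ht
    exact ⟨hβ, hρ1', ht, by positivity, by linarith, hd0, hd1, hsd, hddd⟩
  · intro β t hβ ht
    refine ⟨hβ, hρ1', ht, by positivity, by linarith, hd0', hdd'.trans hd1, ?_, ?_⟩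
    · refine le_trans ?_ hsd
      apply mul_le_mul _ hdd' hd0'.le (by positivity)
      apply mul_le_mul_of_nonneg_left (by linarith) (by positivity)
    · refine le_trans ?_ hddd
      exact mul_le_mul_of_nonneg_right (pow_le_pow_left₀ hd0'.le hdd' 3) hρ0.le

private lemma wd_anti_h17 {m n : ℕ} (h : m ≤ n) : wd n ≤ wd m := by
  unfold wd
  apply div_le_div_of_nonneg_left (by norm_num) (by positivity)
  exact_mod_cast Nat.pow_le_pow_right (by norm_num) h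

private lemma ex_h17 (ρ : ℝ) (n₀ : ℕ) : ∃ n, n₀ ≤ n ∧ 520 * ρ ^ 2 * (4 * wd n) ^ 3 < 1 := by
  obtain ⟨k, hk⟩ := pow_unbounded_of_one_lt (520 * 48 ^ 3 * ρ ^ 2) (by norm_num : (1 : ℝ) < 2)
  refine ⟨max n₀ k, le_max_left _ _, ?_⟩
  have hk2 : (2 : ℝ) ^ k ≤ 2 ^ (max n₀ k) := pow_le_pow_right₀ (by norm_num) (le_max_right _ _)
  obtain ⟨N, hN⟩ : ∃ N : ℝ, N = 2 ^ (max n₀ k) := ⟨_, rfl⟩
  have hN1 : 1 ≤ N := by rw [hN]; exact one_le_pow₀ (by norm_num)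
  have hw : wd (max n₀ k) = 12 / N := by
    unfold wd
    rw [hN]
    push_cast
    rfl
  rw [hw]
  have h1 : 520 * ρ ^ 2 * (4 * (12 / N)) ^ 3 = 520 * 48 ^ 3 * ρ ^ 2 / N ^ 3 := by
    field_simp
    ring
  rw [h1, div_lt_one (by positivity)]
  have h2 : N ≤ N ^ 3 := le_self_pow₀ hN1 (by norm_num)
  rw [← hN] at hk2
  linarith

private lemma cnt_h17 {H e : ℝ} (he : 0 < e) (hH1 : 1 ≤ H)
    (hg : 1 + (Real.log (10 ^ 4) + 4 / e) / Real.log 2 ≤ H ^ (e / 2)) {n : ℕ} (hn : (2 : ℝ) ^ n ≤ 10 ^ 4 * H ^ 2) :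
    (n : ℝ) + 1 ≤ H ^ e := by
  have hH0 : 0 < H := by linarith
  have hl2 : 0 < Real.log 2 := Real.log_pos (by norm_num)
  obtain ⟨g, hge⟩ : ∃ g, g = H ^ (e / 2) := ⟨_, rfl⟩
  have hg1 : 1 ≤ g := by rw [hge]; exact one_le_rpow hH1 (by positivity)
  have hg2 : g * g = H ^ e := by
    rw [hge, ← rpow_add hH0]
    congr 1
    ring
  have h1 : (n : ℝ) * Real.log 2 ≤ Real.log (10 ^ 4) + 2 * Real.log H := by
    have h2 := Real.log_le_log (by positivity) hn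
    rw [Real.log_pow, Real.log_mul (by norm_num) (by positivity), Real.log_pow H 2] at h2
    push_cast at h2
    exact h2
  have h3 : Real.log H ≤ g / (e / 2) := by
    rw [hge]
    exact Real.log_le_rpow_div hH0.le (by positivity)
  have h4 : g / (e / 2) = 2 / e * g := by
    field_simp
  rw [h4] at h3
  have hc : 0 ≤ Real.log (10 ^ 4) := Real.log_nonneg (by norm_num)
  have h5 : (n : ℝ) * Real.log 2 ≤ (Real.log (10 ^ 4) + 4 / e) * g := by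
    have h6 : Real.log (10 ^ 4) ≤ Real.log (10 ^ 4) * g := le_mul_of_one_le_right hc hg1
    calc (n : ℝ) * Real.log 2 ≤ Real.log (10 ^ 4) + 2 * Real.log H := h1
      _ ≤ Real.log (10 ^ 4) * g + 2 * (2 / e * g) := add_le_add h6 (mul_le_mul_of_nonneg_left h3 (by norm_num))
      _ = (Real.log (10 ^ 4) + 4 / e) * g := by ring
  have h8 : (n : ℝ) ≤ (Real.log (10 ^ 4) + 4 / e) / Real.log 2 * g := by
    rw [div_mul_eq_mul_div, le_div_iff₀ hl2]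
    exact h5
  rw [← hge] at hg
  calc (n : ℝ) + 1 ≤ (Real.log (10 ^ 4) + 4 / e) / Real.log 2 * g + 1 * g := by linarith
    _ = (1 + (Real.log (10 ^ 4) + 4 / e) / Real.log 2) * g := by ring
    _ ≤ g * g := mul_le_mul_of_nonneg_right hg (by linarith)
    _ = H ^ e := hg2

theorem lv_exists {e : ℝ} (he : 0 < e) (he1 : e ≤ 1 / 1000) : ∃ H₀ : ℝ, 1 ≤ H₀ ∧ ∀ H ρ : ℝ, H₀ ≤ H → H ^ (3 / 2 : ℝ) ≤ ρ →
    ρ ≤ H ^ (3 - 100 * e) → ∃ n₀ n₁ : ℕ, Lv H ρ e n₀ n₁ := by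
  have ev1 : ∀ᶠ H : ℝ in atTop, (10 : ℝ) ^ 4 ≤ H ^ (1 / 2 : ℝ) :=
    (tendsto_rpow_atTop (by norm_num)).eventually_ge_atTop _
  have ev2 : ∀ᶠ H : ℝ in atTop, (10 : ℝ) ^ 4 ≤ H ^ e := (tendsto_rpow_atTop he).eventually_ge_atTop _
  have ev3 : ∀ᶠ H : ℝ in atTop, 1 + (Real.log (10 ^ 4) + 4 / e) / Real.log 2 ≤ H ^ (e / 2) :=
    (tendsto_rpow_atTop (by positivity)).eventually_ge_atTop _
  obtain ⟨H₁, hH₁⟩ := eventually_atTop.1 (ev1.and (ev2.and ev3))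
  refine ⟨max 1 H₁, le_max_left _ _, ?_⟩
  intro H ρ hH hρ1 hρ2
  have hH1 : 1 ≤ H := (le_max_left _ _).trans hH
  have hH0 : 0 < H := by linarith
  obtain ⟨hr, hh, hg⟩ := hH₁ H ((le_max_right _ _).trans hH)
  have hρ0 : 0 < ρ := lt_of_lt_of_le (rpow_pos_of_pos hH0 _) hρ1
  -- the top level
  have hA1 : 1 ≤ 12 * ρ * H ^ (20 * e - 1) := by
    have h1 : H ^ (3 / 2 : ℝ) * H ^ (20 * e - 1) ≤ ρ * H ^ (20 * e - 1) :=
      mul_le_mul_of_nonneg_right hρ1 (rpow_pos_of_pos hH0 _).le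
    rw [← rpow_add hH0] at h1
    have h2 : 1 ≤ H ^ (3 / 2 + (20 * e - 1) : ℝ) := one_le_rpow hH1 (by linarith)
    linarith
  obtain ⟨n₀, h0a, h0b⟩ := exists_nat_pow_near hA1 (by norm_num : (1 : ℝ) < 2)
  have hex := ex_h17 ρ n₀
  classical
  obtain ⟨n₁, hn₁, hmin⟩ : ∃ n₁, (n₀ ≤ n₁ ∧ 520 * ρ ^ 2 * (4 * wd n₁) ^ 3 < 1) ∧
      ∀ m < n₁, ¬ (n₀ ≤ m ∧ 520 * ρ ^ 2 * (4 * wd m) ^ 3 < 1) :=
    ⟨Nat.find hex, Nat.find_spec hex, fun m hm => Nat.find_min hex hm⟩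
  have hE : H ^ (20 * e - 1) * H ^ (1 - 20 * e) = 1 := by
    rw [← rpow_add hH0]
    have : (20 * e - 1 + (1 - 20 * e) : ℝ) = 0 := by ring
    rw [this, rpow_zero]
  have hE0 : 0 < H ^ (1 - 20 * e) := rpow_pos_of_pos hH0 _
  -- upper bound at the top
  have hU0 : wd n₀ * ρ ≤ 2 * H ^ (1 - 20 * e) := by
    have h1 := wd_two n₀
    have h2 : 12 * ρ * H ^ (20 * e - 1) < 2 ^ n₀ * 2 := by rwa [pow_succ] at h0b
    have h3 : wd n₀ * (12 * ρ * H ^ (20 * e - 1)) ≤ wd n₀ * (2 ^ n₀ * 2) :=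
      mul_le_mul_of_nonneg_left h2.le (wd_pos n₀).le
    have h4 : wd n₀ * (2 ^ n₀ * 2) = 24 := by rw [← mul_assoc, h1]; norm_num
    rw [h4] at h3
    have h5 : wd n₀ * ρ * H ^ (20 * e - 1) ≤ 2 := by linarith
    have h6 := mul_le_mul_of_nonneg_right h5 hE0.le
    calc wd n₀ * ρ = wd n₀ * ρ * (H ^ (20 * e - 1) * H ^ (1 - 20 * e)) := by rw [hE, mul_one]
      _ = wd n₀ * ρ * H ^ (20 * e - 1) * H ^ (1 - 20 * e) := by ring
      _ ≤ 2 * H ^ (1 - 20 * e) := h6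
  -- lower bound at the top
  have hL0 : H ^ (1 - 20 * e) ≤ wd n₀ * ρ := by
    have h1 := wd_two n₀
    have h3 : wd n₀ * 2 ^ n₀ ≤ wd n₀ * (12 * ρ * H ^ (20 * e - 1)) :=
      mul_le_mul_of_nonneg_left h0a (wd_pos n₀).le
    rw [h1] at h3
    have h5 : 1 ≤ wd n₀ * ρ * H ^ (20 * e - 1) := by linarith
    have h6 := mul_le_mul_of_nonneg_right h5 hE0.le
    calc H ^ (1 - 20 * e) = 1 * H ^ (1 - 20 * e) := (one_mul _).symm
      _ ≤ wd n₀ * ρ * H ^ (20 * e - 1) * H ^ (1 - 20 * e) := h6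
      _ = wd n₀ * ρ * (H ^ (20 * e - 1) * H ^ (1 - 20 * e)) := by ring
      _ = wd n₀ * ρ := by rw [hE, mul_one]
  -- lower bound at the last level
  have hL1 : 1 ≤ 266240 * (ρ ^ 2 * wd n₁ ^ 3) := by
    rcases Nat.eq_or_lt_of_le hn₁.1 with h1 | h1
    · rw [← h1]
      have h2 : (H ^ (1 - 20 * e)) ^ 3 ≤ (wd n₀ * ρ) ^ 3 := pow_le_pow_left₀ hE0.le hL0 3
      have h3 : H ^ (3 - 100 * e) ≤ (H ^ (1 - 20 * e)) ^ 3 := by
        rw [← rpow_natCast, ← rpow_mul hH0.le]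
        apply rpow_le_rpow_of_exponent_le hH1
        push_cast
        linarith
      have h4 : ρ * 1 ≤ ρ * (ρ ^ 2 * wd n₀ ^ 3) := by
        calc ρ * 1 = ρ := mul_one _
          _ ≤ H ^ (3 - 100 * e) := hρ2
          _ ≤ (H ^ (1 - 20 * e)) ^ 3 := h3
          _ ≤ (wd n₀ * ρ) ^ 3 := h2
          _ = ρ * (ρ ^ 2 * wd n₀ ^ 3) := by ring
      have h5 := le_of_mul_le_mul_left h4 hρ0
      linarith
    · have h2 := hmin (n₁ - 1) (by omega)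
      have h3 : 1 ≤ 520 * ρ ^ 2 * (4 * wd (n₁ - 1)) ^ 3 := by
        by_contra hc
        exact h2 ⟨by omega, not_le.1 hc⟩
      have h4 : wd n₁ = wd (n₁ - 1) / 2 := by
        have := wd_succ (n₁ - 1)
        rwa [Nat.sub_add_cancel (by omega)] at this
      have h5 : wd (n₁ - 1) = 2 * wd n₁ := by rw [h4]; ring
      rw [h5] at h3
      calc (1 : ℝ) ≤ 520 * ρ ^ 2 * (4 * (2 * wd n₁)) ^ 3 := h3
        _ = 266240 * (ρ ^ 2 * wd n₁ ^ 3) := by ring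
  have hok : ∀ n, n₀ ≤ n → n ≤ n₁ → Ok H ρ e (wd n) := by
    intro n hn hn'
    have a1 : wd n₁ ≤ wd n := wd_anti_h17 hn'
    have a2 : wd n ≤ wd n₀ := wd_anti_h17 hn
    refine ok_h17 he he1 hH1 hr hh hρ1 hρ2 (wd_pos n) ?_ ?_
    · refine hL1.trans ?_
      apply mul_le_mul_of_nonneg_left _ (by norm_num)
      exact mul_le_mul_of_nonneg_left (pow_le_pow_left₀ (wd_pos n₁).le a1 3) (by positivity)
    · exact (mul_le_mul_of_nonneg_right a2 hρ0.le).trans hU0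
  refine ⟨n₀, n₁, hn₁.1, h0a, hn₁.2, ?_, hok⟩
  apply cnt_h17 he hH1 hg
  have h1 := (hok n₁ hn₁.1 le_rfl).num
  have h2 := wd_two n₁
  have h3 : 12 / wd n₁ = 2 ^ n₁ := by
    rw [div_eq_iff (wd_pos n₁).ne', mul_comm]
    exact h2.symm
  rwa [h3] at h1

end Pool.Agent.Helper64.GS
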