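import Pool.Agent.Helper64.GS.D0

/-!
# GS-D2: the telescoping identity

PROOF. Induction on `n₁ - n₀` (statement with a last term `∑ i, mx (F n i) (Φ n i)`): `∑_{j < 2^(n+1)} mx (F (n+1) j) (Φ n (j/2)) = ∑_{i < 2^n} mx (F n i) (Φ n i)` by `hF`.
-/

open MeasureTheory Real Set Filter Topology

set_option autoImplicit false

namespace Pool.Agent.Helper64.GS

open Pool.Agent.Helper22.AE
open Pool.Agent.Helper22.AC (n6 IsWt mu)
open Pool.Agent.Helper92.GC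
open Pool.Agent.Helper76.GS
open Pool.Agent.Helper19.GS

private theorem sum_two (f : ℕ → Xp) (N : ℕ) : ∑ j ∈ Finset.range (2 * N), f j = ∑ i ∈ Finset.range N, (f (2 * i) + f (2 * i + 1)) := by
  induction N with
  | zero => simp
  | succ N ih =>
    rw [show 2 * (N + 1) = 2 * N + 1 + 1 by ring, Finset.sum_range_succ, Finset.sum_range_succ, ih, Finset.sum_range_succ]
    rw [add_assoc]

theorem tel_step (F Φ : ℕ → ℕ → Xp) (hF : ∀ n i, F n i = F (n + 1) (2 * i) + F (n + 1) (2 * i + 1)) (n : ℕ) :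
    ∑ i ∈ Finset.range (2 ^ n), mx (F n i) (Φ n i) =
      ∑ j ∈ Finset.range (2 ^ (n + 1)), Dj F Φ n j + ∑ j ∈ Finset.range (2 ^ (n + 1)), mx (F (n + 1) j) (Φ (n + 1) j) := by
  rw [← Finset.sum_add_distrib]
  have h1 : ∀ j, Dj F Φ n j + mx (F (n + 1) j) (Φ (n + 1) j) = mx (F (n + 1) j) (Φ n (j / 2)) := by
    intro j
    unfold Dj
    rw [mx_sub, sub_add_cancel]
  simp only [h1]
  rw [show 2 ^ (n + 1) = 2 * 2 ^ n by ring, sum_two]
  refine Finset.sum_congr rfl fun i _ => ?_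
  rw [hF n i, mx_add, show (2 * i) / 2 = i by omega, show (2 * i + 1) / 2 = i by omega]

theorem tel (F Φ : ℕ → ℕ → Xp) (hF : ∀ n i, F n i = F (n + 1) (2 * i) + F (n + 1) (2 * i + 1)) {n₀ n₁ : ℕ} (h : n₀ ≤ n₁)
    (hΦ : ∀ i, mx (F n₁ i) (Φ n₁ i) = 0) :
    ∑ i ∈ Finset.range (2 ^ n₀), F n₀ i = ∑ i ∈ Finset.range (2 ^ n₀), Dt F Φ n₀ i +
      ∑ n ∈ Finset.Ico n₀ n₁, ∑ j ∈ Finset.range (2 ^ (n + 1)), Dj F Φ n j := by
  have h1 : ∀ m, ∑ i ∈ Finset.range (2 ^ n₀), mx (F n₀ i) (Φ n₀ i) =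
      ∑ n ∈ Finset.Ico n₀ (n₀ + m), ∑ j ∈ Finset.range (2 ^ (n + 1)), Dj F Φ n j +
        ∑ i ∈ Finset.range (2 ^ (n₀ + m)), mx (F (n₀ + m) i) (Φ (n₀ + m) i) := by
    intro m
    induction m with
    | zero => simp
    | succ m ih =>
      rw [ih, tel_step F Φ hF (n₀ + m), show n₀ + (m + 1) = n₀ + m + 1 by ring,
        Finset.sum_Ico_succ_top (by omega)]
      exact (add_assoc _ _ _).symm
  obtain ⟨m, rfl⟩ := Nat.exists_eq_add_of_le h
  have h2 := h1 m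
  simp only [hΦ, Finset.sum_const_zero, add_zero] at h2
  rw [← h2, ← Finset.sum_add_distrib]
  refine Finset.sum_congr rfl fun i _ => ?_
  unfold Dt
  rw [sub_add_cancel]

end Pool.Agent.Helper64.GS
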