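import Pool.Agent.Helper64.GS.D0
import Pool.Agent.Helper89.GS.Near

/-!
# GS-D3: the pointwise bound of the difference of two levels

Let `q = (c, R)`, `ρ/2 ≤ R ≤ 4ρ`, `w = wd n`, `w' = wd (n+1) = w/2`, `t = tc (2^n) (j/2)`, `t' = tc (2^(n+1)) j`, `|t - t'| = w/4` (`tc_child`), `r, r'` the values of `Φ n (j/2)`, `Φ (n+1) j` at `q` (`IsCf.val`).
`U = near β R t' (2w') (H^(e-1)) c` (the set in the amplitude bound), `V = near β R t (4w) (H^(5e-1)) c`. Monotonicity of `near`: `near β R t₁ s₁ d₁ c ⊆ near β R t₂ s₂ d₂ c` if `s₁ + |t₁ - t₂| ≤ s₂`, `d₁ ≤ d₂` (`Del` changes by `t₁ - t₂`);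
`Tri` is monotone.
PROOF of `child_diff`. `‖xp (Dj ..) q‖ = ‖xp F q‖ |r - r'|` (`xp_mx`, `xp_sub`), `|r - r'| ≤ 1`.
(1) If `Tri U`: `r' ≥ 1 - η`: for `q'` in the plank of the child (`plk_near` with `w'`, `t'`: its condition `H^(10e) ≤ ρ H w'²` is `Ok.big`) `U ⊆ near β q'.2 t' (3w') (H^(4e-1)) q'.1`, so `q' ∈ Hs β H e (n+1) j`. `r ≥ 1 - η`: `U ⊆ near β R t (2w) (H^(e-1)) c`
(`2w' + w/4 ≤ 2w`), and for `q'` in the plank of the parent this is contained in `near β q'.2 t (3w) (H^(4e-1)) q'.1`. So `|r - r'| ≤ 2η`.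
(2) If `¬ Tri V`: `r ≤ η`: for `q'` in the plank of the parent `near β q'.2 t (3w) (H^(4e-1)) q'.1 ⊆ V`, so `q' ∉ Hs β H e n (j/2)`. `r' ≤ η`: for `q'` in the plank of the child `near β q'.2 t' (3w') (..) q'.1 ⊆ near β R t' (4w') (H^(5e-1)) c ⊆ V`
(`4w' + w/4 ≤ 4w`). So `|r - r'| ≤ 2η`.
(3) If `Tri V` and `¬ Tri U`: `‖xp (Dj ..) q‖ ≤ ‖xp F q‖ ≤ Ca H^e √(H³/R) m + Ca`, `m = ncard U`, `H³/R ≤ 2H³/ρ`, `H³/ρ ≥ 1`, `H^e ≥ 1`. If `m ≤ 2` this is at most `4 Ca H^e √(H³/ρ)` (`2√2 + 1 ≤ 4`), if `m ≥ 3` at most `4 Ca H^e √(H³/ρ) m`.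
PROOF of `top_diff`. `‖xp (Dt ..) q‖ = ‖xp F q‖ |1 - r|`. If `Tri (near β R t (2w) (H^(e-1)) c)`: `1 - r ≤ η` as in (1). Otherwise as in (3).
`child_le`, `top_le`: `0 ≤ r, r' ≤ 1`, for every `q`.
-/

open MeasureTheory Real Set Filter Topology

set_option autoImplicit false

namespace Pool.Agent.Helper64.GS

open Pool.Agent.Helper22.AE
open Pool.Agent.Helper22.AC (n6 IsWt mu)
open Pool.Agent.Helper92.GC
open Pool.Agent.Helper76.GS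
open Pool.Agent.Helper19.GS

/-- the amplitude bound of the window function `a` -/
def Amp (β H ρ e Ca t w : ℝ) (a : Xp) : Prop := ∀ (c : ℝ × ℝ) (R : ℝ), ρ / 2 ≤ R → R ≤ 4 * ρ →
  ‖xp a (c, R)‖ ≤ Ca * H ^ e * √(H ^ 3 / R) * ((near β R t (2 * w) (H ^ (e - 1)) c).ncard : ℝ) + Ca

open Classical in
/-- the sixth power of the number of points if there are at least three and all are collinear -/
noncomputable def lgt (β t s d : ℝ) (q : (ℝ × ℝ) × ℝ) : ℝ :=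
  if 3 ≤ (near β q.2 t s d q.1).ncard ∧ ¬ Tri (near β q.2 t s d q.1) then ((near β q.2 t s d q.1).ncard : ℝ) ^ 6 else 0

open Classical in
/-- indicator function of a triangle -/
noncomputable def tri1 (β t s d : ℝ) (q : (ℝ × ℝ) × ℝ) : ℝ := if Tri (near β q.2 t s d q.1) then 1 else 0

private theorem nm1 {β R t₁ t₂ s₁ s₂ d₁ d₂ : ℝ} {c : ℝ × ℝ} (hs : s₁ + |t₁ - t₂| ≤ s₂) (hd : d₁ ≤ d₂) :
    near β R t₁ s₁ d₁ c ⊆ near β R t₂ s₂ d₂ c := by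
  rintro m ⟨h1, h2⟩
  refine ⟨?_, h2.trans hd⟩
  have e : Del β R t₂ c m = Del β R t₁ c m + (t₁ - t₂) := by
    unfold Del
    ring
  rw [e]
  refine (abs_add_le _ _).trans ?_
  linarith

private theorem tm1 {U V : Set (ℤ × ℤ)} (h : U ⊆ V) (hU : Tri U) : Tri V := by
  obtain ⟨m, hm, m1, hm1, m2, hm2, hd⟩ := hU
  exact ⟨m, h hm, m1, h hm1, m2, h hm2, hd⟩

/-- the numerical bound -/
private theorem nb1 {H ρ e Ca R A M : ℝ} {N : ℕ} (hH : 1 ≤ H) (he : 0 < e) (hρ : 0 < ρ) (hρH : ρ ≤ H ^ 3) (hCa : 0 < Ca)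
    (hA : 0 ≤ A) (hR : ρ / 2 ≤ R) (h : A ≤ Ca * H ^ e * √(H ^ 3 / R) * (N : ℝ) + Ca) (hM : 3 / 2 * (N : ℝ) + 1 ≤ 4 * M)
    (_hM1 : 1 ≤ M) : A ^ 6 ≤ (4 * Ca) ^ 6 * (H ^ e) ^ 6 * (H ^ 3 / ρ) ^ 3 * M ^ 6 := by
  have hH0 : 0 < H := by linarith
  have hR0 : 0 < R := by linarith
  set s : ℝ := √(H ^ 3 / ρ) with hs
  have hE : 1 ≤ H ^ e := one_le_rpow hH he.le
  have hq1 : 1 ≤ H ^ 3 / ρ := by
    rw [le_div_iff₀ hρ]
    linarith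
  have hs1 : 1 ≤ s := by
    rw [hs, Real.one_le_sqrt]
    exact hq1
  have hs2 : s ^ 2 = H ^ 3 / ρ := Real.sq_sqrt (by linarith)
  have hs3 : √(H ^ 3 / R) ≤ 3 / 2 * s := by
    apply Real.sqrt_le_iff.2
    refine ⟨by linarith, ?_⟩
    have e1 : H ^ 3 / R ≤ 2 * (H ^ 3 / ρ) := by
      rw [div_le_iff₀ hR0]
      have e2 : 2 * (H ^ 3 / ρ) * R = (H ^ 3 / ρ) * (2 * R) := by ring
      rw [e2]
      calc H ^ 3 = H ^ 3 / ρ * ρ := by field_simp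
        _ ≤ H ^ 3 / ρ * (2 * R) := mul_le_mul_of_nonneg_left (by linarith) (by linarith)
    have e3 : (3 / 2 * s) ^ 2 = 9 / 4 * (H ^ 3 / ρ) := by
      rw [mul_pow, hs2]
      norm_num
    rw [e3]
    linarith
  have h1 : A ≤ 4 * Ca * H ^ e * s * M := by
    have h2 : Ca * H ^ e * √(H ^ 3 / R) * (N : ℝ) ≤ Ca * H ^ e * (3 / 2 * s) * (N : ℝ) := by
      gcongr
    have h3 : Ca ≤ Ca * H ^ e * s := by
      have h4 : 1 ≤ H ^ e * s := by nlinarith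
      nlinarith
    have h5 : 0 ≤ Ca * H ^ e * s := by positivity
    calc A ≤ Ca * H ^ e * (3 / 2 * s) * (N : ℝ) + Ca * H ^ e * s := by linarith
      _ = Ca * H ^ e * s * (3 / 2 * (N : ℝ) + 1) := by ring
      _ ≤ Ca * H ^ e * s * (4 * M) := mul_le_mul_of_nonneg_left hM h5
      _ = 4 * Ca * H ^ e * s * M := by ring
  calc A ^ 6 ≤ (4 * Ca * H ^ e * s * M) ^ 6 := pow_le_pow_left₀ hA h1 6
    _ = (4 * Ca) ^ 6 * (H ^ e) ^ 6 * (s ^ 2) ^ 3 * M ^ 6 := by ring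
    _ = (4 * Ca) ^ 6 * (H ^ e) ^ 6 * (H ^ 3 / ρ) ^ 3 * M ^ 6 := by rw [hs2]

/-- the amplitude bound outside of the set of small difference -/
private theorem nb2 {β H ρ e Ca t w : ℝ} {a : Xp} {q : (ℝ × ℝ) × ℝ} (hH : 1 ≤ H) (he : 0 < e) (hρ : 0 < ρ) (hρH : ρ ≤ H ^ 3)
    (hCa : 0 < Ca) (hA : Amp β H ρ e Ca t w a) (h1 : ρ / 2 ≤ q.2) (h2 : q.2 ≤ 4 * ρ)
    (hT : ¬ Tri (near β q.2 t (2 * w) (H ^ (e - 1)) q.1)) :
    ‖xp a q‖ ^ 6 ≤ (4 * Ca) ^ 6 * (H ^ e) ^ 6 * (H ^ 3 / ρ) ^ 3 * (1 + lgt β t (2 * w) (H ^ (e - 1)) q) := by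
  have h3 := hA q.1 q.2 h1 h2
  have hB : 0 ≤ (4 * Ca) ^ 6 * (H ^ e) ^ 6 * (H ^ 3 / ρ) ^ 3 := by
    have : 0 < H := by linarith
    positivity
  unfold lgt
  by_cases hN : 3 ≤ (near β q.2 t (2 * w) (H ^ (e - 1)) q.1).ncard
  · rw [if_pos ⟨hN, hT⟩]
    have hN' : (3 : ℝ) ≤ ((near β q.2 t (2 * w) (H ^ (e - 1)) q.1).ncard : ℝ) := by exact_mod_cast hN
    refine (nb1 (M := ((near β q.2 t (2 * w) (H ^ (e - 1)) q.1).ncard : ℝ)) hH he hρ hρH hCa (norm_nonneg _) h1 h3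
      (by linarith) (by linarith)).trans ?_
    exact mul_le_mul_of_nonneg_left (by linarith) hB
  · rw [if_neg (fun h => hN h.1)]
    have hN' : ((near β q.2 t (2 * w) (H ^ (e - 1)) q.1).ncard : ℝ) ≤ 2 := by exact_mod_cast (by omega)
    have h4 := nb1 (M := 1) hH he hρ hρH hCa (norm_nonneg _) h1 h3 (by linarith) le_rfl
    simpa using h4

private theorem lg1 (β t s d : ℝ) (q : (ℝ × ℝ) × ℝ) : 0 ≤ lgt β t s d q := by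
  unfold lgt
  split_ifs
  · positivity
  · exact le_rfl

private theorem tr1 (β t s d : ℝ) (q : (ℝ × ℝ) × ℝ) : 0 ≤ tri1 β t s d q := by
  unfold tri1
  split_ifs
  · norm_num
  · exact le_rfl

private theorem sm1 {A x η L1 B X : ℝ} (hA : 0 ≤ A) (hAL : A ≤ L1) (hx : |x| ≤ 2 * η) (_hη : 0 ≤ η) (hB : 0 ≤ B)
    (hX : 0 ≤ X) : (A * |x|) ^ 6 ≤ B * X + (2 * η * L1) ^ 6 := by
  have h1 : A * |x| ≤ 2 * η * L1 := by
    calc A * |x| ≤ L1 * (2 * η) := mul_le_mul hAL hx (abs_nonneg _) (hA.trans hAL)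
      _ = 2 * η * L1 := by ring
  have h2 : (A * |x|) ^ 6 ≤ (2 * η * L1) ^ 6 := pow_le_pow_left₀ (mul_nonneg hA (abs_nonneg _)) h1 6
  have h3 : 0 ≤ B * X := mul_nonneg hB hX
  linarith

private theorem dj1 {F Φ : ℕ → ℕ → Xp} {n j : ℕ} {q : (ℝ × ℝ) × ℝ} {r r' : ℝ} (h1 : xp (Φ n (j / 2)) q = (r : ℂ))
    (h2 : xp (Φ (n + 1) j) q = (r' : ℂ)) : ‖xp (Dj F Φ n j) q‖ = ‖xp (F (n + 1) j) q‖ * |r - r'| := by
  unfold Dj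
  rw [xp_mx, xp_sub, h1, h2, norm_mul, ← Complex.ofReal_sub, Complex.norm_real, Real.norm_eq_abs]

private theorem dt1 {F Φ : ℕ → ℕ → Xp} {n i : ℕ} {q : (ℝ × ℝ) × ℝ} {r : ℝ} (h1 : xp (Φ n i) q = (r : ℂ)) :
    ‖xp (Dt F Φ n i) q‖ = ‖xp (F n i) q‖ * |1 - r| := by
  unfold Dt
  rw [xp_sub, xp_mx, h1]
  have : xp (F n i) q - xp (F n i) q * (r : ℂ) = xp (F n i) q * ((1 - r : ℝ) : ℂ) := by
    push_cast
    ring
  rw [this, norm_mul, Complex.norm_real, Real.norm_eq_abs]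

theorem child_le {β H ρ e η L : ℝ} {n j : ℕ} {F Φ : ℕ → ℕ → Xp}
    (hp : IsCf β H ρ e η L (tc (2 ^ n) (j / 2)) (wd n) (Hs β H e n (j / 2)) (Φ n (j / 2)))
    (hc : IsCf β H ρ e η L (tc (2 ^ (n + 1)) j) (wd (n + 1)) (Hs β H e (n + 1) j) (Φ (n + 1) j)) (q : (ℝ × ℝ) × ℝ) :
    ‖xp (Dj F Φ n j) q‖ ≤ ‖xp (F (n + 1) j) q‖ := by
  obtain ⟨r, h1, h2, h3, -, -⟩ := hp.val q
  obtain ⟨r', h1', h2', h3', -, -⟩ := hc.val q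
  rw [dj1 h1 h1']
  have h4 : |r - r'| ≤ 1 := by
    rw [abs_le]
    constructor <;> linarith
  calc ‖xp (F (n + 1) j) q‖ * |r - r'| ≤ ‖xp (F (n + 1) j) q‖ * 1 := mul_le_mul_of_nonneg_left h4 (norm_nonneg _)
    _ = ‖xp (F (n + 1) j) q‖ := mul_one _

theorem top_le {β H ρ e η L : ℝ} {n i : ℕ} {F Φ : ℕ → ℕ → Xp}
    (hp : IsCf β H ρ e η L (tc (2 ^ n) i) (wd n) (Hs β H e n i) (Φ n i)) (q : (ℝ × ℝ) × ℝ) :
    ‖xp (Dt F Φ n i) q‖ ≤ ‖xp (F n i) q‖ := by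
  obtain ⟨r, h1, h2, h3, -, -⟩ := hp.val q
  rw [dt1 h1]
  have h4 : |1 - r| ≤ 1 := by
    rw [abs_le]
    constructor <;> linarith
  calc ‖xp (F n i) q‖ * |1 - r| ≤ ‖xp (F n i) q‖ * 1 := mul_le_mul_of_nonneg_left h4 (norm_nonneg _)
    _ = ‖xp (F n i) q‖ := mul_one _

theorem child_diff {e : ℝ} (he : 0 < e) : ∃ H₀ : ℝ, 1 ≤ H₀ ∧ ∀ (β H ρ η L Ca L1 : ℝ) (n j : ℕ) (F Φ : ℕ → ℕ → Xp), H₀ ≤ H →
    0 < ρ → ρ ≤ H ^ 3 → 0 < Ca → 0 ≤ η → Ok H ρ e (wd n) → Ok H ρ e (wd (n + 1)) → (∀ q, ‖xp (F (n + 1) j) q‖ ≤ L1) →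
    Amp β H ρ e Ca (tc (2 ^ (n + 1)) j) (wd (n + 1)) (F (n + 1) j) →
    IsCf β H ρ e η L (tc (2 ^ n) (j / 2)) (wd n) (Hs β H e n (j / 2)) (Φ n (j / 2)) →
    IsCf β H ρ e η L (tc (2 ^ (n + 1)) j) (wd (n + 1)) (Hs β H e (n + 1) j) (Φ (n + 1) j) →
    ∀ q : (ℝ × ℝ) × ℝ, ρ / 2 ≤ q.2 → q.2 ≤ 4 * ρ → ‖xp (Dj F Φ n j) q‖ ^ 6 ≤
      (4 * Ca) ^ 6 * (H ^ e) ^ 6 * (H ^ 3 / ρ) ^ 3 * (tri1 β (tc (2 ^ n) (j / 2)) (4 * wd n) (H ^ (5 * e - 1)) q +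
        lgt β (tc (2 ^ (n + 1)) j) (2 * wd (n + 1)) (H ^ (e - 1)) q) + (2 * η * L1) ^ 6 := by
  obtain ⟨H₀, hH₀, hpk⟩ := Pool.Agent.Helper89.GS.plk_near he
  refine ⟨H₀, hH₀, ?_⟩
  intro β H ρ η L Ca L1 n j F Φ hH hρ hρH hCa hη hok hok' hL1 hamp hp hc q hq1 hq2
  have hH1 : 1 ≤ H := hH₀.trans hH
  have hH0 : 0 < H := by linarith
  obtain ⟨r, h1, h2, h3, h4, h5⟩ := hp.val q
  obtain ⟨r', h1', h2', h3', h4', h5'⟩ := hc.val q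
  rw [dj1 h1 h1']
  have hB : 0 ≤ (4 * Ca) ^ 6 * (H ^ e) ^ 6 * (H ^ 3 / ρ) ^ 3 := by positivity
  have htc := tc_child n j
  have hwd := wd_succ n
  have hw0 := wd_pos n
  have hd : H ^ (e - 1) ≤ H ^ (5 * e - 1) := rpow_le_rpow_of_exponent_le hH1 (by linarith)
  by_cases hU : Tri (near β q.2 (tc (2 ^ (n + 1)) j) (2 * wd (n + 1)) (H ^ (e - 1)) q.1)
  · have a1 : 1 - η ≤ r' := h4' hq1 hq2 fun q' hq' =>
      tm1 (hpk β H ρ (wd (n + 1)) _ q q' hH hρ hok'.w0 hok'.big hq1 hq').1 hU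
    have hU2 : Tri (near β q.2 (tc (2 ^ n) (j / 2)) (2 * wd n) (H ^ (e - 1)) q.1) := by
      refine tm1 (nm1 ?_ le_rfl) hU
      rw [htc, hwd]
      linarith
    have a2 : 1 - η ≤ r := h4 hq1 hq2 fun q' hq' =>
      tm1 (hpk β H ρ (wd n) _ q q' hH hρ hok.w0 hok.big hq1 hq').1 hU2
    refine sm1 (norm_nonneg _) (hL1 q) ?_ hη hB (add_nonneg (tr1 _ _ _ _ _) (lg1 _ _ _ _ _))
    rw [abs_le]
    constructor <;> linarith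
  · by_cases hV : Tri (near β q.2 (tc (2 ^ n) (j / 2)) (4 * wd n) (H ^ (5 * e - 1)) q.1)
    · have e1 : tri1 β (tc (2 ^ n) (j / 2)) (4 * wd n) (H ^ (5 * e - 1)) q = 1 := by
        unfold tri1
        rw [if_pos hV]
      rw [e1]
      have h6 := nb2 hH1 he hρ hρH hCa hamp hq1 hq2 hU
      have h7 : |r - r'| ≤ 1 := by
        rw [abs_le]
        constructor <;> linarith
      have h8 : (‖xp (F (n + 1) j) q‖ * |r - r'|) ^ 6 ≤ ‖xp (F (n + 1) j) q‖ ^ 6 := by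
        apply pow_le_pow_left₀ (by positivity)
        calc ‖xp (F (n + 1) j) q‖ * |r - r'| ≤ ‖xp (F (n + 1) j) q‖ * 1 :=
              mul_le_mul_of_nonneg_left h7 (norm_nonneg _)
          _ = ‖xp (F (n + 1) j) q‖ := mul_one _
      have h9 : 0 ≤ (2 * η * L1) ^ 6 := by
        have : 0 ≤ L1 := (norm_nonneg _).trans (hL1 q)
        positivity
      linarith
    · have a2 : r ≤ η := h5 hq1 hq2 fun q' hq' hT =>
        hV (tm1 (hpk β H ρ (wd n) _ q q' hH hρ hok.w0 hok.big hq1 hq').2 hT)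
      have a1 : r' ≤ η := h5' hq1 hq2 fun q' hq' hT =>
        hV (tm1 ((hpk β H ρ (wd (n + 1)) _ q q' hH hρ hok'.w0 hok'.big hq1 hq').2.trans (nm1 (by
          rw [htc, hwd]
          linarith) le_rfl)) hT)
      refine sm1 (norm_nonneg _) (hL1 q) ?_ hη hB (add_nonneg (tr1 _ _ _ _ _) (lg1 _ _ _ _ _))
      rw [abs_le]
      constructor <;> linarith

theorem top_diff {e : ℝ} (he : 0 < e) : ∃ H₀ : ℝ, 1 ≤ H₀ ∧ ∀ (β H ρ η L Ca L1 : ℝ) (n i : ℕ) (F Φ : ℕ → ℕ → Xp), H₀ ≤ H →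
    0 < ρ → ρ ≤ H ^ 3 → 0 < Ca → 0 ≤ η → Ok H ρ e (wd n) → (∀ q, ‖xp (F n i) q‖ ≤ L1) → Amp β H ρ e Ca (tc (2 ^ n) i) (wd n) (F n i) →
    IsCf β H ρ e η L (tc (2 ^ n) i) (wd n) (Hs β H e n i) (Φ n i) →
    ∀ q : (ℝ × ℝ) × ℝ, ρ / 2 ≤ q.2 → q.2 ≤ 4 * ρ → ‖xp (Dt F Φ n i) q‖ ^ 6 ≤
      (4 * Ca) ^ 6 * (H ^ e) ^ 6 * (H ^ 3 / ρ) ^ 3 * (1 + lgt β (tc (2 ^ n) i) (2 * wd n) (H ^ (e - 1)) q) +
        (2 * η * L1) ^ 6 := by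
  obtain ⟨H₀, hH₀, hpk⟩ := Pool.Agent.Helper89.GS.plk_near he
  refine ⟨H₀, hH₀, ?_⟩
  intro β H ρ η L Ca L1 n i F Φ hH hρ hρH hCa hη hok hL1 hamp hp q hq1 hq2
  have hH1 : 1 ≤ H := hH₀.trans hH
  have hH0 : 0 < H := by linarith
  obtain ⟨r, h1, h2, h3, h4, h5⟩ := hp.val q
  rw [dt1 h1]
  have hB : 0 ≤ (4 * Ca) ^ 6 * (H ^ e) ^ 6 * (H ^ 3 / ρ) ^ 3 := by positivity
  by_cases hU : Tri (near β q.2 (tc (2 ^ n) i) (2 * wd n) (H ^ (e - 1)) q.1)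
  · have a2 : 1 - η ≤ r := h4 hq1 hq2 fun q' hq' =>
      tm1 (hpk β H ρ (wd n) _ q q' hH hρ hok.w0 hok.big hq1 hq').1 hU
    refine sm1 (norm_nonneg _) (hL1 q) ?_ hη hB (add_nonneg zero_le_one (lg1 _ _ _ _ _))
    rw [abs_le]
    constructor <;> linarith
  · have h6 := nb2 hH1 he hρ hρH hCa hamp hq1 hq2 hU
    have h7 : |1 - r| ≤ 1 := by
      rw [abs_le]
      constructor <;> linarith
    have h8 : (‖xp (F n i) q‖ * |1 - r|) ^ 6 ≤ ‖xp (F n i) q‖ ^ 6 := by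
      apply pow_le_pow_left₀ (by positivity)
      calc ‖xp (F n i) q‖ * |1 - r| ≤ ‖xp (F n i) q‖ * 1 := mul_le_mul_of_nonneg_left h7 (norm_nonneg _)
        _ = ‖xp (F n i) q‖ := mul_one _
    have h9 : 0 ≤ (2 * η * L1) ^ 6 := by
      have : 0 ≤ L1 := (norm_nonneg _).trans (hL1 q)
      positivity
    linarith

end Pool.Agent.Helper64.GS
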