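import Pool.Agent.Helper64.GS.D3
import Pool.Agent.Helper64.GS.Cpw
import Pool.Agent.Helper92.GC.N6
import Pool.Agent.Helper19.GS.C4

/-!
# GS-D4: the sixth moment of the difference of two levels at one window

PROOF. `n6_pw` (Cpw; `X = ρ H^(-e)`) with `f = xp (Dj ..)` (`xp_cont`), `‖f‖ ≤ 10^4 H^3` (`child_le`, `hF`), and the majorant (`child_diff`, `L1 = 10^4 H^3`)
`G q = ofReal K₁ * (1[Tri V] + g6 q) + ofReal K₂`, `K₁ = (4 Ca)^6 (H^e)^6 (H³/ρ)³`, `K₂ = (2 η 10^4 H³)^6 ≤ (2·10^4 H^(-7))^6 ≤ 10^27 H^(-42)`, where `g6 q = if 0 < q.2 ∧ 3 ≤ ncard ∧ ¬ Tri then ncard^6 else 0` in `ENNReal`.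
Measurability: `tri_meas` (Helper19.GS.C4) and `near_meas` (GC.N6: `q ↦ if 0 < q.2 then ncard else 0` is measurable; `3 ≤` and the sixth power of it). For `R ∈ [ρ/2, 4ρ]`:
`∫⁻ c in Tq, G (c, R) = ofReal K₁ (volume (Tq ∩ {Tri V}) + ∫⁻ c in Tq, ..) + ofReal K₂` (`volume Tq = 1`), so `∫⁻∫⁻ G = ofReal K₁ (J3 + L6) + ofReal (K₂ 7ρ/2)`, finite. With the natural number `n ≥ 18/e`:
`(2X/ρ)^n = (2 H^(-e))^n ≤ 2^n H^(-18)`, so the tail term of `n6_pw` is `≤ 10^24 H^18 2^n H^(-18) π (|Cd n| + |Cd (n+2)|)`, a constant. So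
`n6^3 ≤ |Cd 0| (H^e/ρ) K₁ (J3.toReal + L6.toReal) + C`, and `(H^e K₁/ρ)^(1/3) = (4 Ca)² H^(2e + e/3) (H³/ρ) ρ^(-1/3) ≤ (4Ca)² H^(3e) (H³/ρ) ρ^(-1/3)`; `(x + y + z)^(1/3) ≤ x^(1/3) + y^(1/3) + z^(1/3)`.
`top_n6`: the same with `1` in place of `1[Tri V]`: `∫∫ 1 ≤ 4ρ`, `(4ρ)^(1/3) ≤ 2 ρ^(1/3)`.
-/

open MeasureTheory Real Set Filter Topology

set_option autoImplicit false

namespace Pool.Agent.Helper64.GS

open Pool.Agent.Helper22.AE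
open Pool.Agent.Helper22.AC (n6 IsWt mu)
open Pool.Agent.Helper92.GC
open Pool.Agent.Helper76.GS
open Pool.Agent.Helper19.GS

/-- the integral of the majorant -/
private theorem maj_int {ρ K₁ K₂ : ℝ} {a g : (ℝ × ℝ) × ℝ → ENNReal} (ha : Measurable a) (hg : Measurable g) :
    ∫⁻ R in Icc (ρ / 2) (4 * ρ), ∫⁻ c in Tq, (ENNReal.ofReal K₁ * (a (c, R) + g (c, R)) + ENNReal.ofReal K₂) =
      ENNReal.ofReal K₁ * ((∫⁻ R in Icc (ρ / 2) (4 * ρ), ∫⁻ c in Tq, a (c, R)) +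
        ∫⁻ R in Icc (ρ / 2) (4 * ρ), ∫⁻ c in Tq, g (c, R)) + ENNReal.ofReal K₂ * ENNReal.ofReal (7 / 2 * ρ) := by
  have hT : volume Tq = 1 := by
    unfold Tq
    rw [Measure.volume_eq_prod, Measure.prod_prod, Real.volume_Icc]
    norm_num
  have hG : Measurable fun q : (ℝ × ℝ) × ℝ => ENNReal.ofReal K₁ * (a q + g q) + ENNReal.ofReal K₂ :=
    ((ha.add hg).const_mul _).add_const _
  have e1 := lintegral_prod_symm' (μ := (volume : Measure (ℝ × ℝ)).restrict Tq)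
    (ν := (volume : Measure ℝ).restrict (Icc (ρ / 2) (4 * ρ))) _ hG
  have e2 := lintegral_prod_symm' (μ := (volume : Measure (ℝ × ℝ)).restrict Tq)
    (ν := (volume : Measure ℝ).restrict (Icc (ρ / 2) (4 * ρ))) _ ha
  have e3 := lintegral_prod_symm' (μ := (volume : Measure (ℝ × ℝ)).restrict Tq)
    (ν := (volume : Measure ℝ).restrict (Icc (ρ / 2) (4 * ρ))) _ hg
  rw [← e1, ← e2, ← e3, lintegral_add_right _ measurable_const,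
    lintegral_const_mul (f := fun q => a q + g q) _ (ha.add hg), lintegral_add_left ha, lintegral_const]
  congr 2
  rw [← univ_prod_univ, Measure.prod_prod, Measure.restrict_apply_univ, Measure.restrict_apply_univ, hT, one_mul,
    Real.volume_Icc]
  congr 1
  ring

open Classical in
/-- the measurable version of the sixth power -/
private noncomputable def g6 (β t s d : ℝ) (q : (ℝ × ℝ) × ℝ) : ENNReal :=
  if 3 ≤ (if 0 < q.2 then ((near β q.2 t s d q.1).ncard : ENNReal) else 0) ∧ ¬ Tri (near β q.2 t s d q.1) then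
    (if 0 < q.2 then ((near β q.2 t s d q.1).ncard : ENNReal) else 0) ^ 6 else 0

private theorem g6_meas (β t s d : ℝ) : Measurable (g6 β t s d) := by
  have hm := near_meas β t s d
  have hT := tri_meas β t s d
  unfold g6
  refine Measurable.ite ?_ (hm.pow_const 6) measurable_const
  exact (measurableSet_le measurable_const hm).inter hT.compl

open Classical in
private theorem g6_if {β t s d : ℝ} {q : (ℝ × ℝ) × ℝ} (hq : 0 < q.2) :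
    g6 β t s d q = if 3 ≤ (near β q.2 t s d q.1).ncard ∧ ¬ Tri (near β q.2 t s d q.1) then
      ((near β q.2 t s d q.1).ncard : ENNReal) ^ 6 else 0 := by
  unfold g6
  rw [if_pos hq]
  have h3 : ((3 : ENNReal) ≤ ((near β q.2 t s d q.1).ncard : ENNReal)) ↔ 3 ≤ (near β q.2 t s d q.1).ncard := by
    exact_mod_cast Iff.rfl
  by_cases h : 3 ≤ (near β q.2 t s d q.1).ncard ∧ ¬ Tri (near β q.2 t s d q.1)
  · rw [if_pos h, if_pos ⟨h3.2 h.1, h.2⟩]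
  · rw [if_neg h, if_neg fun h' => h ⟨h3.1 h'.1, h'.2⟩]

private theorem g6_eq {β t s d : ℝ} {q : (ℝ × ℝ) × ℝ} (hq : 0 < q.2) :
    g6 β t s d q = ENNReal.ofReal (lgt β t s d q) := by
  rw [g6_if hq]
  unfold lgt
  by_cases h : 3 ≤ (near β q.2 t s d q.1).ncard ∧ ¬ Tri (near β q.2 t s d q.1)
  · rw [if_pos h, if_pos h, ENNReal.ofReal_pow (Nat.cast_nonneg _), ENNReal.ofReal_natCast]
  · rw [if_neg h, if_neg h, ENNReal.ofReal_zero]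

private theorem g6_L6 {β ρ t s d : ℝ} (hρ : 0 < ρ) :
    ∫⁻ R in Icc (ρ / 2) (4 * ρ), ∫⁻ c in Tq, g6 β t s d (c, R) = L6 β ρ t s d := by
  unfold L6
  refine setLIntegral_congr_fun measurableSet_Icc fun R hR => ?_
  have hR0 : 0 < R := by
    have := hR.1
    linarith
  exact lintegral_congr fun c => g6_if (q := (c, R)) hR0

private theorem ind_J {ρ : ℝ} {A : Set ((ℝ × ℝ) × ℝ)} (hA : MeasurableSet A) :
    ∫⁻ R in Icc (ρ / 2) (4 * ρ), ∫⁻ c in Tq, A.indicator (fun _ => (1 : ENNReal)) (c, R) =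
      ∫⁻ R in Icc (ρ / 2) (4 * ρ), volume (Tq ∩ {c | (c, R) ∈ A}) := by
  refine lintegral_congr fun R => ?_
  have hm : MeasurableSet {c : ℝ × ℝ | (c, R) ∈ A} := hA.preimage (by fun_prop)
  have e : (fun c : ℝ × ℝ => A.indicator (fun _ => (1 : ENNReal)) (c, R)) =
      {c : ℝ × ℝ | (c, R) ∈ A}.indicator 1 := by
    funext c
    rfl
  rw [e, lintegral_indicator_one hm, Measure.restrict_apply hm, inter_comm]

/-- the algebra of the cube roots -/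
private theorem cube_alg {N C₁ C₂ Ca P Hp ρ J L : ℝ} (hC₁ : 0 ≤ C₁) (hC₂ : 0 ≤ C₂) (hP : 1 ≤ P) (hHp : 0 ≤ Hp)
    (hρ : 0 < ρ) (hJ : 0 ≤ J) (hL : 0 ≤ L)
    (h : N ^ 3 ≤ C₁ * P / ρ * ((4 * Ca) ^ 6 * P ^ 6 * Hp ^ 3 * (J + L)) + C₂) :
    N ≤ (1 + C₁ * (4 * Ca) ^ 6 + C₂) * (P ^ 3 * Hp * ρ ^ (-(1 / 3) : ℝ) * (J ^ (1 / 3 : ℝ) + L ^ (1 / 3 : ℝ)) + 1) := by
  obtain ⟨x, hx⟩ : ∃ x, x = J ^ (1 / 3 : ℝ) := ⟨_, rfl⟩
  obtain ⟨y, hy⟩ : ∃ y, y = L ^ (1 / 3 : ℝ) := ⟨_, rfl⟩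
  obtain ⟨r, hr⟩ : ∃ r, r = ρ ^ (-(1 / 3) : ℝ) := ⟨_, rfl⟩
  have hx0 : 0 ≤ x := hx ▸ Real.rpow_nonneg hJ _
  have hy0 : 0 ≤ y := hy ▸ Real.rpow_nonneg hL _
  have hr0 : 0 < r := hr ▸ Real.rpow_pos_of_pos hρ _
  have hx3 : x ^ 3 = J := by
    rw [hx, ← Real.rpow_natCast, ← Real.rpow_mul hJ]
    norm_num
  have hy3 : y ^ 3 = L := by
    rw [hy, ← Real.rpow_natCast, ← Real.rpow_mul hL]
    norm_num
  have hr3 : r ^ 3 = 1 / ρ := by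
    rw [hr, ← Real.rpow_natCast, ← Real.rpow_mul hρ.le]
    norm_num
    rw [Real.rpow_neg_one]
  rw [← hx, ← hy, ← hr]
  obtain ⟨K, hK⟩ : ∃ K, K = 1 + C₁ * (4 * Ca) ^ 6 + C₂ := ⟨_, rfl⟩
  have hCC : 0 ≤ C₁ * (4 * Ca) ^ 6 := by positivity
  have hK1 : 1 ≤ K := by rw [hK]; linarith
  have hK3 : K ≤ K ^ 3 := le_self_pow₀ hK1 (by norm_num)
  rw [← hK]
  obtain ⟨Y, hY⟩ : ∃ Y, Y = P ^ 3 * Hp * r := ⟨_, rfl⟩
  have hP0 : 0 ≤ P := by linarith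
  have hY0 : 0 ≤ Y := by rw [hY]; positivity
  rw [← hY]
  have h1 : C₁ * P / ρ * ((4 * Ca) ^ 6 * P ^ 6 * Hp ^ 3 * (J + L)) ≤ K ^ 3 * (Y ^ 3 * (J + L)) := by
    have e1 : C₁ * P / ρ * ((4 * Ca) ^ 6 * P ^ 6 * Hp ^ 3 * (J + L)) =
        (C₁ * (4 * Ca) ^ 6) * (P ^ 7 * Hp ^ 3 * (1 / ρ) * (J + L)) := by ring
    have e2 : Y ^ 3 * (J + L) = P ^ 9 * Hp ^ 3 * (1 / ρ) * (J + L) := by
      rw [hY, ← hr3]
      ring
    rw [e1, e2]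
    refine mul_le_mul ?_ ?_ (by positivity) (by positivity)
    · refine le_trans ?_ hK3
      rw [hK]
      linarith
    · have : P ^ 7 ≤ P ^ 9 := pow_le_pow_right₀ hP (by norm_num)
      have h0 : 0 ≤ Hp ^ 3 * (1 / ρ) * (J + L) := by positivity
      nlinarith
  have h2 : C₂ ≤ K ^ 3 := by
    refine le_trans ?_ hK3
    rw [hK]
    linarith
  have h3 : N ^ 3 ≤ (K * (Y * (x + y) + 1)) ^ 3 := by
    have e3 : Y ^ 3 * (J + L) + 1 ≤ (Y * (x + y) + 1) ^ 3 := by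
      rw [← hx3, ← hy3]
      have hz : 0 ≤ Y * x := by positivity
      have hw : 0 ≤ Y * y := by positivity
      have e4 : (Y * (x + y) + 1) ^ 3 - (Y ^ 3 * (x ^ 3 + y ^ 3) + 1) = 3 * ((Y * x) ^ 2 * (Y * y)) + 3 * ((Y * x) * (Y * y) ^ 2) +
          3 * (Y * x + Y * y) ^ 2 + 3 * (Y * x + Y * y) := by ring
      have : 0 ≤ 3 * ((Y * x) ^ 2 * (Y * y)) + 3 * ((Y * x) * (Y * y) ^ 2) +
          3 * (Y * x + Y * y) ^ 2 + 3 * (Y * x + Y * y) := by positivity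
      linarith
    have hK0 : 0 ≤ K ^ 3 := by positivity
    calc N ^ 3 ≤ K ^ 3 * (Y ^ 3 * (J + L)) + K ^ 3 := by linarith
      _ = K ^ 3 * (Y ^ 3 * (J + L) + 1) := by ring
      _ ≤ K ^ 3 * (Y * (x + y) + 1) ^ 3 := mul_le_mul_of_nonneg_left e3 hK0
      _ = (K * (Y * (x + y) + 1)) ^ 3 := by ring
  have hB : 0 ≤ K * (Y * (x + y) + 1) := by positivity
  exact le_of_pow_le_pow_left₀ (by norm_num) hB h3

private theorem core_n6 {e : ℝ} (he : 0 < e) (Ca c₀ : ℝ) (hCa : 0 < Ca) (Cd : ℕ → ℝ) : ∃ C : ℝ, 0 < C ∧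
    ∀ (β H ρ R₁ η t s d : ℝ) (v : ℝ → ℝ) (a : Xp) (A : Set ((ℝ × ℝ) × ℝ)), 1 ≤ H → 2 ≤ ρ → ρ ≤ R₁ → R₁ ≤ 2 * ρ →
    H ^ e ≤ H ^ 4 → IsDw (ρ * H ^ (-e)) R₁ v c₀ Cd → 0 ≤ η → η ≤ H ^ (-10 : ℝ) →
    (∀ q, ‖xp a q‖ ≤ 10 ^ 4 * H ^ 3) → MeasurableSet A →
    (∀ q : (ℝ × ℝ) × ℝ, ρ / 2 ≤ q.2 → q.2 ≤ 4 * ρ → ‖xp a q‖ ^ 6 ≤
      (4 * Ca) ^ 6 * (H ^ e) ^ 6 * (H ^ 3 / ρ) ^ 3 * (A.indicator (fun _ => (1 : ℝ)) q + lgt β t s d q) +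
        (2 * η * (10 ^ 4 * H ^ 3)) ^ 6) →
    ∫⁻ R in Icc (ρ / 2) (4 * ρ), volume (Tq ∩ {c | (c, R) ∈ A}) ≠ ⊤ → L6 β ρ t s d ≠ ⊤ →
      n6 (mu v) (xp a) ≤ C * (H ^ (3 * e) * (H ^ 3 / ρ) * ρ ^ (-(1 / 3) : ℝ) *
        ((∫⁻ R in Icc (ρ / 2) (4 * ρ), volume (Tq ∩ {c | (c, R) ∈ A})).toReal ^ (1 / 3 : ℝ) +
          (L6 β ρ t s d).toReal ^ (1 / 3 : ℝ)) + 1) := by
  obtain ⟨n, hn⟩ : ∃ n : ℕ, 18 / e ≤ (n : ℝ) := exists_nat_ge _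
  refine ⟨1 + |Cd 0| * (4 * Ca) ^ 6 + (|Cd 0| * (7 / 2 * (64 * 10 ^ 24)) + 10 ^ 24 * (2 ^ n * (π * (|Cd n| + |Cd (n + 2)|)))),
    by positivity, ?_⟩
  intro β H ρ R₁ η t s d v a A hH hρ2 h1 h2 hHe hv hη hη2 hF hA hmaj hJ hL
  have hH0 : 0 < H := by linarith
  have hρ : 0 < ρ := by linarith
  have hX : 0 < ρ * H ^ (-e) := by positivity
  obtain ⟨K₁, hK₁⟩ : ∃ K₁, K₁ = (4 * Ca) ^ 6 * (H ^ e) ^ 6 * (H ^ 3 / ρ) ^ 3 := ⟨_, rfl⟩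
  obtain ⟨K₂, hK₂⟩ : ∃ K₂, K₂ = (2 * η * (10 ^ 4 * H ^ 3)) ^ 6 := ⟨_, rfl⟩
  have hK₁0 : 0 ≤ K₁ := by rw [hK₁]; positivity
  have hK₂0 : 0 ≤ K₂ := by rw [hK₂]; positivity
  have hind : Measurable (A.indicator (fun _ => (1 : ENNReal))) := measurable_const.indicator hA
  have hg := g6_meas β t s d
  have hG : Measurable fun q : (ℝ × ℝ) × ℝ => ENNReal.ofReal K₁ * (A.indicator (fun _ => (1 : ENNReal)) q + g6 β t s d q) +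
      ENNReal.ofReal K₂ := ((hind.add hg).const_mul _).add_const _
  have hint := maj_int (K₁ := K₁) (K₂ := K₂) (ρ := ρ) hind hg
  rw [g6_L6 hρ, ind_J hA] at hint
  obtain ⟨J, hJe⟩ : ∃ J, J = ∫⁻ R in Icc (ρ / 2) (4 * ρ), volume (Tq ∩ {c | (c, R) ∈ A}) := ⟨_, rfl⟩
  obtain ⟨L, hLe⟩ : ∃ L, L = L6 β ρ t s d := ⟨_, rfl⟩
  rw [← hJe, ← hLe] at hint
  rw [← hJe] at hJ
  rw [← hLe] at hL
  rw [← hJe, ← hLe]
  have hlg0 : ∀ q, 0 ≤ lgt β t s d q := fun q => by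
    unfold lgt
    split_ifs <;> positivity
  have hi0 : ∀ q, 0 ≤ A.indicator (fun _ => (1 : ℝ)) q := fun q => indicator_nonneg (fun _ _ => zero_le_one) q
  have hpt : ∀ q : (ℝ × ℝ) × ℝ, ρ / 2 ≤ q.2 → q.2 ≤ 4 * ρ → ENNReal.ofReal (‖xp a q‖ ^ 6) ≤
      ENNReal.ofReal K₁ * (A.indicator (fun _ => (1 : ENNReal)) q + g6 β t s d q) + ENNReal.ofReal K₂ := by
    intro q hq1 hq2
    have hq0 : 0 < q.2 := by linarith
    have h3 := ENNReal.ofReal_le_ofReal (hmaj q hq1 hq2)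
    rw [← hK₁, ← hK₂] at h3
    rw [ENNReal.ofReal_add (mul_nonneg hK₁0 (add_nonneg (hi0 q) (hlg0 q))) hK₂0, ENNReal.ofReal_mul hK₁0,
      ENNReal.ofReal_add (hi0 q) (hlg0 q)] at h3
    have h4 : ENNReal.ofReal (A.indicator (fun _ => (1 : ℝ)) q) = A.indicator (fun _ => (1 : ENNReal)) q := by
      by_cases hqA : q ∈ A
      · rw [indicator_of_mem hqA, indicator_of_mem hqA, ENNReal.ofReal_one]
      · rw [indicator_of_notMem hqA, indicator_of_notMem hqA, ENNReal.ofReal_zero]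
    rw [h4, ← g6_eq hq0] at h3
    exact h3
  have hfin : ENNReal.ofReal K₁ * (J + L) + ENNReal.ofReal K₂ * ENNReal.ofReal (7 / 2 * ρ) ≠ ⊤ :=
    ENNReal.add_ne_top.2 ⟨ENNReal.mul_ne_top ENNReal.ofReal_ne_top (ENNReal.add_ne_top.2 ⟨hJ, hL⟩),
      ENNReal.mul_ne_top ENNReal.ofReal_ne_top ENNReal.ofReal_ne_top⟩
  have key := n6_pw hX hv h1 h2 hρ (xp_cont a) hF hG hpt n (by rw [hint]; exact hfin)
  rw [hint, ENNReal.toReal_add (ENNReal.mul_ne_top ENNReal.ofReal_ne_top (ENNReal.add_ne_top.2 ⟨hJ, hL⟩))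
    (ENNReal.mul_ne_top ENNReal.ofReal_ne_top ENNReal.ofReal_ne_top), ENNReal.toReal_mul, ENNReal.toReal_mul,
    ENNReal.toReal_add hJ hL, ENNReal.toReal_ofReal hK₁0, ENNReal.toReal_ofReal hK₂0,
    ENNReal.toReal_ofReal (by positivity)] at key
  have hJ0 : 0 ≤ J.toReal := ENNReal.toReal_nonneg
  have hL0 : 0 ≤ L.toReal := ENNReal.toReal_nonneg
  have hP1 : 1 ≤ H ^ e := Real.one_le_rpow hH he.le
  have hinv : H ^ (-e) = 1 / H ^ e := by rw [Real.rpow_neg hH0.le, one_div]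
  have hP0 : 0 < H ^ e := by linarith
  have h3e : H ^ (3 * e) = (H ^ e) ^ 3 := by
    rw [← Real.rpow_natCast, ← Real.rpow_mul hH0.le]
    congr 1
    push_cast
    ring
  rw [h3e]
  refine cube_alg (abs_nonneg _) (by positivity) hP1 (by positivity) hρ hJ0 hL0 (key.trans ?_)
  have hA1 : Cd 0 / (ρ * H ^ (-e)) ≤ |Cd 0| * H ^ e / ρ := by
    rw [hinv]
    have : Cd 0 / (ρ * (1 / H ^ e)) = Cd 0 * H ^ e / ρ := by
      field_simp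
    rw [this]
    exact div_le_div_of_nonneg_right (mul_le_mul_of_nonneg_right (le_abs_self _) hP0.le) hρ.le
  have hS0 : 0 ≤ K₁ * (J.toReal + L.toReal) := by positivity
  have hB0 : 0 ≤ K₂ * (7 / 2 * ρ) := by positivity
  have hA2 : Cd 0 / (ρ * H ^ (-e)) * (K₁ * (J.toReal + L.toReal) + K₂ * (7 / 2 * ρ)) ≤
      |Cd 0| * H ^ e / ρ * (K₁ * (J.toReal + L.toReal)) + |Cd 0| * H ^ e / ρ * (K₂ * (7 / 2 * ρ)) := by
    rw [← mul_add]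
    exact mul_le_mul_of_nonneg_right hA1 (by positivity)
  have hH10 : H ^ (-10 : ℝ) = 1 / H ^ 10 := by
    rw [Real.rpow_neg hH0.le, one_div]
    norm_num
  have hK₂b : H ^ e * K₂ ≤ 64 * 10 ^ 24 := by
    have h3 : η * H ^ 10 ≤ 1 := by
      have := mul_le_mul_of_nonneg_right hη2 (by positivity : (0 : ℝ) ≤ H ^ 10)
      rw [hH10] at this
      refine this.trans (le_of_eq ?_)
      field_simp
    have h4 : η * H ^ 4 ≤ 1 := by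
      refine le_trans ?_ h3
      exact mul_le_mul_of_nonneg_left (pow_le_pow_right₀ hH (by norm_num)) hη
    have h5 : (η * H ^ 4) ^ 6 ≤ 1 := pow_le_one₀ (by positivity) h4
    calc H ^ e * K₂ ≤ H ^ 4 * K₂ := mul_le_mul_of_nonneg_right hHe hK₂0
      _ = 64 * 10 ^ 24 * (η ^ 6 * H ^ 22) := by rw [hK₂]; ring
      _ ≤ 64 * 10 ^ 24 * (η * H ^ 4) ^ 6 := by
        refine mul_le_mul_of_nonneg_left ?_ (by positivity)
        rw [mul_pow, ← pow_mul]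
        exact mul_le_mul_of_nonneg_left (pow_le_pow_right₀ hH (by norm_num)) (by positivity)
      _ ≤ 64 * 10 ^ 24 * 1 := mul_le_mul_of_nonneg_left h5 (by positivity)
      _ = 64 * 10 ^ 24 := mul_one _
  have hBb : |Cd 0| * H ^ e / ρ * (K₂ * (7 / 2 * ρ)) ≤ |Cd 0| * (7 / 2 * (64 * 10 ^ 24)) := by
    have e1 : |Cd 0| * H ^ e / ρ * (K₂ * (7 / 2 * ρ)) = |Cd 0| * (7 / 2 * (H ^ e * K₂)) := by
      field_simp
    rw [e1]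
    exact mul_le_mul_of_nonneg_left (mul_le_mul_of_nonneg_left hK₂b (by norm_num)) (abs_nonneg _)
  have hTb : (10 ^ 4 * H ^ 3) ^ 6 * ((2 * (ρ * H ^ (-e)) / ρ) ^ n * (π * (Cd n + Cd (n + 2)))) ≤
      10 ^ 24 * (2 ^ n * (π * (|Cd n| + |Cd (n + 2)|))) := by
    have e1 : 2 * (ρ * H ^ (-e)) / ρ = 2 * H ^ (-e) := by
      field_simp
    have e2 : (H ^ (-e)) ^ n ≤ 1 / H ^ 18 := by
      have h3 : (18 : ℝ) ≤ e * n := by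
        have := mul_le_mul_of_nonneg_left hn he.le
        rwa [mul_div_cancel₀ _ he.ne'] at this
      rw [← Real.rpow_natCast, ← Real.rpow_mul hH0.le]
      have h4 : H ^ (-e * (n : ℝ)) ≤ H ^ (-18 : ℝ) := Real.rpow_le_rpow_of_exponent_le hH (by linarith)
      refine h4.trans (le_of_eq ?_)
      rw [Real.rpow_neg hH0.le, one_div]
      congr 1
      exact_mod_cast Real.rpow_natCast H 18
    rw [e1, mul_pow 2]
    have h5 : π * (Cd n + Cd (n + 2)) ≤ π * (|Cd n| + |Cd (n + 2)|) :=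
      mul_le_mul_of_nonneg_left (add_le_add (le_abs_self _) (le_abs_self _)) Real.pi_pos.le
    have h6 : 0 ≤ π * (|Cd n| + |Cd (n + 2)|) := by positivity
    calc (10 ^ 4 * H ^ 3) ^ 6 * (2 ^ n * (H ^ (-e)) ^ n * (π * (Cd n + Cd (n + 2)))) ≤
        (10 ^ 4 * H ^ 3) ^ 6 * (2 ^ n * (H ^ (-e)) ^ n * (π * (|Cd n| + |Cd (n + 2)|))) := by
          refine mul_le_mul_of_nonneg_left (mul_le_mul_of_nonneg_left h5 (by positivity)) (by positivity)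
      _ ≤ (10 ^ 4 * H ^ 3) ^ 6 * (2 ^ n * (1 / H ^ 18) * (π * (|Cd n| + |Cd (n + 2)|))) := by
          refine mul_le_mul_of_nonneg_left (mul_le_mul_of_nonneg_right
            (mul_le_mul_of_nonneg_left e2 (by positivity)) h6) (by positivity)
      _ = 10 ^ 24 * (2 ^ n * (π * (|Cd n| + |Cd (n + 2)|))) := by
          field_simp
  have hfinal : |Cd 0| * H ^ e / ρ * (K₁ * (J.toReal + L.toReal)) =
      |Cd 0| * H ^ e / ρ * ((4 * Ca) ^ 6 * (H ^ e) ^ 6 * (H ^ 3 / ρ) ^ 3 * (J.toReal + L.toReal)) := by rw [hK₁]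
  rw [← hfinal]
  linarith

private theorem ok_He {H ρ e w : ℝ} (he : 0 < e) (hH : 1 ≤ H) (hρ3 : ρ ≤ H ^ 3) (h : Ok H ρ e w) :
    H ^ e ≤ H ^ 4 := by
  have h1 : H ^ e ≤ H ^ (10 * e) := Real.rpow_le_rpow_of_exponent_le hH (by linarith)
  refine h1.trans (h.big.trans ?_)
  have hw := h.w0
  have hw1 := h.w1
  have h2 : w ^ 2 ≤ 1 := by nlinarith
  have hH0 : 0 < H := by linarith
  calc ρ * H * w ^ 2 ≤ H ^ 3 * H * 1 := by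
        refine mul_le_mul (mul_le_mul_of_nonneg_right hρ3 hH0.le) h2 (by positivity) (by positivity)
    _ = H ^ 4 := by ring

theorem child_n6 {e : ℝ} (he : 0 < e) (Ca c₀ : ℝ) (hCa : 0 < Ca) (Cd : ℕ → ℝ) : ∃ H₀ C : ℝ, 1 ≤ H₀ ∧ 0 < C ∧
    ∀ (β H ρ R₁ η L : ℝ) (v : ℝ → ℝ) (n j : ℕ) (F Φ : ℕ → ℕ → Xp), |β| ≤ 1 / 2 → H₀ ≤ H → 2 ≤ ρ → ρ ≤ H ^ 3 → ρ ≤ R₁ → R₁ ≤ 2 * ρ →
    IsDw (ρ * H ^ (-e)) R₁ v c₀ Cd → 0 ≤ η → η ≤ H ^ (-10 : ℝ) → Ok H ρ e (wd n) → Ok H ρ e (wd (n + 1)) →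
    (∀ q, ‖xp (F (n + 1) j) q‖ ≤ 10 ^ 4 * H ^ 3) →
    Amp β H ρ e Ca (tc (2 ^ (n + 1)) j) (wd (n + 1)) (F (n + 1) j) →
    IsCf β H ρ e η L (tc (2 ^ n) (j / 2)) (wd n) (Hs β H e n (j / 2)) (Φ n (j / 2)) →
    IsCf β H ρ e η L (tc (2 ^ (n + 1)) j) (wd (n + 1)) (Hs β H e (n + 1) j) (Φ (n + 1) j) →
    J3 β ρ (tc (2 ^ n) (j / 2)) (4 * wd n) (H ^ (5 * e - 1)) ≠ ⊤ → L6 β ρ (tc (2 ^ (n + 1)) j) (2 * wd (n + 1)) (H ^ (e - 1)) ≠ ⊤ →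
      n6 (mu v) (xp (Dj F Φ n j)) ≤ C * (H ^ (3 * e) * (H ^ 3 / ρ) * ρ ^ (-(1 / 3) : ℝ) *
        ((J3 β ρ (tc (2 ^ n) (j / 2)) (4 * wd n) (H ^ (5 * e - 1))).toReal ^ (1 / 3 : ℝ) +
          (L6 β ρ (tc (2 ^ (n + 1)) j) (2 * wd (n + 1)) (H ^ (e - 1))).toReal ^ (1 / 3 : ℝ)) + 1) := by
  obtain ⟨H₀, hH₀, hdiff⟩ := child_diff he
  obtain ⟨C, hC, hcore⟩ := core_n6 he Ca c₀ hCa Cd
  refine ⟨H₀, C, hH₀, hC, ?_⟩
  intro β H ρ R₁ η L v n j F Φ _ hH hρ2 hρ3 h1 h2 hv hη hη2 hok hok' hF hamp hp hc hJ hL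
  have hρ : 0 < ρ := by linarith
  have hH1 : 1 ≤ H := hH₀.trans hH
  refine hcore β H ρ R₁ η (tc (2 ^ (n + 1)) j) (2 * wd (n + 1)) (H ^ (e - 1)) v (Dj F Φ n j)
    {q | Tri (near β q.2 (tc (2 ^ n) (j / 2)) (4 * wd n) (H ^ (5 * e - 1)) q.1)} hH1 hρ2 h1 h2
    (ok_He he hH1 hρ3 hok) hv hη hη2 (fun q => (child_le hp hc q).trans (hF q)) (tri_meas _ _ _ _) ?_ hJ hL
  intro q hq1 hq2
  have h3 := hdiff β H ρ η L Ca (10 ^ 4 * H ^ 3) n j F Φ hH hρ hρ3 hCa hη hok hok' hF hamp hp hc q hq1 hq2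
  have h4 : tri1 β (tc (2 ^ n) (j / 2)) (4 * wd n) (H ^ (5 * e - 1)) q =
      {q : (ℝ × ℝ) × ℝ | Tri (near β q.2 (tc (2 ^ n) (j / 2)) (4 * wd n) (H ^ (5 * e - 1)) q.1)}.indicator
        (fun _ => (1 : ℝ)) q := by
    unfold tri1
    by_cases hT : Tri (near β q.2 (tc (2 ^ n) (j / 2)) (4 * wd n) (H ^ (5 * e - 1)) q.1)
    · have hm : q ∈ {q : (ℝ × ℝ) × ℝ | Tri (near β q.2 (tc (2 ^ n) (j / 2)) (4 * wd n) (H ^ (5 * e - 1)) q.1)} := hT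
      rw [if_pos hT, indicator_of_mem hm]
    · have hm : q ∉ {q : (ℝ × ℝ) × ℝ | Tri (near β q.2 (tc (2 ^ n) (j / 2)) (4 * wd n) (H ^ (5 * e - 1)) q.1)} := hT
      rw [if_neg hT, indicator_of_notMem hm]
  rw [h4] at h3
  exact h3

theorem top_n6 {e : ℝ} (he : 0 < e) (Ca c₀ : ℝ) (hCa : 0 < Ca) (Cd : ℕ → ℝ) : ∃ H₀ C : ℝ, 1 ≤ H₀ ∧ 0 < C ∧
    ∀ (β H ρ R₁ η L : ℝ) (v : ℝ → ℝ) (n i : ℕ) (F Φ : ℕ → ℕ → Xp), |β| ≤ 1 / 2 → H₀ ≤ H → 2 ≤ ρ → ρ ≤ H ^ 3 → ρ ≤ R₁ → R₁ ≤ 2 * ρ →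
    IsDw (ρ * H ^ (-e)) R₁ v c₀ Cd → 0 ≤ η → η ≤ H ^ (-10 : ℝ) → Ok H ρ e (wd n) →
    (∀ q, ‖xp (F n i) q‖ ≤ 10 ^ 4 * H ^ 3) → Amp β H ρ e Ca (tc (2 ^ n) i) (wd n) (F n i) →
    IsCf β H ρ e η L (tc (2 ^ n) i) (wd n) (Hs β H e n i) (Φ n i) →
    L6 β ρ (tc (2 ^ n) i) (2 * wd n) (H ^ (e - 1)) ≠ ⊤ →
      n6 (mu v) (xp (Dt F Φ n i)) ≤ C * (H ^ (3 * e) * (H ^ 3 / ρ) * ρ ^ (-(1 / 3) : ℝ) *
        (ρ ^ (1 / 3 : ℝ) + (L6 β ρ (tc (2 ^ n) i) (2 * wd n) (H ^ (e - 1))).toReal ^ (1 / 3 : ℝ)) + 1) := by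
  obtain ⟨H₀, hH₀, hdiff⟩ := top_diff he
  obtain ⟨C, hC, hcore⟩ := core_n6 he Ca c₀ hCa Cd
  refine ⟨H₀, 2 * C, hH₀, by linarith, ?_⟩
  intro β H ρ R₁ η L v n i F Φ _ hH hρ2 hρ3 h1 h2 hv hη hη2 hok hF hamp hp hL
  have hρ : 0 < ρ := by linarith
  have hH1 : 1 ≤ H := hH₀.trans hH
  have hH0 : 0 < H := by linarith
  have hT : volume Tq = 1 := by
    unfold Tq
    rw [Measure.volume_eq_prod, Measure.prod_prod, Real.volume_Icc]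
    norm_num
  have hJe : ∫⁻ R in Icc (ρ / 2) (4 * ρ), volume (Tq ∩ {c | (c, R) ∈ (univ : Set ((ℝ × ℝ) × ℝ))}) =
      ENNReal.ofReal (7 / 2 * ρ) := by
    have : ∀ R : ℝ, volume (Tq ∩ {c | (c, R) ∈ (univ : Set ((ℝ × ℝ) × ℝ))}) = 1 := fun R => by
      have e1 : Tq ∩ {c | (c, R) ∈ (univ : Set ((ℝ × ℝ) × ℝ))} = Tq := by
        ext c
        simp
      rw [e1, hT]
    simp only [this]
    rw [setLIntegral_const, one_mul, Real.volume_Icc]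
    congr 1
    ring
  have hJ : ∫⁻ R in Icc (ρ / 2) (4 * ρ), volume (Tq ∩ {c | (c, R) ∈ (univ : Set ((ℝ × ℝ) × ℝ))}) ≠ ⊤ := by
    rw [hJe]
    exact ENNReal.ofReal_ne_top
  have key := hcore β H ρ R₁ η (tc (2 ^ n) i) (2 * wd n) (H ^ (e - 1)) v (Dt F Φ n i) univ hH1 hρ2 h1 h2
    (ok_He he hH1 hρ3 hok) hv hη hη2 (fun q => (top_le hp q).trans (hF q)) MeasurableSet.univ (fun q hq1 hq2 => by
      have h3 := hdiff β H ρ η L Ca (10 ^ 4 * H ^ 3) n i F Φ hH hρ hρ3 hCa hη hok hF hamp hp q hq1 hq2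
      rw [indicator_univ]
      exact h3) hJ hL
  rw [hJe, ENNReal.toReal_ofReal (by positivity)] at key
  refine key.trans ?_
  have hr : (7 / 2 * ρ) ^ (1 / 3 : ℝ) ≤ 2 * ρ ^ (1 / 3 : ℝ) := by
    have h3 : (7 / 2 * ρ) ^ (1 / 3 : ℝ) ≤ (8 * ρ) ^ (1 / 3 : ℝ) :=
      Real.rpow_le_rpow (by positivity) (by linarith) (by norm_num)
    refine h3.trans (le_of_eq ?_)
    rw [Real.mul_rpow (by norm_num) hρ.le]
    congr 1
    rw [show (8 : ℝ) = 2 ^ (3 : ℝ) by norm_num, ← Real.rpow_mul (by norm_num)]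
    norm_num
  obtain ⟨Y, hY⟩ : ∃ Y, Y = H ^ (3 * e) * (H ^ 3 / ρ) * ρ ^ (-(1 / 3) : ℝ) := ⟨_, rfl⟩
  have hY0 : 0 ≤ Y := by rw [hY]; positivity
  rw [← hY]
  have hl0 : 0 ≤ (L6 β ρ (tc (2 ^ n) i) (2 * wd n) (H ^ (e - 1))).toReal ^ (1 / 3 : ℝ) :=
    Real.rpow_nonneg ENNReal.toReal_nonneg _
  rw [mul_comm 2 C, mul_assoc]
  refine mul_le_mul_of_nonneg_left ?_ hC.le
  have h5 := mul_le_mul_of_nonneg_left hr hY0
  have h6 := mul_nonneg hY0 hl0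
  nlinarith

end Pool.Agent.Helper64.GS
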