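import Pool.Agent.Helper64.GS.D5a
import Pool.Agent.Helper64.GS.D4

/-!
# GS, D5: the sum over the windows of one level
-/

open MeasureTheory Real Set Filter Topology

set_option autoImplicit false

namespace Pool.Agent.Helper64.GS

open Pool.Agent.Helper22.AE
open Pool.Agent.Helper22.AC (n6 IsWt mu)
open Pool.Agent.Helper92.GC
open Pool.Agent.Helper76.GS
open Pool.Agent.Helper19.GS

private theorem sum_half (f : ℕ → ℝ) (N : ℕ) :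
    ∑ j ∈ Finset.range (2 * N), f (j / 2) = 2 * ∑ i ∈ Finset.range N, f i := by
  induction N with
  | zero => simp
  | succ N ih =>
    rw [show 2 * (N + 1) = 2 * N + 1 + 1 by ring, Finset.sum_range_succ, Finset.sum_range_succ, ih, Finset.sum_range_succ,
      show (2 * N + 1) / 2 = N by omega, show (2 * N) / 2 = N by omega]
    ring

private theorem log_rpow {e : ℝ} (he : 0 < e) {H ρ : ℝ} (hH : 1 ≤ H) (hρ : 1 ≤ ρ) (hρ3 : ρ ≤ H ^ 3) :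
    1 + log ρ ≤ (1 + 3 / e) * H ^ e := by
  have hH0 : 0 < H := by linarith
  have h1 : log ρ ≤ log (H ^ 3) := Real.log_le_log (by linarith) hρ3
  rw [Real.log_pow] at h1
  have h2 : log H ≤ H ^ e / e := Real.log_le_rpow_div hH0.le he
  have h3 : 1 ≤ H ^ e := Real.one_le_rpow hH he.le
  push_cast at h1
  have h4 : log ρ ≤ 3 * (H ^ e / e) := by linarith
  calc 1 + log ρ ≤ H ^ e + 3 * (H ^ e / e) := by linarith
    _ = _ := by ring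

/-- the hypotheses of the level sums which do not depend on the level -/
structure Bas (β H ρ e R₁ σ c₀ : ℝ) (Cd : ℕ → ℝ) (v : ℝ → ℝ) : Prop where
  hβ : |β| ≤ 1 / 2
  hρ : 2 ≤ ρ
  hρ3 : ρ ≤ H ^ 3
  hR1 : ρ ≤ R₁
  hR2 : R₁ ≤ 2 * ρ
  hv : IsDw (ρ * H ^ (-e)) R₁ v c₀ Cd
  hσ : 0 < σ
  hσ1 : σ ≤ 1

theorem level_sum {e : ℝ} (he : 0 < e) (he1 : e ≤ 1 / 1000) (p : ℕ) (Ca c₀ : ℝ) (hCa : 0 < Ca) (Cd : ℕ → ℝ) :
    ∃ H₀ C : ℝ, 1 ≤ H₀ ∧ 0 < C ∧ ∀ (β H ρ R₁ η L σ : ℝ) (v : ℝ → ℝ) (n : ℕ) (Φ : ℕ → ℕ → Xp), H₀ ≤ H →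
    Bas β H ρ e R₁ σ c₀ Cd v → 0 ≤ η → η ≤ H ^ (-10 : ℝ) → Ok H ρ e (wd n) → Ok H ρ e (wd (n + 1)) →
    σ * H ^ e ≤ wd (n + 1) → H ^ (e - 1) ≤ 1 / 1000 →
    (∀ j < 2 ^ (n + 1), Amp β H ρ e Ca (tc (2 ^ (n + 1)) j) (wd (n + 1)) (Fw β H e σ p (2 ^ (n + 1)) j)) →
    (∀ i < 2 ^ n, IsCf β H ρ e η L (tc (2 ^ n) i) (wd n) (Hs β H e n i) (Φ n i)) →
    (∀ j < 2 ^ (n + 1), IsCf β H ρ e η L (tc (2 ^ (n + 1)) j) (wd (n + 1)) (Hs β H e (n + 1) j) (Φ (n + 1) j)) →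
      ∑ j ∈ Finset.range (2 ^ (n + 1)), n6 (mu v) (xp (Dj (fun n i => Fw β H e σ p (2 ^ n) i) Φ n j)) ≤
        C * H ^ (10 * e) * H ^ 2 := by
  classical
  obtain ⟨H₁, C₁, hH₁, hC₁, h₁⟩ := child_n6 he Ca c₀ hCa Cd
  obtain ⟨C₂, hC₂, h₂⟩ := tri_level
  obtain ⟨C₃, hC₃, h₃⟩ := light_level
  obtain ⟨C₄, hC₄, h₄⟩ := Fw_dir he (by linarith)
  refine ⟨H₁, C₄ + C₁ * (2 * C₂ * (1 + 3 / e) + C₃ + 10 ^ 4), hH₁, by positivity, ?_⟩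
  intro β H ρ R₁ η L σ v n Φ hH hb hη hη1 hok hok' hσw hd1 hamp hcf hcf'
  set F : ℕ → ℕ → Xp := fun n i => Fw β H e σ p (2 ^ n) i with hF
  have hH1 : 1 ≤ H := hH₁.trans hH
  have hH0 : 0 < H := by linarith
  have hρ1 : 1 ≤ ρ := by linarith [hb.hρ]
  have hρ0 : 0 < ρ := by linarith
  have hw := wd_pos n
  have hw' := wd_pos (n + 1)
  have hN : 1 ≤ 2 ^ (n + 1) := Nat.one_le_two_pow
  have hhalf : ∀ j, j < 2 ^ (n + 1) → j / 2 < 2 ^ n := by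
    intro j hj
    rw [pow_succ] at hj
    omega
  set J : Finset ℕ := (Finset.range (2 ^ (n + 1))).filter (fun j => DirT β (wd (n + 1)) (H ^ (e - 1)) (tc (2 ^ (n + 1)) j)) with hJ
  set K : Finset ℕ := (Finset.range (2 ^ (n + 1))).filter (fun j => ¬ DirT β (wd (n + 1)) (H ^ (e - 1)) (tc (2 ^ (n + 1)) j)) with hK
  rw [← Finset.sum_filter_add_sum_filter_not (Finset.range (2 ^ (n + 1)))
    (fun j => DirT β (wd (n + 1)) (H ^ (e - 1)) (tc (2 ^ (n + 1)) j)), ← hJ, ← hK]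
  have hJm : ∀ j ∈ J, j < 2 ^ (n + 1) ∧ DirT β (wd (n + 1)) (H ^ (e - 1)) (tc (2 ^ (n + 1)) j) := by
    intro j hj
    rw [hJ, Finset.mem_filter, Finset.mem_range] at hj
    exact hj
  have hKm : ∀ j ∈ K, j < 2 ^ (n + 1) ∧ ¬ DirT β (wd (n + 1)) (H ^ (e - 1)) (tc (2 ^ (n + 1)) j) := by
    intro j hj
    rw [hK, Finset.mem_filter, Finset.mem_range] at hj
    exact hj
  have hNw : 12 / ((2 ^ (n + 1) : ℕ) : ℝ) = wd (n + 1) := rfl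
  -- windows of direction type
  have part1 : ∑ j ∈ J, n6 (mu v) (xp (Dj F Φ n j)) ≤ C₄ * H ^ (10 * e) * H ^ 2 := by
    have h5 : ∑ j ∈ J, n6 (mu v) (xp (Dj F Φ n j)) ≤ ∑ j ∈ J, n6 (mu v) (xp (Fw β H e σ p (2 ^ (n + 1)) j)) := by
      refine Finset.sum_le_sum fun j hj => ?_
      obtain ⟨hj1, -⟩ := hJm j hj
      exact n6_mono_xp hb.hv.wt (child_le (hcf _ (hhalf j hj1)) (hcf' j hj1))
    refine h5.trans (h₄ β H σ (ρ * H ^ (-e)) v p (2 ^ (n + 1)) J hb.hβ hH1 hb.hσ hb.hσ1 hb.hv.wt hN ?_ ?_ hd1 ?_ ?_)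
    · have h6 := hok'.num
      have e1 : 12 / wd (n + 1) = ((2 ^ (n + 1) : ℕ) : ℝ) := by
        unfold wd
        field_simp
      rwa [e1] at h6
    · rw [hNw]
      linarith [hok'.w1]
    · rw [hNw]
      exact hσw
    · rw [hNw]
      exact hJm
  -- the other windows
  obtain ⟨t1, t2⟩ := h₂ β H ρ e n hb.hβ hH1 hρ1 hok
  obtain ⟨l1', l2⟩ := h₃ β H ρ e (n + 1) K hb.hβ hH1 hρ1 hok' hKm
  set x : ℕ → ℝ := fun i => (J3 β ρ (tc (2 ^ n) i) (4 * wd n) (H ^ (5 * e - 1))).toReal ^ (1 / 3 : ℝ) with hx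
  set y : ℕ → ℝ := fun j => (L6 β ρ (tc (2 ^ (n + 1)) j) (2 * wd (n + 1)) (H ^ (e - 1))).toReal ^ (1 / 3 : ℝ) with hy
  have hx0 : ∀ i, 0 ≤ x i := fun i => Real.rpow_nonneg ENNReal.toReal_nonneg _
  have hy0 : ∀ i, 0 ≤ y i := fun i => Real.rpow_nonneg ENNReal.toReal_nonneg _
  have part2 : ∀ j ∈ K, n6 (mu v) (xp (Dj F Φ n j)) ≤
      C₁ * (H ^ (3 * e) * (H ^ 3 / ρ) * ρ ^ (-(1 / 3) : ℝ) * (x (j / 2) + y j) + 1) := by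
    intro j hj
    obtain ⟨hj1, -⟩ := hKm j hj
    exact h₁ β H ρ R₁ η L v n j F Φ hb.hβ hH hb.hρ hb.hρ3 hb.hR1 hb.hR2 hb.hv hη hη1 hok hok'
      (fun q => (xp_norm_le _ q).trans (Fw_l1 he (by linarith) hH1 hb.hσ p hN j)) (hamp j hj1) (hcf _ (hhalf j hj1)) (hcf' j hj1)
      (t1 _ (hhalf j hj1)) (l1' j hj)
  have hcard : (K.card : ℝ) ≤ 10 ^ 4 * H ^ 2 := by
    have h6 := hok'.num
    have e1 : 12 / wd (n + 1) = ((2 ^ (n + 1) : ℕ) : ℝ) := by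
      unfold wd
      field_simp
    rw [e1] at h6
    refine le_trans ?_ h6
    have h7 : K.card ≤ 2 ^ (n + 1) := by
      refine (Finset.card_filter_le _ _).trans ?_
      rw [Finset.card_range]
    exact_mod_cast h7
  have hxs : ∑ j ∈ K, x (j / 2) ≤ 2 * (C₂ * ((1 + log ρ) * (H ^ (5 * e - 1) * ρ ^ (4 / 3 : ℝ)))) := by
    calc ∑ j ∈ K, x (j / 2) ≤ ∑ j ∈ Finset.range (2 ^ (n + 1)), x (j / 2) :=
          Finset.sum_le_sum_of_subset_of_nonneg (Finset.filter_subset _ _) fun j _ _ => hx0 _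
      _ = 2 * ∑ i ∈ Finset.range (2 ^ n), x i := by
          rw [show 2 ^ (n + 1) = 2 * 2 ^ n by ring]
          exact sum_half x (2 ^ n)
      _ ≤ _ := mul_le_mul_of_nonneg_left t2 (by norm_num)
  have hlog := log_rpow he hH1 hρ1 hb.hρ3
  have hlog0 : 0 ≤ log ρ := Real.log_nonneg hρ1
  have p1 : (1 : ℝ) ≤ H ^ (10 * e) := Real.one_le_rpow hH1 (by linarith)
  -- the first main term
  have q1 : H ^ (3 * e) * (H ^ 3 / ρ) * ρ ^ (-(1 / 3) : ℝ) * (2 * (C₂ * ((1 + log ρ) * (H ^ (5 * e - 1) * ρ ^ (4 / 3 : ℝ))))) ≤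
      2 * C₂ * (1 + 3 / e) * (H ^ (10 * e) * H ^ 2) := by
    have e1 : ρ ^ (-(1 / 3) : ℝ) * ρ ^ (4 / 3 : ℝ) = ρ := by
      rw [← Real.rpow_add hρ0]
      norm_num
    have e2 : H ^ (3 * e) * (H ^ 3) * H ^ (5 * e - 1) = H ^ (8 * e) * H ^ 2 := by
      rw [← Real.rpow_natCast H 3, ← Real.rpow_natCast H 2, ← Real.rpow_add hH0, ← Real.rpow_add hH0, ← Real.rpow_add hH0]
      congr 1
      push_cast
      ring
    have e3 : H ^ (3 * e) * (H ^ 3 / ρ) * ρ ^ (-(1 / 3) : ℝ) * (2 * (C₂ * ((1 + log ρ) * (H ^ (5 * e - 1) * ρ ^ (4 / 3 : ℝ))))) =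
        2 * C₂ * (1 + log ρ) * ((H ^ (3 * e) * (H ^ 3) * H ^ (5 * e - 1)) * ((ρ ^ (-(1 / 3) : ℝ) * ρ ^ (4 / 3 : ℝ)) / ρ)) := by
      ring
    rw [e3, e1, e2, div_self hρ0.ne', mul_one]
    have e4 : H ^ e * H ^ (8 * e) ≤ H ^ (10 * e) := by
      rw [← Real.rpow_add hH0]
      exact Real.rpow_le_rpow_of_exponent_le hH1 (by linarith)
    calc 2 * C₂ * (1 + log ρ) * (H ^ (8 * e) * H ^ 2) ≤ 2 * C₂ * ((1 + 3 / e) * H ^ e) * (H ^ (8 * e) * H ^ 2) := by gcongr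
      _ = 2 * C₂ * (1 + 3 / e) * ((H ^ e * H ^ (8 * e)) * H ^ 2) := by ring
      _ ≤ _ := by gcongr
  -- the second main term
  have q2 : H ^ (3 * e) * (H ^ 3 / ρ) * ρ ^ (-(1 / 3) : ℝ) * (C₃ * (H ^ (e - 1) * ρ) ^ (3 / 2 : ℝ)) ≤ C₃ * (H ^ (10 * e) * H ^ 2) := by
    have e1 : (H ^ (e - 1) * ρ) ^ (3 / 2 : ℝ) = H ^ ((e - 1) * (3 / 2)) * ρ ^ (3 / 2 : ℝ) := by
      rw [Real.mul_rpow (by positivity) hρ0.le, ← Real.rpow_mul hH0.le]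
    have e2 : ρ ^ (3 / 2 : ℝ) = ρ * ρ ^ (1 / 2 : ℝ) := by
      rw [show (3 / 2 : ℝ) = 1 + 1 / 2 by norm_num, Real.rpow_add hρ0, Real.rpow_one]
    have e3 : ρ ^ (-(1 / 3) : ℝ) * ρ ^ (1 / 2 : ℝ) = ρ ^ (1 / 6 : ℝ) := by
      rw [← Real.rpow_add hρ0]
      norm_num
    have e4 : ρ ^ (1 / 6 : ℝ) ≤ H ^ (1 / 2 : ℝ) := by
      calc ρ ^ (1 / 6 : ℝ) ≤ (H ^ 3) ^ (1 / 6 : ℝ) := Real.rpow_le_rpow hρ0.le hb.hρ3 (by norm_num)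
        _ = H ^ (1 / 2 : ℝ) := by
          rw [← Real.rpow_natCast, ← Real.rpow_mul hH0.le]
          norm_num
    have e5 : H ^ (3 * e) * (H ^ 3 / ρ) * ρ ^ (-(1 / 3) : ℝ) * (C₃ * (H ^ (e - 1) * ρ) ^ (3 / 2 : ℝ)) =
        C₃ * (H ^ (3 * e) * H ^ 3 * H ^ ((e - 1) * (3 / 2))) * (ρ ^ (-(1 / 3) : ℝ) * ρ ^ (1 / 2 : ℝ)) := by
      rw [e1, e2]
      field_simp
    rw [e5, e3]
    have e6 : H ^ (3 * e) * H ^ 3 * H ^ ((e - 1) * (3 / 2)) * H ^ (1 / 2 : ℝ) ≤ H ^ (10 * e) * H ^ 2 := by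
      rw [← Real.rpow_natCast H 3, ← Real.rpow_natCast H 2, ← Real.rpow_add hH0, ← Real.rpow_add hH0, ← Real.rpow_add hH0,
        ← Real.rpow_add hH0]
      apply Real.rpow_le_rpow_of_exponent_le hH1
      push_cast
      linarith
    calc C₃ * (H ^ (3 * e) * H ^ 3 * H ^ ((e - 1) * (3 / 2))) * ρ ^ (1 / 6 : ℝ) ≤
          C₃ * (H ^ (3 * e) * H ^ 3 * H ^ ((e - 1) * (3 / 2))) * H ^ (1 / 2 : ℝ) := by gcongr
      _ = C₃ * (H ^ (3 * e) * H ^ 3 * H ^ ((e - 1) * (3 / 2)) * H ^ (1 / 2 : ℝ)) := by ring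
      _ ≤ _ := by gcongr
  have part3 : ∑ j ∈ K, n6 (mu v) (xp (Dj F Φ n j)) ≤
      C₁ * (2 * C₂ * (1 + 3 / e) + C₃ + 10 ^ 4) * H ^ (10 * e) * H ^ 2 := by
    set P : ℝ := H ^ (3 * e) * (H ^ 3 / ρ) * ρ ^ (-(1 / 3) : ℝ) with hP
    have hP0 : 0 ≤ P := by positivity
    calc ∑ j ∈ K, n6 (mu v) (xp (Dj F Φ n j)) ≤ ∑ j ∈ K, C₁ * (P * (x (j / 2) + y j) + 1) := Finset.sum_le_sum part2
      _ = C₁ * (P * (∑ j ∈ K, x (j / 2)) + P * (∑ j ∈ K, y j) + K.card) := by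
          rw [← Finset.mul_sum, Finset.sum_add_distrib, ← Finset.mul_sum, Finset.sum_add_distrib, Finset.sum_const, nsmul_eq_mul]
          ring
      _ ≤ C₁ * (P * (2 * (C₂ * ((1 + log ρ) * (H ^ (5 * e - 1) * ρ ^ (4 / 3 : ℝ))))) +
            P * (C₃ * (H ^ (e - 1) * ρ) ^ (3 / 2 : ℝ)) + 10 ^ 4 * H ^ 2) := by gcongr
      _ ≤ C₁ * (2 * C₂ * (1 + 3 / e) * (H ^ (10 * e) * H ^ 2) + C₃ * (H ^ (10 * e) * H ^ 2) + 10 ^ 4 * (H ^ (10 * e) * H ^ 2)) := by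
          have hh : H ^ 2 ≤ H ^ (10 * e) * H ^ 2 := le_mul_of_one_le_left (by positivity) p1
          gcongr
      _ = _ := by ring
  calc ∑ j ∈ J, n6 (mu v) (xp (Dj F Φ n j)) + ∑ j ∈ K, n6 (mu v) (xp (Dj F Φ n j)) ≤
        C₄ * H ^ (10 * e) * H ^ 2 + C₁ * (2 * C₂ * (1 + 3 / e) + C₃ + 10 ^ 4) * H ^ (10 * e) * H ^ 2 := add_le_add part1 part3
    _ = _ := by ring

theorem top_sum {e : ℝ} (he : 0 < e) (he1 : e ≤ 1 / 1000) (p : ℕ) (Ca c₀ : ℝ) (hCa : 0 < Ca) (Cd : ℕ → ℝ) :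
    ∃ H₀ C : ℝ, 1 ≤ H₀ ∧ 0 < C ∧ ∀ (β H ρ R₁ η L σ : ℝ) (v : ℝ → ℝ) (n : ℕ) (Φ : ℕ → ℕ → Xp), H₀ ≤ H →
    Bas β H ρ e R₁ σ c₀ Cd v → 0 ≤ η → η ≤ H ^ (-10 : ℝ) → Ok H ρ e (wd n) → (2 : ℝ) ^ n ≤ 12 * ρ * H ^ (20 * e - 1) →
    σ * H ^ e ≤ wd n → H ^ (e - 1) ≤ 1 / 1000 →
    (∀ i < 2 ^ n, Amp β H ρ e Ca (tc (2 ^ n) i) (wd n) (Fw β H e σ p (2 ^ n) i)) →
    (∀ i < 2 ^ n, IsCf β H ρ e η L (tc (2 ^ n) i) (wd n) (Hs β H e n i) (Φ n i)) →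
      ∑ i ∈ Finset.range (2 ^ n), n6 (mu v) (xp (Dt (fun n i => Fw β H e σ p (2 ^ n) i) Φ n i)) ≤
        C * H ^ (23 * e) * H ^ 2 := by
  classical
  obtain ⟨H₁, C₁, hH₁, hC₁, h₁⟩ := top_n6 he Ca c₀ hCa Cd
  obtain ⟨C₃, hC₃, h₃⟩ := light_level
  obtain ⟨C₄, hC₄, h₄⟩ := Fw_dir he (by linarith)
  refine ⟨H₁, C₄ + C₁ * (12 + C₃ + 10 ^ 4), hH₁, by positivity, ?_⟩
  intro β H ρ R₁ η L σ v n Φ hH hb hη hη1 hok htop hσw hd1 hamp hcf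
  set F : ℕ → ℕ → Xp := fun n i => Fw β H e σ p (2 ^ n) i with hF
  have hH1 : 1 ≤ H := hH₁.trans hH
  have hH0 : 0 < H := by linarith
  have hρ1 : 1 ≤ ρ := by linarith [hb.hρ]
  have hρ0 : 0 < ρ := by linarith
  have hw := wd_pos n
  have hN : 1 ≤ 2 ^ n := Nat.one_le_two_pow
  set J : Finset ℕ := (Finset.range (2 ^ n)).filter (fun j => DirT β (wd n) (H ^ (e - 1)) (tc (2 ^ n) j)) with hJ
  set K : Finset ℕ := (Finset.range (2 ^ n)).filter (fun j => ¬ DirT β (wd n) (H ^ (e - 1)) (tc (2 ^ n) j)) with hK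
  rw [← Finset.sum_filter_add_sum_filter_not (Finset.range (2 ^ n))
    (fun j => DirT β (wd n) (H ^ (e - 1)) (tc (2 ^ n) j)), ← hJ, ← hK]
  have hJm : ∀ j ∈ J, j < 2 ^ n ∧ DirT β (wd n) (H ^ (e - 1)) (tc (2 ^ n) j) := by
    intro j hj
    rw [hJ, Finset.mem_filter, Finset.mem_range] at hj
    exact hj
  have hKm : ∀ j ∈ K, j < 2 ^ n ∧ ¬ DirT β (wd n) (H ^ (e - 1)) (tc (2 ^ n) j) := by
    intro j hj
    rw [hK, Finset.mem_filter, Finset.mem_range] at hj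
    exact hj
  have hNw : 12 / ((2 ^ n : ℕ) : ℝ) = wd n := rfl
  have p1 : (1 : ℝ) ≤ H ^ (23 * e) := Real.one_le_rpow hH1 (by linarith)
  have p2 : H ^ (10 * e) ≤ H ^ (23 * e) := Real.rpow_le_rpow_of_exponent_le hH1 (by linarith)
  have part1 : ∑ j ∈ J, n6 (mu v) (xp (Dt F Φ n j)) ≤ C₄ * H ^ (23 * e) * H ^ 2 := by
    have h5 : ∑ j ∈ J, n6 (mu v) (xp (Dt F Φ n j)) ≤ ∑ j ∈ J, n6 (mu v) (xp (Fw β H e σ p (2 ^ n) j)) := by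
      refine Finset.sum_le_sum fun j hj => ?_
      obtain ⟨hj1, -⟩ := hJm j hj
      exact n6_mono_xp hb.hv.wt (top_le (hcf j hj1))
    refine (h5.trans (h₄ β H σ (ρ * H ^ (-e)) v p (2 ^ n) J hb.hβ hH1 hb.hσ hb.hσ1 hb.hv.wt hN ?_ ?_ hd1 ?_ ?_)).trans ?_
    · have h6 := hok.num
      have e1 : 12 / wd n = ((2 ^ n : ℕ) : ℝ) := by
        unfold wd
        field_simp
      rwa [e1] at h6
    · rw [hNw]
      linarith [hok.w1]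
    · rw [hNw]
      exact hσw
    · rw [hNw]
      exact hJm
    · gcongr
  obtain ⟨l1', l2⟩ := h₃ β H ρ e n K hb.hβ hH1 hρ1 hok hKm
  set y : ℕ → ℝ := fun j => (L6 β ρ (tc (2 ^ n) j) (2 * wd n) (H ^ (e - 1))).toReal ^ (1 / 3 : ℝ) with hy
  have hy0 : ∀ i, 0 ≤ y i := fun i => Real.rpow_nonneg ENNReal.toReal_nonneg _
  have part2 : ∀ j ∈ K, n6 (mu v) (xp (Dt F Φ n j)) ≤
      C₁ * (H ^ (3 * e) * (H ^ 3 / ρ) * ρ ^ (-(1 / 3) : ℝ) * (ρ ^ (1 / 3 : ℝ) + y j) + 1) := by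
    intro j hj
    obtain ⟨hj1, -⟩ := hKm j hj
    exact h₁ β H ρ R₁ η L v n j F Φ hb.hβ hH hb.hρ hb.hρ3 hb.hR1 hb.hR2 hb.hv hη hη1 hok
      (fun q => (xp_norm_le _ q).trans (Fw_l1 he (by linarith) hH1 hb.hσ p hN j)) (hamp j hj1) (hcf j hj1) (l1' j hj)
  have hcard2 : (K.card : ℝ) ≤ (2 : ℝ) ^ n := by
    have h7 : K.card ≤ 2 ^ n := by
      refine (Finset.card_filter_le _ _).trans ?_
      rw [Finset.card_range]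
    exact_mod_cast h7
  have hcard : (K.card : ℝ) ≤ 10 ^ 4 * H ^ 2 := by
    have h6 := hok.num
    have e1 : 12 / wd n = (2 : ℝ) ^ n := by
      have := wd_two n
      field_simp
      linarith
    rw [e1] at h6
    exact hcard2.trans h6
  have q1 : H ^ (3 * e) * (H ^ 3 / ρ) * ρ ^ (-(1 / 3) : ℝ) * ((K.card : ℝ) * ρ ^ (1 / 3 : ℝ)) ≤ 12 * (H ^ (23 * e) * H ^ 2) := by
    have e1 : ρ ^ (-(1 / 3) : ℝ) * ρ ^ (1 / 3 : ℝ) = 1 := by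
      rw [← Real.rpow_add hρ0]
      norm_num
    have e2 : H ^ (3 * e) * H ^ 3 * H ^ (20 * e - 1) = H ^ (23 * e) * H ^ 2 := by
      rw [← Real.rpow_natCast H 3, ← Real.rpow_natCast H 2, ← Real.rpow_add hH0, ← Real.rpow_add hH0, ← Real.rpow_add hH0]
      congr 1
      push_cast
      ring
    calc H ^ (3 * e) * (H ^ 3 / ρ) * ρ ^ (-(1 / 3) : ℝ) * ((K.card : ℝ) * ρ ^ (1 / 3 : ℝ))
        = H ^ (3 * e) * (H ^ 3 / ρ) * (K.card : ℝ) * (ρ ^ (-(1 / 3) : ℝ) * ρ ^ (1 / 3 : ℝ)) := by ring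
      _ = H ^ (3 * e) * (H ^ 3 / ρ) * (K.card : ℝ) := by rw [e1, mul_one]
      _ ≤ H ^ (3 * e) * (H ^ 3 / ρ) * (12 * ρ * H ^ (20 * e - 1)) := by
          have := hcard2.trans htop
          gcongr
      _ = 12 * (H ^ (3 * e) * H ^ 3 * H ^ (20 * e - 1)) := by
          field_simp
      _ = _ := by rw [e2]
  have q2 : H ^ (3 * e) * (H ^ 3 / ρ) * ρ ^ (-(1 / 3) : ℝ) * (C₃ * (H ^ (e - 1) * ρ) ^ (3 / 2 : ℝ)) ≤ C₃ * (H ^ (23 * e) * H ^ 2) := by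
    have e1 : (H ^ (e - 1) * ρ) ^ (3 / 2 : ℝ) = H ^ ((e - 1) * (3 / 2)) * ρ ^ (3 / 2 : ℝ) := by
      rw [Real.mul_rpow (by positivity) hρ0.le, ← Real.rpow_mul hH0.le]
    have e2 : ρ ^ (3 / 2 : ℝ) = ρ * ρ ^ (1 / 2 : ℝ) := by
      rw [show (3 / 2 : ℝ) = 1 + 1 / 2 by norm_num, Real.rpow_add hρ0, Real.rpow_one]
    have e3 : ρ ^ (-(1 / 3) : ℝ) * ρ ^ (1 / 2 : ℝ) = ρ ^ (1 / 6 : ℝ) := by
      rw [← Real.rpow_add hρ0]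
      norm_num
    have e4 : ρ ^ (1 / 6 : ℝ) ≤ H ^ (1 / 2 : ℝ) := by
      calc ρ ^ (1 / 6 : ℝ) ≤ (H ^ 3) ^ (1 / 6 : ℝ) := Real.rpow_le_rpow hρ0.le hb.hρ3 (by norm_num)
        _ = H ^ (1 / 2 : ℝ) := by
          rw [← Real.rpow_natCast, ← Real.rpow_mul hH0.le]
          norm_num
    have e5 : H ^ (3 * e) * (H ^ 3 / ρ) * ρ ^ (-(1 / 3) : ℝ) * (C₃ * (H ^ (e - 1) * ρ) ^ (3 / 2 : ℝ)) =
        C₃ * (H ^ (3 * e) * H ^ 3 * H ^ ((e - 1) * (3 / 2))) * (ρ ^ (-(1 / 3) : ℝ) * ρ ^ (1 / 2 : ℝ)) := by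
      rw [e1, e2]
      field_simp
    rw [e5, e3]
    have e6 : H ^ (3 * e) * H ^ 3 * H ^ ((e - 1) * (3 / 2)) * H ^ (1 / 2 : ℝ) ≤ H ^ (23 * e) * H ^ 2 := by
      rw [← Real.rpow_natCast H 3, ← Real.rpow_natCast H 2, ← Real.rpow_add hH0, ← Real.rpow_add hH0, ← Real.rpow_add hH0,
        ← Real.rpow_add hH0]
      apply Real.rpow_le_rpow_of_exponent_le hH1
      push_cast
      linarith
    calc C₃ * (H ^ (3 * e) * H ^ 3 * H ^ ((e - 1) * (3 / 2))) * ρ ^ (1 / 6 : ℝ) ≤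
          C₃ * (H ^ (3 * e) * H ^ 3 * H ^ ((e - 1) * (3 / 2))) * H ^ (1 / 2 : ℝ) := by gcongr
      _ = C₃ * (H ^ (3 * e) * H ^ 3 * H ^ ((e - 1) * (3 / 2)) * H ^ (1 / 2 : ℝ)) := by ring
      _ ≤ _ := by gcongr
  have part3 : ∑ j ∈ K, n6 (mu v) (xp (Dt F Φ n j)) ≤ C₁ * (12 + C₃ + 10 ^ 4) * H ^ (23 * e) * H ^ 2 := by
    set P : ℝ := H ^ (3 * e) * (H ^ 3 / ρ) * ρ ^ (-(1 / 3) : ℝ) with hP
    have hP0 : 0 ≤ P := by positivity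
    calc ∑ j ∈ K, n6 (mu v) (xp (Dt F Φ n j)) ≤ ∑ j ∈ K, C₁ * (P * (ρ ^ (1 / 3 : ℝ) + y j) + 1) := Finset.sum_le_sum part2
      _ = C₁ * (P * ((K.card : ℝ) * ρ ^ (1 / 3 : ℝ)) + P * (∑ j ∈ K, y j) + K.card) := by
          rw [← Finset.mul_sum, Finset.sum_add_distrib, ← Finset.mul_sum, Finset.sum_add_distrib, Finset.sum_const, Finset.sum_const,
            nsmul_eq_mul, nsmul_eq_mul]
          ring
      _ ≤ C₁ * (P * ((K.card : ℝ) * ρ ^ (1 / 3 : ℝ)) + P * (C₃ * (H ^ (e - 1) * ρ) ^ (3 / 2 : ℝ)) + 10 ^ 4 * H ^ 2) := by gcongr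
      _ ≤ C₁ * (12 * (H ^ (23 * e) * H ^ 2) + C₃ * (H ^ (23 * e) * H ^ 2) + 10 ^ 4 * (H ^ (23 * e) * H ^ 2)) := by
          have hh : H ^ 2 ≤ H ^ (23 * e) * H ^ 2 := le_mul_of_one_le_left (by positivity) p1
          gcongr
      _ = _ := by ring
  calc ∑ j ∈ J, n6 (mu v) (xp (Dt F Φ n j)) + ∑ j ∈ K, n6 (mu v) (xp (Dt F Φ n j)) ≤
        C₄ * H ^ (23 * e) * H ^ 2 + C₁ * (12 + C₃ + 10 ^ 4) * H ^ (23 * e) * H ^ 2 := add_le_add part1 part3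
    _ = _ := by ring

end Pool.Agent.Helper64.GS
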