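import Pool.Agent.Helper64.GS.D0
import Pool.Agent.Helper76.GS.B5
import Pool.Agent.Helper19.GS.C4
import Pool.Agent.Helper19.GS.C6
import Pool.Agent.Helper22.AC.B1

/-!
# GS, D5a: the total counts at one level
-/

open MeasureTheory Real Set Filter Topology

set_option autoImplicit false

namespace Pool.Agent.Helper64.GS

open Pool.Agent.Helper22.AE
open Pool.Agent.Helper22.AC (n6 IsWt mu)
open Pool.Agent.Helper92.GC
open Pool.Agent.Helper76.GS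
open Pool.Agent.Helper19.GS

theorem n6_nn {v : ℝ → ℝ} (f : (ℝ × ℝ) × ℝ → ℂ) : 0 ≤ n6 (mu v) f :=
  Real.rpow_nonneg (integral_nonneg fun q => by positivity) _

theorem n6_mono_xp {X : ℝ} {v : ℝ → ℝ} (hv : IsWt X v) {a b : Xp} (h : ∀ q, ‖xp a q‖ ≤ ‖xp b q‖) :
    n6 (mu v) (xp a) ≤ n6 (mu v) (xp b) := by
  have hp : IsProbabilityMeasure (mu v) := Pool.Agent.Helper22.AC.mu_prob hv
  have hint : ∀ a : Xp, Integrable (fun q => ‖xp a q‖ ^ 6) (mu v) := by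
    intro a
    refine Integrable.mono' (integrable_const (l1 a ^ 6)) ?_ (Filter.Eventually.of_forall fun q => ?_)
    · exact ((xp_cont a).norm.pow 6).aestronglyMeasurable
    · rw [norm_pow, norm_norm]
      exact pow_le_pow_left₀ (norm_nonneg _) (xp_norm_le a q) 6
  unfold n6
  refine Real.rpow_le_rpow (integral_nonneg fun q => by positivity) ?_ (by norm_num)
  exact integral_mono (hint a) (hint b) fun q => pow_le_pow_left₀ (norm_nonneg _) (h q) 6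

theorem tc_sub {N : ℕ} (hN : 1 ≤ N) (i j : ℕ) : tc N i - tc N j = 12 / (N : ℝ) * ((i : ℝ) - j) := by
  have hN0 : (N : ℝ) ≠ 0 := by
    have : (0 : ℝ) < N := by exact_mod_cast hN
    exact this.ne'
  unfold tc
  field_simp
  ring

theorem tc_sep {N : ℕ} (hN : 1 ≤ N) {i j : ℕ} (h : i ≠ j) : 12 / (N : ℝ) ≤ |tc N i - tc N j| := by
  have hN0 : (0 : ℝ) < N := by exact_mod_cast hN
  rw [tc_sub hN, abs_mul, abs_of_pos (by positivity)]
  have h1 : (1 : ℝ) ≤ |(i : ℝ) - j| := by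
    have h2 : (1 : ℤ) ≤ |(i : ℤ) - j| := Int.one_le_abs (by omega)
    exact_mod_cast h2
  have h2 : 0 ≤ 12 / (N : ℝ) := by positivity
  nlinarith

theorem tc_inj {N : ℕ} (hN : 1 ≤ N) : Function.Injective (tc N) := by
  intro i j h
  by_contra hne
  have h1 := tc_sep hN hne
  rw [h, sub_self, abs_zero] at h1
  have hN0 : (0 : ℝ) < N := by exact_mod_cast hN
  have : 0 < 12 / (N : ℝ) := by positivity
  linarith

private theorem rp3 {x : ℝ} (hx : 0 ≤ x) : (x ^ (1 / 3 : ℝ)) ^ 3 = x := by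
  rw [← Real.rpow_natCast, ← Real.rpow_mul hx]
  norm_num

/-- triangles: the total over the windows of one level -/
theorem tri_level : ∃ C : ℝ, 0 < C ∧ ∀ (β H ρ e : ℝ) (n : ℕ), |β| ≤ 1 / 2 → 1 ≤ H → 1 ≤ ρ → Ok H ρ e (wd n) →
    (∀ i < 2 ^ n, J3 β ρ (tc (2 ^ n) i) (4 * wd n) (H ^ (5 * e - 1)) ≠ ⊤) ∧
      ∑ i ∈ Finset.range (2 ^ n), (J3 β ρ (tc (2 ^ n) i) (4 * wd n) (H ^ (5 * e - 1))).toReal ^ (1 / 3 : ℝ) ≤
        C * ((1 + log ρ) * (H ^ (5 * e - 1) * ρ ^ (4 / 3 : ℝ))) := by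
  obtain ⟨C, hC, h⟩ := tri_total
  refine ⟨(11520 * C) ^ (1 / 3 : ℝ), by positivity, fun β H ρ e n hβ hH hρ hok => ?_⟩
  have hN : 1 ≤ 2 ^ n := Nat.one_le_two_pow
  have hw := wd_pos n
  have hH0 : 0 < H := by linarith
  have hρ0 : 0 < ρ := by linarith
  set d : ℝ := H ^ (5 * e - 1) with hd
  have hd0 : 0 < d := by positivity
  have hlog : 0 ≤ log ρ := Real.log_nonneg hρ
  have h1 := h β ρ (4 * wd n) d (wd n) ((Finset.range (2 ^ n)).image (tc (2 ^ n))) hw (by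
    intro t ht
    obtain ⟨i, hi, rfl⟩ := Finset.mem_image.1 ht
    exact hok.par4 β _ hβ (tc_abs (Finset.mem_range.1 hi))) (by
    intro t ht t' ht' hne
    obtain ⟨i, hi, rfl⟩ := Finset.mem_image.1 ht
    obtain ⟨j, hj, rfl⟩ := Finset.mem_image.1 ht'
    exact tc_sep hN (fun hij => hne (by rw [hij])))
  rw [Finset.sum_image fun i _ j _ hij => tc_inj hN hij] at h1
  change ∑ i ∈ Finset.range (2 ^ n), J3 β ρ (tc (2 ^ n) i) (4 * wd n) d ≤ _ at h1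
  have hfin : ∀ i < 2 ^ n, J3 β ρ (tc (2 ^ n) i) (4 * wd n) d ≠ ⊤ := by
    intro i hi
    refine ne_top_of_le_ne_top ?_ ((Finset.single_le_sum (fun _ _ => bot_le) (Finset.mem_range.2 hi)).trans h1)
    exact ENNReal.ofReal_ne_top
  refine ⟨hfin, ?_⟩
  set x : ℕ → ℝ := fun i => (J3 β ρ (tc (2 ^ n) i) (4 * wd n) d).toReal ^ (1 / 3 : ℝ) with hx
  have hx0 : ∀ i, 0 ≤ x i := fun i => Real.rpow_nonneg ENNReal.toReal_nonneg _
  have hx3 : ∀ i, x i ^ 3 = (J3 β ρ (tc (2 ^ n) i) (4 * wd n) d).toReal := fun i => rp3 ENNReal.toReal_nonneg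
  have h2 : ∑ i ∈ Finset.range (2 ^ n), x i ^ 3 ≤ C * (1 + 4 * wd n / wd n) * (1 + log ρ) * (d ^ 3 * ρ ^ 4 * (4 * wd n) ^ 2) := by
    simp only [hx3]
    rw [← ENNReal.toReal_sum fun i hi => hfin i (Finset.mem_range.1 hi)]
    exact ENNReal.toReal_le_of_le_ofReal (by positivity) h1
  have h4 := pow_sum_div_card_le_sum_pow (s := Finset.range (2 ^ n)) (f := x) (fun i _ => hx0 i) 2
  rw [Finset.card_range] at h4
  have h5 : (∑ i ∈ Finset.range (2 ^ n), x i) ^ 3 ≤ 11520 * C * (1 + log ρ) * (d ^ 3 * ρ ^ 4) := by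
    have hc : (0 : ℝ) < ((2 ^ n : ℕ) : ℝ) ^ 2 := by positivity
    have h6 : (∑ i ∈ Finset.range (2 ^ n), x i) ^ 3 / ((2 ^ n : ℕ) : ℝ) ^ 2 ≤
        C * (1 + 4 * wd n / wd n) * (1 + log ρ) * (d ^ 3 * ρ ^ 4 * (4 * wd n) ^ 2) := h4.trans h2
    rw [div_le_iff₀ hc] at h6
    refine h6.trans (le_of_eq ?_)
    have e1 : wd n * ((2 ^ n : ℕ) : ℝ) = 12 := by
      push_cast
      exact wd_two n
    have e2 : (wd n) ^ 2 * ((2 ^ n : ℕ) : ℝ) ^ 2 = 144 := by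
      rw [← mul_pow, e1]
      norm_num
    have e3 : 4 * wd n / wd n = 4 := by
      field_simp
    rw [e3]
    linear_combination 80 * C * (1 + log ρ) * d ^ 3 * ρ ^ 4 * e2
  have hS0 : 0 ≤ ∑ i ∈ Finset.range (2 ^ n), x i := Finset.sum_nonneg fun i _ => hx0 i
  have h7 : (∑ i ∈ Finset.range (2 ^ n), x i) ^ 3 ≤
      ((11520 * C) ^ (1 / 3 : ℝ) * ((1 + log ρ) * (d * ρ ^ (4 / 3 : ℝ)))) ^ 3 := by
    refine h5.trans ?_
    have e4 : (ρ ^ (4 / 3 : ℝ)) ^ 3 = ρ ^ 4 := by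
      rw [← Real.rpow_natCast, ← Real.rpow_mul hρ0.le, ← Real.rpow_natCast]
      norm_num
    rw [mul_pow, rp3 (by positivity), mul_pow, mul_pow, e4]
    have h8 : 1 + log ρ ≤ (1 + log ρ) ^ 3 := le_self_pow₀ (by linarith) (by norm_num)
    calc 11520 * C * (1 + log ρ) * (d ^ 3 * ρ ^ 4) ≤ 11520 * C * (1 + log ρ) ^ 3 * (d ^ 3 * ρ ^ 4) := by gcongr
      _ = _ := by ring
  exact le_of_pow_le_pow_left₀ (by norm_num) (by positivity) h7

/-- collinear clusters: the total over the windows of one level which are not of direction type -/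
theorem light_level : ∃ C : ℝ, 0 < C ∧ ∀ (β H ρ e : ℝ) (n : ℕ) (J : Finset ℕ), |β| ≤ 1 / 2 → 1 ≤ H → 1 ≤ ρ → Ok H ρ e (wd n) →
    (∀ j ∈ J, j < 2 ^ n ∧ ¬ DirT β (wd n) (H ^ (e - 1)) (tc (2 ^ n) j)) →
    (∀ j ∈ J, L6 β ρ (tc (2 ^ n) j) (2 * wd n) (H ^ (e - 1)) ≠ ⊤) ∧
      ∑ j ∈ J, (L6 β ρ (tc (2 ^ n) j) (2 * wd n) (H ^ (e - 1))).toReal ^ (1 / 3 : ℝ) ≤ C * (H ^ (e - 1) * ρ) ^ (3 / 2 : ℝ) := by
  obtain ⟨C, hC, h⟩ := light_total
  refine ⟨3 * C, by positivity, fun β H ρ e n J hβ hH hρ hok hJ => ?_⟩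
  have hN : 1 ≤ 2 ^ n := Nat.one_le_two_pow
  have hw := wd_pos n
  have hH0 : 0 < H := by linarith
  have hρ0 : 0 < ρ := by linarith
  set d : ℝ := H ^ (e - 1) with hd
  have hd0 : 0 < d := by positivity
  have h1 := h β ρ (2 * wd n) d (wd n) (J.image (tc (2 ^ n))) hw (by linarith) hρ0 hd0 (by
    intro t ht
    obtain ⟨i, hi, rfl⟩ := Finset.mem_image.1 ht
    exact hok.par2 β _ hβ (tc_abs (hJ i hi).1)) (by
    intro t ht t' ht' hne
    obtain ⟨i, hi, rfl⟩ := Finset.mem_image.1 ht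
    obtain ⟨j, hj, rfl⟩ := Finset.mem_image.1 ht'
    exact tc_sep hN (fun hij => hne (by rw [hij]))) (by
    intro t ht g hg
    obtain ⟨i, hi, rfl⟩ := Finset.mem_image.1 ht
    by_contra hcon
    push Not at hcon
    exact (hJ i hi).2 ⟨g, hg.cop, hg.pos, hcon.le, hg.close⟩)
  rw [Finset.sum_image fun i _ j _ hij => tc_inj hN hij] at h1
  have hfin3 : ∀ i ∈ J, L6 β ρ (tc (2 ^ n) i) (2 * wd n) d ^ (1 / 3 : ℝ) ≠ ⊤ := by
    intro i hi
    refine ne_top_of_le_ne_top ?_ ((Finset.single_le_sum (fun _ _ => bot_le) hi).trans h1)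
    exact ENNReal.ofReal_ne_top
  have hfin : ∀ i ∈ J, L6 β ρ (tc (2 ^ n) i) (2 * wd n) d ≠ ⊤ := by
    intro i hi hcon
    apply hfin3 i hi
    rw [hcon]
    exact ENNReal.top_rpow_of_pos (by norm_num)
  refine ⟨hfin, ?_⟩
  have e1 : 2 * wd n / wd n = 2 := by field_simp
  rw [e1] at h1
  have h2 : ∑ j ∈ J, (L6 β ρ (tc (2 ^ n) j) (2 * wd n) d).toReal ^ (1 / 3 : ℝ) =
      (∑ j ∈ J, L6 β ρ (tc (2 ^ n) j) (2 * wd n) d ^ (1 / 3 : ℝ)).toReal := by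
    rw [ENNReal.toReal_sum hfin3]
    exact Finset.sum_congr rfl fun i _ => ENNReal.toReal_rpow _ _
  rw [h2]
  refine (ENNReal.toReal_le_of_le_ofReal (by positivity) h1).trans (le_of_eq ?_)
  ring

end Pool.Agent.Helper64.GS
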