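import Pool.Agent.Helper64.GS.D5
import Pool.Agent.Helper76.GS.A8
import Pool.Agent.Helper76.GS.B4

/-!
# GS, D6: the windows of one level
-/

open MeasureTheory Real Set Filter Topology

set_option autoImplicit false

namespace Pool.Agent.Helper64.GS

open Pool.Agent.Helper22.AE
open Pool.Agent.Helper22.AC (n6 IsWt mu)
open Pool.Agent.Helper92.GC
open Pool.Agent.Helper76.GS
open Pool.Agent.Helper19.GS

theorem n6_add_xp {X : ℝ} {v : ℝ → ℝ} (hv : IsWt X v) (a b : Xp) :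
    n6 (mu v) (xp (a + b)) ≤ 4 * (n6 (mu v) (xp a) + n6 (mu v) (xp b)) := by
  have h := n6_sum_xp hv (Finset.range 2) (fun r => if r = 0 then a else b)
  simp only [Finset.sum_range_succ, Finset.sum_range_zero, Finset.card_range, if_true, zero_add, one_ne_zero, if_false] at h
  refine h.trans (le_of_eq ?_)
  push_cast
  ring

theorem n6_sub_l1 {X : ℝ} {v : ℝ → ℝ} (hv : IsWt X v) (a b : Xp) :
    n6 (mu v) (xp (a - b)) ≤ 4 * (n6 (mu v) (xp a) + l1 b ^ 2) := by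
  have h1 : a - b = a + (0 - b) := by abel
  rw [h1]
  refine (n6_add_xp hv a (0 - b)).trans ?_
  have h2 : l1 (0 - b) ≤ l1 b := by
    refine (l1_sub_le 0 b).trans (le_of_eq ?_)
    have h0 : l1 0 = 0 := by simp [l1]
    rw [h0, zero_add]
  have h3 : n6 (mu v) (xp (0 - b)) ≤ l1 b ^ 2 :=
    (n6_le_l1 hv _).trans (pow_le_pow_left₀ (l1_nonneg _) h2 2)
  linarith

theorem win_gen {e : ℝ} (he : 0 < e) (he1 : e ≤ 1 / 2000) : ∃ C : ℝ, 0 < C ∧
    ∀ (β H X : ℝ) (v : ℝ → ℝ) (N : ℕ) (D A B : ℕ → Xp) (b : ℝ), |β| ≤ 1 / 2 → 1 ≤ H → IsWt X v → 1 ≤ N → (N : ℝ) ≤ H ^ (5 / 2 : ℝ) →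
      1 / X ≤ H ^ (1 + 11 * e) * (12 / (N : ℝ)) ^ 2 → 0 ≤ b →
      (∀ j < N, D j = A j + B j ∧ Win β H (11 * e) (tc N j) (12 / (N : ℝ)) (A j) ∧ l1 (B j) ≤ b) →
        n6 (mu v) (xp (res (In5 β) (∑ j ∈ Finset.range N, D j))) ≤
          C * H ^ (220 * e) * (∑ j ∈ Finset.range N, n6 (mu v) (xp (D j)) + N * b ^ 2) + 4 * (N * b) ^ 2 := by
  obtain ⟨C, hC, h⟩ := win_dec (κ := 11 * e) (by linarith) (by linarith)
  refine ⟨16 * C, by positivity, ?_⟩
  intro β H X v N D A B b hβ hH hv hN hN1 hX hb hD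
  have hH0 : 0 < H := by linarith
  have h1 := h β H X v N A hβ hH hv hN hN1 hX (fun j hj => (hD j hj).2.1)
  have e1 : res (In5 β) (∑ j ∈ Finset.range N, D j) = res (In5 β) (∑ j ∈ Finset.range N, A j) + res (In5 β) (∑ j ∈ Finset.range N, B j) := by
    rw [← res_add, ← Finset.sum_add_distrib]
    congr 1
    exact Finset.sum_congr rfl fun j hj => (hD j (Finset.mem_range.1 hj)).1
  rw [e1]
  have h2 : l1 (res (In5 β) (∑ j ∈ Finset.range N, B j)) ≤ N * b := by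
    refine (l1_res_le _ _).trans ((l1_sum_le _ _).trans ?_)
    calc ∑ j ∈ Finset.range N, l1 (B j) ≤ ∑ _j ∈ Finset.range N, b :=
          Finset.sum_le_sum fun j hj => (hD j (Finset.mem_range.1 hj)).2.2
      _ = N * b := by rw [Finset.sum_const, Finset.card_range, nsmul_eq_mul]
  have h3 : n6 (mu v) (xp (res (In5 β) (∑ j ∈ Finset.range N, B j))) ≤ (N * b) ^ 2 :=
    (n6_le_l1 hv _).trans (pow_le_pow_left₀ (l1_nonneg _) h2 2)
  have h4 : ∑ j ∈ Finset.range N, n6 (mu v) (xp (A j)) ≤ 4 * (∑ j ∈ Finset.range N, n6 (mu v) (xp (D j)) + N * b ^ 2) := by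
    have h5 : ∀ j ∈ Finset.range N, n6 (mu v) (xp (A j)) ≤ 4 * (n6 (mu v) (xp (D j)) + b ^ 2) := by
      intro j hj
      obtain ⟨d1, -, d3⟩ := hD j (Finset.mem_range.1 hj)
      have e2 : A j = D j - B j := by rw [d1, add_sub_cancel_right]
      rw [e2]
      refine (n6_sub_l1 hv _ _).trans ?_
      have : l1 (B j) ^ 2 ≤ b ^ 2 := pow_le_pow_left₀ (l1_nonneg _) d3 2
      linarith
    refine (Finset.sum_le_sum h5).trans (le_of_eq ?_)
    rw [← Finset.mul_sum, Finset.sum_add_distrib, Finset.sum_const, Finset.card_range, nsmul_eq_mul]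
  have e3 : H ^ (20 * (11 * e)) = H ^ (220 * e) := by
    congr 1
    ring
  rw [e3] at h1
  calc n6 (mu v) (xp (res (In5 β) (∑ j ∈ Finset.range N, A j) + res (In5 β) (∑ j ∈ Finset.range N, B j))) ≤
        4 * (n6 (mu v) (xp (res (In5 β) (∑ j ∈ Finset.range N, A j))) +
          n6 (mu v) (xp (res (In5 β) (∑ j ∈ Finset.range N, B j)))) := n6_add_xp hv _ _
    _ ≤ 4 * (C * H ^ (220 * e) * (4 * (∑ j ∈ Finset.range N, n6 (mu v) (xp (D j)) + N * b ^ 2)) + (N * b) ^ 2) := by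
        have h6 := mul_le_mul_of_nonneg_left h4 (show (0 : ℝ) ≤ C * H ^ (220 * e) by positivity)
        linarith
    _ = _ := by ring

/-- a larger tolerance -/
theorem Win_mono {β H e t s s' : ℝ} {a : Xp} (hs : 0 < s) (hs' : s' ≤ 2 * s) (hs0 : 0 < s') (hH : 1 ≤ H) (he : 0 < e) (hHe : 4 ≤ H ^ e)
    (h : Win β H (10 * e) t s' a) : Win β H (11 * e) t s a := by
  intro x hx
  obtain ⟨h1, h2, h3, h4⟩ := h x hx
  have hH0 : 0 < H := by linarith
  have e1 : H ^ (11 * e) = H ^ (10 * e) * H ^ e := by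
    rw [← Real.rpow_add hH0]
    congr 1
    ring
  have e2 : H ^ (1 + 11 * e) = H ^ (1 + 10 * e) * H ^ e := by
    rw [← Real.rpow_add hH0]
    congr 1
    ring
  have p1 : 0 < H ^ (10 * e) := by positivity
  have p2 : 0 < H ^ (1 + 10 * e) := by positivity
  refine ⟨le_trans (Real.rpow_le_rpow_of_exponent_le hH (by linarith)) h1,
    h2.trans (Real.rpow_le_rpow_of_exponent_le hH (by linarith)), h3.trans ?_, h4.trans ?_⟩
  · rw [e1]
    calc H ^ (10 * e) * s' ≤ H ^ (10 * e) * (2 * s) := by gcongr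
      _ ≤ H ^ (10 * e) * (H ^ e * s) := by
          gcongr
          linarith
      _ = _ := by ring
  · rw [e2]
    calc H ^ (1 + 10 * e) * s' ^ 2 ≤ H ^ (1 + 10 * e) * (2 * s) ^ 2 := by gcongr
      _ = H ^ (1 + 10 * e) * (4 * s ^ 2) := by ring
      _ ≤ H ^ (1 + 10 * e) * (H ^ e * s ^ 2) := by gcongr
      _ = _ := by ring

theorem Win_sub {β H κ t s : ℝ} {a b : Xp} (ha : Win β H κ t s a) (hb : Win β H κ t s b) : Win β H κ t s (a - b) := by
  classical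
  intro x hx
  rcases Finset.mem_union.1 (Finsupp.support_sub hx) with h | h
  · exact ha x h
  · exact hb x h

private theorem wd_div (n : ℕ) : 12 / wd n = ((2 ^ n : ℕ) : ℝ) := by
  unfold wd
  field_simp

private theorem one_pow {H C B : ℝ} (hH : 1 ≤ H) (hC : 0 ≤ C) (hB : 0 ≤ B) : C * H ^ (-B) ≤ C := by
  have : H ^ (-B) ≤ 1 := Real.rpow_le_one_of_one_le_of_nonpos hH (by linarith)
  nlinarith

/-- the windows of the difference of two levels -/
theorem level_win {e : ℝ} (he : 0 < e) (he1 : e ≤ 1 / 2000) (p : ℕ) (Cc : ℝ) (hCc : 0 < Cc) :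
    ∃ H₀ C : ℝ, 1 ≤ H₀ ∧ 0 < C ∧ ∀ (β H ρ R₁ η L σ c₀ : ℝ) (Cd : ℕ → ℝ) (v : ℝ → ℝ) (n : ℕ) (Φ : ℕ → ℕ → Xp), H₀ ≤ H →
    Bas β H ρ e R₁ σ c₀ Cd v → Ok H ρ e (wd (n + 1)) → σ * H ^ e ≤ wd (n + 1) → L ≤ Cc * H ^ Cc →
    (∀ i < 2 ^ n, IsCf β H ρ e η L (tc (2 ^ n) i) (wd n) (Hs β H e n i) (Φ n i)) →
    (∀ j < 2 ^ (n + 1), IsCf β H ρ e η L (tc (2 ^ (n + 1)) j) (wd (n + 1)) (Hs β H e (n + 1) j) (Φ (n + 1) j)) →
      n6 (mu v) (xp (res (In5 β) (∑ j ∈ Finset.range (2 ^ (n + 1)), Dj (fun n i => Fw β H e σ p (2 ^ n) i) Φ n j))) ≤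
        C * H ^ (220 * e) * (∑ j ∈ Finset.range (2 ^ (n + 1)), n6 (mu v) (xp (Dj (fun n i => Fw β H e σ p (2 ^ n) i) Φ n j)) + 1) := by
  obtain ⟨H₁, hH₁, h₁⟩ := mx_win he (by linarith)
  obtain ⟨C₂, hC₂, h₂⟩ := win_gen he he1
  obtain ⟨C₃, hC₃, h₃⟩ := Fw_far (ε := e) (B := Cc + 4) he (by linarith)
  set Q : ℝ := (2 * C₃ * Cc * 10 ^ 4) ^ 2 with hQ
  refine ⟨max H₁ (4 ^ (1 / e)), C₂ * (1 + Q) + 4 * Q, le_max_of_le_left hH₁, by positivity, ?_⟩
  intro β H ρ R₁ η L σ c₀ Cd v n Φ hH hb hok hσw hL hcf hcf'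
  have hH1 : 1 ≤ H := hH₁.trans ((le_max_left _ _).trans hH)
  have hH0 : 0 < H := by linarith
  have hHe : 4 ≤ H ^ e := by
    have h4 : (4 : ℝ) ^ (1 / e) ≤ H := (le_max_right _ _).trans hH
    calc (4 : ℝ) = ((4 : ℝ) ^ (1 / e)) ^ e := by
          rw [← Real.rpow_mul (by norm_num), one_div_mul_cancel he.ne', Real.rpow_one]
      _ ≤ H ^ e := Real.rpow_le_rpow (by positivity) h4 he.le
  set N : ℕ := 2 ^ (n + 1) with hNdef
  have hN : 1 ≤ N := Nat.one_le_two_pow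
  have hw := wd_pos n
  have hw' := wd_pos (n + 1)
  have hww : wd n = 2 * wd (n + 1) := by
    rw [wd_succ]
    ring
  have hNw : 12 / (N : ℝ) = wd (n + 1) := rfl
  have hhalf : ∀ j, j < N → j / 2 < 2 ^ n := by
    intro j hj
    rw [hNdef, pow_succ] at hj
    omega
  set F : ℕ → ℕ → Xp := fun n i => Fw β H e σ p (2 ^ n) i with hF
  set P : ℕ → (ℤ × ℤ) → Prop := fun j k => |tt β k - tc N j| ≤ 2 * (12 / (N : ℝ)) with hP
  set A : ℕ → Xp := fun j => mx (res (P j) (F (n + 1) j)) (Φ n (j / 2) - Φ (n + 1) j) with hA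
  set B : ℕ → Xp := fun j => mx (res (fun k => ¬ P j k) (F (n + 1) j)) (Φ n (j / 2) - Φ (n + 1) j) with hB
  have hNum : (N : ℝ) ≤ 10 ^ 4 * H ^ 2 := by
    have h6 := hok.num
    rwa [wd_div] at h6
  set b : ℝ := 2 * C₃ * Cc * H ^ (-4 : ℝ) with hbdef
  have hb0 : 0 ≤ b := by positivity
  have hNb : (N : ℝ) * b ≤ 2 * C₃ * Cc * 10 ^ 4 := by
    have e1 : H ^ 2 * H ^ (-4 : ℝ) ≤ 1 := by
      rw [← Real.rpow_natCast H 2, ← Real.rpow_add hH0]
      exact Real.rpow_le_one_of_one_le_of_nonpos hH1 (by norm_num)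
    calc (N : ℝ) * b ≤ (10 ^ 4 * H ^ 2) * (2 * C₃ * Cc * H ^ (-4 : ℝ)) := by
          rw [hbdef]
          gcongr
      _ = (2 * C₃ * Cc * 10 ^ 4) * (H ^ 2 * H ^ (-4 : ℝ)) := by ring
      _ ≤ (2 * C₃ * Cc * 10 ^ 4) * 1 := by gcongr
      _ = _ := by ring
  have hNb2 : (N * b) ^ 2 ≤ Q := pow_le_pow_left₀ (by positivity) hNb 2
  have hNb3 : (N : ℝ) * b ^ 2 ≤ Q := by
    have h1N : (1 : ℝ) ≤ N := by exact_mod_cast hN
    have : (N : ℝ) * b ^ 2 ≤ (N * b) ^ 2 := by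
      have h5 : (N : ℝ) ≤ (N : ℝ) ^ 2 := by nlinarith
      calc (N : ℝ) * b ^ 2 ≤ (N : ℝ) ^ 2 * b ^ 2 := mul_le_mul_of_nonneg_right h5 (sq_nonneg b)
        _ = (N * b) ^ 2 := by ring
    exact this.trans hNb2
  have key := h₂ β H (ρ * H ^ (-e)) v N (fun j => Dj F Φ n j) A B b hb.hβ hH1 hb.hv.wt hN (by
      have h6 := hok.num'
      rwa [wd_div] at h6) (by
      rw [hNw]
      refine hok.dec.trans ?_
      have : H ^ (1 + 10 * e) ≤ H ^ (1 + 11 * e) := Real.rpow_le_rpow_of_exponent_le hH1 (by linarith)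
      gcongr) hb0 (by
      intro j hj
      refine ⟨?_, ?_, ?_⟩
      · simp only [hA, hB]
        rw [← mx_add, ← res_split]
        rfl
      · simp only [hA]
        rw [hNw, mx_sub]
        have hsup : ∀ s : ℝ, wd (n + 1) ≤ 2 * s → ∀ x ∈ (res (P j) (F (n + 1) j)).support,
            x.1 ∈ frq β H e ∧ x.2 = ph β x.1 ∧ |tt β x.1 - tc N j| ≤ 4 * s := by
          intro s hs x hx
          obtain ⟨m1, m2⟩ := mem_res.1 hx
          obtain ⟨m3, m4⟩ := Fw_supp m1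
          refine ⟨m3, m4, ?_⟩
          have m5 : |tt β x.1 - tc N j| ≤ 2 * (12 / (N : ℝ)) := m2
          rw [hNw] at m5
          linarith
        refine Win_sub ?_ ?_
        · have g1 := h₁ β H (tc (2 ^ n) (j / 2)) (tc N j) (wd n) (res (P j) (F (n + 1) j)) (Φ n (j / 2)) hb.hβ
            ((le_max_left _ _).trans hH) hw (by
              rw [abs_sub_comm, hNdef, tc_child]
              linarith) (hsup _ (by linarith)) (hcf _ (hhalf j hj)).bx
          exact Win_mono hw' (by linarith) hw hH1 he hHe g1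
        · have g1 := h₁ β H (tc N j) (tc N j) (wd (n + 1)) (res (P j) (F (n + 1) j)) (Φ (n + 1) j) hb.hβ
            ((le_max_left _ _).trans hH) hw' (by
              rw [sub_self, abs_zero]
              exact hw'.le) (hsup _ (by linarith)) (hcf' _ hj).bx
          exact Win_mono hw' (by linarith) hw' hH1 he hHe g1
      · simp only [hB]
        refine (l1_mx_le _ _).trans ?_
        have g1 : l1 (res (fun k => ¬ P j k) (F (n + 1) j)) ≤ C₃ * H ^ (-(Cc + 4)) :=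
          h₃ β H σ p N j hH1 hb.hσ hN (by rw [hNw]; exact hσw)
        have g2 : l1 (Φ n (j / 2) - Φ (n + 1) j) ≤ 2 * (Cc * H ^ Cc) := by
          refine (l1_sub_le _ _).trans ?_
          have g3 := (hcf _ (hhalf j hj)).l1.trans hL
          have g4 := (hcf' _ hj).l1.trans hL
          linarith
        calc l1 (res (fun k => ¬ P j k) (F (n + 1) j)) * l1 (Φ n (j / 2) - Φ (n + 1) j) ≤
              (C₃ * H ^ (-(Cc + 4))) * (2 * (Cc * H ^ Cc)) := mul_le_mul g1 g2 (l1_nonneg _) (by positivity)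
          _ = 2 * C₃ * Cc * (H ^ (-(Cc + 4)) * H ^ Cc) := by ring
          _ = b := by
              rw [← Real.rpow_add hH0, hbdef]
              congr 2
              ring)
  refine key.trans ?_
  have hS : 0 ≤ ∑ j ∈ Finset.range N, n6 (mu v) (xp (Dj F Φ n j)) := Finset.sum_nonneg fun j _ => n6_nn _
  have p1 : (1 : ℝ) ≤ H ^ (220 * e) := Real.one_le_rpow hH1 (by linarith)
  have hQ0 : 0 ≤ Q := by positivity
  set S : ℝ := ∑ j ∈ Finset.range N, n6 (mu v) (xp (Dj F Φ n j)) with hSdef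
  change C₂ * H ^ (220 * e) * (S + N * b ^ 2) + 4 * (N * b) ^ 2 ≤ _
  calc C₂ * H ^ (220 * e) * (S + N * b ^ 2) + 4 * (N * b) ^ 2 ≤ C₂ * H ^ (220 * e) * (S + Q) + 4 * Q := by gcongr
    _ ≤ C₂ * H ^ (220 * e) * ((1 + Q) * (S + 1)) + 4 * Q * (H ^ (220 * e) * (S + 1)) := by
        have h7 : S + Q ≤ (1 + Q) * (S + 1) := by nlinarith
        have h8 : 1 ≤ H ^ (220 * e) * (S + 1) := by nlinarith
        have h9 : 4 * Q * 1 ≤ 4 * Q * (H ^ (220 * e) * (S + 1)) := by gcongr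
        have h10 : C₂ * H ^ (220 * e) * (S + Q) ≤ C₂ * H ^ (220 * e) * ((1 + Q) * (S + 1)) := by gcongr
        linarith
    _ = _ := by ring

/-- the windows of the top difference -/
theorem top_win {e : ℝ} (he : 0 < e) (he1 : e ≤ 1 / 2000) (p : ℕ) (Cc : ℝ) (hCc : 0 < Cc) :
    ∃ H₀ C : ℝ, 1 ≤ H₀ ∧ 0 < C ∧ ∀ (β H ρ R₁ η L σ c₀ : ℝ) (Cd : ℕ → ℝ) (v : ℝ → ℝ) (n : ℕ) (Φ : ℕ → ℕ → Xp), H₀ ≤ H →
    Bas β H ρ e R₁ σ c₀ Cd v → Ok H ρ e (wd n) → σ * H ^ e ≤ wd n → L ≤ Cc * H ^ Cc →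
    (∀ i < 2 ^ n, IsCf β H ρ e η L (tc (2 ^ n) i) (wd n) (Hs β H e n i) (Φ n i)) →
      n6 (mu v) (xp (res (In5 β) (∑ i ∈ Finset.range (2 ^ n), Dt (fun n i => Fw β H e σ p (2 ^ n) i) Φ n i))) ≤
        C * H ^ (220 * e) * (∑ i ∈ Finset.range (2 ^ n), n6 (mu v) (xp (Dt (fun n i => Fw β H e σ p (2 ^ n) i) Φ n i)) + 1) := by
  obtain ⟨H₁, hH₁, h₁⟩ := mx_win he (by linarith)
  obtain ⟨C₂, hC₂, h₂⟩ := win_gen he he1
  obtain ⟨C₃, hC₃, h₃⟩ := Fw_far (ε := e) (B := Cc + 4) he (by linarith)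
  set Q : ℝ := (C₃ * (1 + Cc) * 10 ^ 4) ^ 2 with hQ
  refine ⟨max H₁ (4 ^ (1 / e)), C₂ * (1 + Q) + 4 * Q, le_max_of_le_left hH₁, by positivity, ?_⟩
  intro β H ρ R₁ η L σ c₀ Cd v n Φ hH hb hok hσw hL hcf
  have hH1 : 1 ≤ H := hH₁.trans ((le_max_left _ _).trans hH)
  have hH0 : 0 < H := by linarith
  have hHe : 4 ≤ H ^ e := by
    have h4 : (4 : ℝ) ^ (1 / e) ≤ H := (le_max_right _ _).trans hH
    calc (4 : ℝ) = ((4 : ℝ) ^ (1 / e)) ^ e := by
          rw [← Real.rpow_mul (by norm_num), one_div_mul_cancel he.ne', Real.rpow_one]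
      _ ≤ H ^ e := Real.rpow_le_rpow (by positivity) h4 he.le
  set N : ℕ := 2 ^ n with hNdef
  have hN : 1 ≤ N := Nat.one_le_two_pow
  have hw := wd_pos n
  have hNw : 12 / (N : ℝ) = wd n := rfl
  set F : ℕ → ℕ → Xp := fun n i => Fw β H e σ p (2 ^ n) i with hF
  set P : ℕ → (ℤ × ℤ) → Prop := fun j k => |tt β k - tc N j| ≤ 2 * (12 / (N : ℝ)) with hP
  set A : ℕ → Xp := fun j => res (P j) (F n j) - mx (res (P j) (F n j)) (Φ n j) with hA
  set B : ℕ → Xp := fun j => res (fun k => ¬ P j k) (F n j) - mx (res (fun k => ¬ P j k) (F n j)) (Φ n j) with hB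
  have hNum : (N : ℝ) ≤ 10 ^ 4 * H ^ 2 := by
    have h6 := hok.num
    rwa [wd_div] at h6
  set b : ℝ := C₃ * (1 + Cc) * H ^ (-4 : ℝ) with hbdef
  have hb0 : 0 ≤ b := by positivity
  have hNb : (N : ℝ) * b ≤ C₃ * (1 + Cc) * 10 ^ 4 := by
    have e1 : H ^ 2 * H ^ (-4 : ℝ) ≤ 1 := by
      rw [← Real.rpow_natCast H 2, ← Real.rpow_add hH0]
      exact Real.rpow_le_one_of_one_le_of_nonpos hH1 (by norm_num)
    calc (N : ℝ) * b ≤ (10 ^ 4 * H ^ 2) * (C₃ * (1 + Cc) * H ^ (-4 : ℝ)) := by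
          rw [hbdef]
          gcongr
      _ = (C₃ * (1 + Cc) * 10 ^ 4) * (H ^ 2 * H ^ (-4 : ℝ)) := by ring
      _ ≤ (C₃ * (1 + Cc) * 10 ^ 4) * 1 := by gcongr
      _ = _ := by ring
  have hNb2 : (N * b) ^ 2 ≤ Q := pow_le_pow_left₀ (by positivity) hNb 2
  have hNb3 : (N : ℝ) * b ^ 2 ≤ Q := by
    have h1N : (1 : ℝ) ≤ N := by exact_mod_cast hN
    have : (N : ℝ) * b ^ 2 ≤ (N * b) ^ 2 := by
      have h5 : (N : ℝ) ≤ (N : ℝ) ^ 2 := by nlinarith
      calc (N : ℝ) * b ^ 2 ≤ (N : ℝ) ^ 2 * b ^ 2 := mul_le_mul_of_nonneg_right h5 (sq_nonneg b)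
        _ = (N * b) ^ 2 := by ring
    exact this.trans hNb2
  have key := h₂ β H (ρ * H ^ (-e)) v N (fun j => Dt F Φ n j) A B b hb.hβ hH1 hb.hv.wt hN (by
      have h6 := hok.num'
      rwa [wd_div] at h6) (by
      rw [hNw]
      refine hok.dec.trans ?_
      have : H ^ (1 + 10 * e) ≤ H ^ (1 + 11 * e) := Real.rpow_le_rpow_of_exponent_le hH1 (by linarith)
      gcongr) hb0 (by
      intro j hj
      refine ⟨?_, ?_, ?_⟩
      · simp only [hA, hB]
        have e2 : Dt F Φ n j = F n j - mx (F n j) (Φ n j) := rfl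
        rw [e2]
        have e3 := res_split (P j) (F n j)
        have e4 : mx (F n j) (Φ n j) = mx (res (P j) (F n j)) (Φ n j) + mx (res (fun k => ¬ P j k) (F n j)) (Φ n j) := by
          rw [← mx_add, ← e3]
        rw [e4]
        nth_rewrite 1 [e3]
        abel
      · simp only [hA]
        rw [hNw]
        have hsup : ∀ x ∈ (res (P j) (F n j)).support,
            x.1 ∈ frq β H e ∧ x.2 = ph β x.1 ∧ |tt β x.1 - tc N j| ≤ 2 * wd n := by
          intro x hx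
          obtain ⟨m1, m2⟩ := mem_res.1 hx
          obtain ⟨m3, m4⟩ := Fw_supp m1
          refine ⟨m3, m4, ?_⟩
          have m5 : |tt β x.1 - tc N j| ≤ 2 * (12 / (N : ℝ)) := m2
          rw [hNw] at m5
          exact m5
        refine Win_sub ?_ ?_
        · intro x hx
          obtain ⟨m1, m2, m3⟩ := hsup x hx
          obtain ⟨m4, m5, -⟩ := (mem_frq hb.hβ).1 m1
          refine ⟨le_trans (Real.rpow_le_rpow_of_exponent_le hH1 (by linarith)) m4,
            m5.trans (Real.rpow_le_rpow_of_exponent_le hH1 (by linarith)), m3.trans ?_, ?_⟩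
          · have : (2 : ℝ) ≤ H ^ (11 * e) := by
              have h8 : H ^ e ≤ H ^ (11 * e) := Real.rpow_le_rpow_of_exponent_le hH1 (by linarith)
              linarith
            exact mul_le_mul_of_nonneg_right this hw.le
          · rw [m2, sub_self, abs_zero]
            positivity
        · have g1 := h₁ β H (tc N j) (tc N j) (wd n) (res (P j) (F n j)) (Φ n j) hb.hβ
            ((le_max_left _ _).trans hH) hw (by
              rw [sub_self, abs_zero]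
              exact hw.le) (fun x hx => by
                obtain ⟨m1, m2, m3⟩ := hsup x hx
                exact ⟨m1, m2, by linarith⟩) (hcf _ hj).bx
          exact Win_mono hw (by linarith) hw hH1 he hHe g1
      · simp only [hB]
        have g1 : l1 (res (fun k => ¬ P j k) (F n j)) ≤ C₃ * H ^ (-(Cc + 4)) :=
          h₃ β H σ p N j hH1 hb.hσ hN (by rw [hNw]; exact hσw)
        have g2 : l1 (Φ n j) ≤ Cc * H ^ Cc := (hcf _ hj).l1.trans hL
        have p1 : (1 : ℝ) ≤ H ^ Cc := Real.one_le_rpow hH1 hCc.le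
        calc l1 (res (fun k => ¬ P j k) (F n j) - mx (res (fun k => ¬ P j k) (F n j)) (Φ n j)) ≤
              l1 (res (fun k => ¬ P j k) (F n j)) + l1 (res (fun k => ¬ P j k) (F n j)) * l1 (Φ n j) :=
              (l1_sub_le _ _).trans (add_le_add_right (l1_mx_le _ _) _)
          _ ≤ C₃ * H ^ (-(Cc + 4)) * H ^ Cc + (C₃ * H ^ (-(Cc + 4))) * (Cc * H ^ Cc) := by
              refine add_le_add (g1.trans ?_) (mul_le_mul g1 g2 (l1_nonneg _) (by positivity))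
              exact le_mul_of_one_le_right (by positivity) p1
          _ = C₃ * (1 + Cc) * (H ^ (-(Cc + 4)) * H ^ Cc) := by ring
          _ = b := by
              rw [← Real.rpow_add hH0, hbdef]
              congr 2
              ring)
  refine key.trans ?_
  have hS : 0 ≤ ∑ j ∈ Finset.range N, n6 (mu v) (xp (Dt F Φ n j)) := Finset.sum_nonneg fun j _ => n6_nn _
  have p1 : (1 : ℝ) ≤ H ^ (220 * e) := Real.one_le_rpow hH1 (by linarith)
  have hQ0 : 0 ≤ Q := by positivity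
  set S : ℝ := ∑ j ∈ Finset.range N, n6 (mu v) (xp (Dt F Φ n j)) with hSdef
  change C₂ * H ^ (220 * e) * (S + N * b ^ 2) + 4 * (N * b) ^ 2 ≤ _
  calc C₂ * H ^ (220 * e) * (S + N * b ^ 2) + 4 * (N * b) ^ 2 ≤ C₂ * H ^ (220 * e) * (S + Q) + 4 * Q := by gcongr
    _ ≤ C₂ * H ^ (220 * e) * ((1 + Q) * (S + 1)) + 4 * Q * (H ^ (220 * e) * (S + 1)) := by
        have h7 : S + Q ≤ (1 + Q) * (S + 1) := by nlinarith
        have h8 : 1 ≤ H ^ (220 * e) * (S + 1) := by nlinarith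
        have h9 : 4 * Q * 1 ≤ 4 * Q * (H ^ (220 * e) * (S + 1)) := by gcongr
        have h10 : C₂ * H ^ (220 * e) * (S + Q) ≤ C₂ * H ^ (220 * e) * ((1 + Q) * (S + 1)) := by gcongr
        linarith
    _ = _ := by ring

end Pool.Agent.Helper64.GS
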