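import Pool.Agent.Helper64.GS.D6
import Pool.Agent.Helper64.GS.D2
import Pool.Agent.Helper64.GS.D1
import Pool.Agent.Helper76.GS.B2
import Pool.Agent.Helper76.GS.B3
import Pool.Agent.Helper89.GS.Cutoff
import Pool.Agent.Helper19.GS.C1
import Pool.Agent.Helper92.GC.Q1
import Pool.Agent.Helper92.GC.Q2
import Pool.Agent.Helper92.GC.Q4
import Pool.Agent.Helper92.GC.Q5

/-!
# GS, D7: the Gaussian sixth moment of the shell
-/

open MeasureTheory Real Set Filter Topology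

set_option autoImplicit false

namespace Pool.Agent.Helper64.GS

open Pool.Agent.Helper22.AE
open Pool.Agent.Helper22.AC (n6 IsWt mu)
open Pool.Agent.Helper92.GC
open Pool.Agent.Helper76.GS
open Pool.Agent.Helper19.GS
open Pool.Agent.Helper89.GS (cutoff)

theorem wd_anti {m n : ℕ} (h : m ≤ n) : wd n ≤ wd m := by
  unfold wd
  have h1 : ((2 ^ m : ℕ) : ℝ) ≤ ((2 ^ n : ℕ) : ℝ) := by
    exact_mod_cast Nat.pow_le_pow_right (by norm_num) h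
  have h2 : (0 : ℝ) < ((2 ^ m : ℕ) : ℝ) := by positivity
  exact div_le_div_of_nonneg_left (by norm_num) h2 h1

private theorem near_sub {β R t s s' d d' : ℝ} {c : ℝ × ℝ} (hs : s ≤ s') (hd : d ≤ d') :
    near β R t s d c ⊆ near β R t s' d' c := by
  intro m hm
  exact ⟨hm.1.trans hs, hm.2.trans hd⟩

private theorem tri_sub {U V : Set (ℤ × ℤ)} (h : U ⊆ V) (hT : Tri U) : Tri V := by
  obtain ⟨m, hm, m₁, hm₁, m₂, hm₂, hd⟩ := hT
  exact ⟨m, h hm, m₁, h hm₁, m₂, h hm₂, hd⟩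

/-- at the last level the zero function is a cutoff function of the heavy set -/
theorem zero_cf {β H ρ e η L : ℝ} {n i : ℕ} (hβ : |β| ≤ 1 / 2) (hH : 1 ≤ H) (he : 0 < e) (hok : Ok H ρ e (wd n))
    (hfin : 520 * ρ ^ 2 * (4 * wd n) ^ 3 < 1) (hη : 0 ≤ η) (hL : 0 ≤ L) (hi : i < 2 ^ n) :
    IsCf β H ρ e η L (tc (2 ^ n) i) (wd n) (Hs β H e n i) 0 := by
  have hw := wd_pos n
  have hH0 : 0 < H := by linarith
  refine ⟨?_, ?_, ?_⟩
  · intro x hx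
    simp at hx
  · have h0 : l1 0 = 0 := by simp [l1]
    rw [h0]
    exact hL
  · intro q
    refine ⟨0, by rw [xp_zero]; simp, le_refl 0, zero_le_one, ?_, fun _ _ _ => hη⟩
    intro h1 h2 h3
    exfalso
    have h4 : q ∈ Hs β H e n i := by
      apply h3
      have hr : 0 ≤ H ^ (3 * e - 1) := by positivity
      refine ⟨?_, ?_, ?_⟩
      · simpa using hr
      · have : 0 ≤ H ^ (3 * e - 1) / wd n := by positivity
        simpa using this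
      · have : 0 ≤ H ^ (3 * e - 1) / wd n ^ 2 := by positivity
        simpa using this
    have h5 : Tri (near β q.2 (tc (2 ^ n) i) (4 * wd n) (H ^ (5 * e - 1)) q.1) :=
      tri_sub (near_sub (by linarith) (Real.rpow_le_rpow_of_exponent_le hH (by linarith))) h4
    exact no_tri (hok.par4 β _ hβ (tc_abs hi)) h1 h2 q.1 hfin h5

private theorem mx_zr (a : Xp) : mx a 0 = 0 := by
  simp [mx]

theorem core {e : ℝ} (he : 0 < e) (he1 : e ≤ 1 / 2000) : ∃ H₀ C c₀ : ℝ, ∃ Cd : ℕ → ℝ, 1 ≤ H₀ ∧ 0 < C ∧ 0 < c₀ ∧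
    ∀ β H ρ R₁ : ℝ, |β| ≤ 1 / 2 → H₀ ≤ H → H ^ (3 / 2 : ℝ) ≤ ρ → ρ ≤ H ^ (3 - 100 * e) → ρ ≤ R₁ → R₁ ≤ 2 * ρ →
      ∃ v : ℝ → ℝ, IsDw (ρ * H ^ (-e)) R₁ v c₀ Cd ∧ n6 (mu v) (gs (reg β H) (fun _ => 1) (ph β)) ≤ C * H ^ (250 * e) * H ^ 2 := by
  obtain ⟨c₀, hc₀, Cd, hdw⟩ := exists_dw
  obtain ⟨p, hp, Ca, hCa, hamp⟩ := Fw_amp (ε := e) he (by linarith) 0
  obtain ⟨Cc, hCc, hcut⟩ := cutoff (ε := e) he (by linarith) 11
  obtain ⟨H₁, hH₁, hlv⟩ := lv_exists he (by linarith)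
  obtain ⟨H₂, C₂, hH₂, hC₂, hreg⟩ := reg_le_Fw (ε := e) he hp
  obtain ⟨H₃, C₃, hH₃, hC₃, hls⟩ := level_sum he (by linarith) p Ca c₀ hCa Cd
  obtain ⟨H₄, C₄, hH₄, hC₄, hts⟩ := top_sum he (by linarith) p Ca c₀ hCa Cd
  obtain ⟨H₅, C₅, hH₅, hC₅, hlw⟩ := level_win he he1 p Cc hCc
  obtain ⟨H₆, C₆, hH₆, hC₆, htw⟩ := top_win he he1 p Cc hCc
  refine ⟨H₁ + H₂ + H₃ + H₄ + H₅ + H₆ + Cc + 10 ^ 6, C₂ * (4 * (C₆ * (C₄ + 1) + C₅ * (C₃ + 1))), c₀, Cd, by linarith, by positivity,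
    hc₀, ?_⟩
  intro β H ρ R₁ hβ hH hρ hρ3 hR1 hR2
  have hH1 : 1 ≤ H := by linarith
  have hH0 : 0 < H := by linarith
  have hH6 : (10 : ℝ) ^ 6 ≤ H := by linarith
  have hρ2 : 2 ≤ ρ := by
    have h1 : H ^ (1 : ℝ) ≤ H ^ (3 / 2 : ℝ) := Real.rpow_le_rpow_of_exponent_le hH1 (by norm_num)
    rw [Real.rpow_one] at h1
    linarith
  have hρ0 : 0 < ρ := by linarith
  have hρ3' : ρ ≤ H ^ 3 := by
    refine hρ3.trans ?_
    rw [← Real.rpow_natCast H 3]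
    exact Real.rpow_le_rpow_of_exponent_le hH1 (by push_cast; linarith)
  obtain ⟨n₀, n₁, lv⟩ := hlv H ρ (by linarith) hρ hρ3
  obtain ⟨v, hv⟩ := hdw (ρ * H ^ (-e)) (by positivity) R₁
  refine ⟨v, hv, ?_⟩
  have hw1 := wd_pos n₁
  have hok1 := lv.ok n₁ lv.le (le_refl _)
  obtain ⟨σ, hσdef⟩ : ∃ σ, σ = wd n₁ * H ^ (-e) := ⟨_, rfl⟩
  have hHe1 : H ^ (-e) ≤ 1 := Real.rpow_le_one_of_one_le_of_nonpos hH1 (by linarith)
  have hσ : 0 < σ := by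
    rw [hσdef]
    positivity
  have hσ1 : σ ≤ 1 := by
    rw [hσdef]
    have := hok1.w1
    nlinarith
  have hσe : σ * H ^ e = wd n₁ := by
    rw [hσdef, mul_assoc, ← Real.rpow_add hH0]
    simp
  have hσw : ∀ n, n ≤ n₁ → σ * H ^ e ≤ wd n := by
    intro n hn
    rw [hσe]
    exact wd_anti hn
  have hb : Bas β H ρ e R₁ σ c₀ Cd v := ⟨hβ, hρ2, hρ3', hR1, hR2, hv, hσ, hσ1⟩
  set η : ℝ := Cc * H ^ (-11 : ℝ) with hη
  have hη0 : 0 ≤ η := by positivity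
  have hη1 : η ≤ H ^ (-10 : ℝ) := by
    have h1 : H ^ (-10 : ℝ) = H * H ^ (-11 : ℝ) := by
      nth_rewrite 2 [← Real.rpow_one H]
      rw [← Real.rpow_add hH0]
      norm_num
    rw [h1, hη]
    have : Cc ≤ H := by linarith
    gcongr
  set L : ℝ := Cc * H ^ Cc with hL
  -- the cutoff functions
  have hex : ∀ n i : ℕ, ∃ b : Xp, (n₀ ≤ n → n ≤ n₁ → i < 2 ^ n → IsCf β H ρ e η L (tc (2 ^ n) i) (wd n) (Hs β H e n i) b) ∧
      (n = n₁ → b = 0) := by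
    intro n i
    rcases eq_or_ne n n₁ with rfl | hne
    · exact ⟨0, fun _ _ hi => zero_cf hβ hH1 he hok1 lv.fin hη0 (by positivity) hi, fun _ => rfl⟩
    · by_cases hc : n₀ ≤ n ∧ n ≤ n₁ ∧ i < 2 ^ n
      · obtain ⟨c1, c2, c3⟩ := hc
        have hok := lv.ok n c1 c2
        obtain ⟨b, b1, b2, b3⟩ := hcut β H ρ (wd n) (tc (2 ^ n) i) (Hs β H e n i) hβ hH1 (by linarith) (tc_abs c3) (wd_pos n)
          (by linarith [hok.w1]) hok.cut hρ3' (tri_meas β _ _ _) (fun q m => tri_per β q.2 _ _ _ q.1 m)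
        exact ⟨b, fun _ _ _ => ⟨b1, b2, b3⟩, fun h => absurd h hne⟩
      · exact ⟨0, fun h1 h2 h3 => absurd ⟨h1, h2, h3⟩ hc, fun h => absurd h hne⟩
  choose Φ hΦ using hex
  set F : ℕ → ℕ → Xp := fun n i => Fw β H e σ p (2 ^ n) i with hF
  have hsplit : ∀ n i, F n i = F (n + 1) (2 * i) + F (n + 1) (2 * i + 1) := by
    intro n i
    have h1 := Fw_split β H e σ p (N := 2 ^ n) Nat.one_le_two_pow i
    rw [show 2 * 2 ^ n = 2 ^ (n + 1) by ring] at h1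
    exact h1
  have htel := tel F Φ hsplit lv.le (fun i => by rw [(hΦ n₁ i).2 rfl, mx_zr])
  have hampF : ∀ n, n ≤ n₁ → ∀ j < 2 ^ n, Amp β H ρ e Ca (tc (2 ^ n) j) (wd n) (Fw β H e σ p (2 ^ n) j) := by
    intro n hn j hj c R hRl hRu
    have h1 := hamp β H σ R (2 ^ n) j hβ hH1 hσ hσ1 (by linarith) (by linarith) (by
      have h2 : σ ^ 2 = wd n₁ ^ 2 * H ^ (-(2 * e)) := by
        rw [hσdef, mul_pow, ← Real.rpow_natCast (H ^ (-e)), ← Real.rpow_mul hH0.le]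
        congr 2
        push_cast
        ring
      have h3 := hok1.big
      have h4 : 1 ≤ H ^ (10 * e) * H ^ (-(2 * e)) := by
        rw [← Real.rpow_add hH0]
        exact Real.one_le_rpow hH1 (by linarith)
      have h5 : H ^ (10 * e) * H ^ (-(2 * e)) ≤ ρ * H * wd n₁ ^ 2 * H ^ (-(2 * e)) := by gcongr
      have h6 : ρ * H * wd n₁ ^ 2 * H ^ (-(2 * e)) = ρ * (H * (wd n₁ ^ 2 * H ^ (-(2 * e)))) := by ring
      have h7 : ρ * (H * (wd n₁ ^ 2 * H ^ (-(2 * e)))) ≤ 2 * R * (H * (wd n₁ ^ 2 * H ^ (-(2 * e)))) := by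
        have : ρ ≤ 2 * R := by linarith
        gcongr
      rw [h2]
      linarith) Nat.one_le_two_pow hj (hσw n hn) c
    have h2 : H ^ (-(0 : ℝ)) = 1 := by simp
    rw [h2, mul_one] at h1
    exact h1
  have hd1 : H ^ (e - 1) ≤ 1 / 1000 := by
    have h1 : H ^ (e - 1) ≤ H ^ (-(1 / 2) : ℝ) := Real.rpow_le_rpow_of_exponent_le hH1 (by linarith)
    have h2 : H ^ (-(1 / 2) : ℝ) ≤ ((10 : ℝ) ^ 6) ^ (-(1 / 2) : ℝ) :=
      Real.rpow_le_rpow_of_nonpos (by norm_num) hH6 (by norm_num)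
    have h3 : ((10 : ℝ) ^ 6) ^ (-(1 / 2) : ℝ) = 1 / 1000 := by
      rw [← Real.rpow_natCast, ← Real.rpow_mul (by norm_num)]
      norm_num
    linarith
  have p220 : (1 : ℝ) ≤ H ^ (220 * e) := Real.one_le_rpow hH1 (by linarith)
  have pH2 : (1 : ℝ) ≤ H ^ 2 := one_le_pow₀ hH1
  -- the top level
  have htop : n6 (mu v) (xp (res (In5 β) (∑ i ∈ Finset.range (2 ^ n₀), Dt F Φ n₀ i))) ≤ C₆ * (C₄ + 1) * H ^ (250 * e) * H ^ 2 := by
    have hok0 := lv.ok n₀ (le_refl _) lv.le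
    have hcf : ∀ i < 2 ^ n₀, IsCf β H ρ e η L (tc (2 ^ n₀) i) (wd n₀) (Hs β H e n₀ i) (Φ n₀ i) :=
      fun i hi => (hΦ n₀ i).1 (le_refl _) lv.le hi
    have h1 := htw β H ρ R₁ η L σ c₀ Cd v n₀ Φ (by linarith) hb hok0 (hσw n₀ lv.le) (le_refl _) hcf
    have h2 := hts β H ρ R₁ η L σ v n₀ Φ (by linarith) hb hη0 hη1 hok0 lv.top (hσw n₀ lv.le) hd1 (hampF n₀ lv.le) hcf
    refine h1.trans ?_
    have p23 : (1 : ℝ) ≤ H ^ (23 * e) := Real.one_le_rpow hH1 (by linarith)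
    have e1 : H ^ (220 * e) * H ^ (23 * e) ≤ H ^ (250 * e) := by
      rw [← Real.rpow_add hH0]
      exact Real.rpow_le_rpow_of_exponent_le hH1 (by linarith)
    have h3 : (1 : ℝ) ≤ H ^ (23 * e) * H ^ 2 := one_le_mul_of_one_le_of_one_le p23 pH2
    calc C₆ * H ^ (220 * e) * (∑ i ∈ Finset.range (2 ^ n₀), n6 (mu v) (xp (Dt F Φ n₀ i)) + 1) ≤
          C₆ * H ^ (220 * e) * (C₄ * H ^ (23 * e) * H ^ 2 + H ^ (23 * e) * H ^ 2) := by gcongr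
      _ = C₆ * (C₄ + 1) * (H ^ (220 * e) * H ^ (23 * e)) * H ^ 2 := by ring
      _ ≤ _ := by gcongr
  -- the other levels
  have hlev : ∀ n ∈ Finset.Ico n₀ n₁, n6 (mu v) (xp (res (In5 β) (∑ j ∈ Finset.range (2 ^ (n + 1)), Dj F Φ n j))) ≤
      C₅ * (C₃ + 1) * H ^ (230 * e) * H ^ 2 := by
    intro n hn
    obtain ⟨m1, m2⟩ := Finset.mem_Ico.1 hn
    have hok := lv.ok n m1 m2.le
    have hok' := lv.ok (n + 1) (by omega) (by omega)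
    have hcf : ∀ i < 2 ^ n, IsCf β H ρ e η L (tc (2 ^ n) i) (wd n) (Hs β H e n i) (Φ n i) :=
      fun i hi => (hΦ n i).1 m1 m2.le hi
    have hcf' : ∀ j < 2 ^ (n + 1), IsCf β H ρ e η L (tc (2 ^ (n + 1)) j) (wd (n + 1)) (Hs β H e (n + 1) j) (Φ (n + 1) j) :=
      fun i hi => (hΦ (n + 1) i).1 (by omega) (by omega) hi
    have h1 := hlw β H ρ R₁ η L σ c₀ Cd v n Φ (by linarith) hb hok' (hσw (n + 1) (by omega)) (le_refl _) hcf hcf'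
    have h2 := hls β H ρ R₁ η L σ v n Φ (by linarith) hb hη0 hη1 hok hok' (hσw (n + 1) (by omega)) hd1 (hampF (n + 1) (by omega))
      hcf hcf'
    refine h1.trans ?_
    have p10 : (1 : ℝ) ≤ H ^ (10 * e) := Real.one_le_rpow hH1 (by linarith)
    have e1 : H ^ (220 * e) * H ^ (10 * e) = H ^ (230 * e) := by
      rw [← Real.rpow_add hH0]
      congr 1
      ring
    have h3 : (1 : ℝ) ≤ H ^ (10 * e) * H ^ 2 := one_le_mul_of_one_le_of_one_le p10 pH2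
    calc C₅ * H ^ (220 * e) * (∑ j ∈ Finset.range (2 ^ (n + 1)), n6 (mu v) (xp (Dj F Φ n j)) + 1) ≤
          C₅ * H ^ (220 * e) * (C₃ * H ^ (10 * e) * H ^ 2 + H ^ (10 * e) * H ^ 2) := by gcongr
      _ = C₅ * (C₃ + 1) * (H ^ (220 * e) * H ^ (10 * e)) * H ^ 2 := by ring
      _ = _ := by rw [e1]
  have hsum : n6 (mu v) (xp (res (In5 β) (∑ n ∈ Finset.Ico n₀ n₁, ∑ j ∈ Finset.range (2 ^ (n + 1)), Dj F Φ n j))) ≤
      C₅ * (C₃ + 1) * H ^ (250 * e) * H ^ 2 := by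
    rw [res_sum]
    refine (n6_sum_xp hv.wt _ _).trans ?_
    have hcard : (((Finset.Ico n₀ n₁).card : ℕ) : ℝ) ≤ H ^ e := by
      rw [Nat.card_Ico]
      have h1 : ((n₁ - n₀ : ℕ) : ℝ) ≤ n₁ := by exact_mod_cast Nat.sub_le _ _
      linarith [lv.cnt]
    have h2 : ∑ n ∈ Finset.Ico n₀ n₁, n6 (mu v) (xp (res (In5 β) (∑ j ∈ Finset.range (2 ^ (n + 1)), Dj F Φ n j))) ≤
        H ^ e * (C₅ * (C₃ + 1) * H ^ (230 * e) * H ^ 2) := by
      refine (Finset.sum_le_sum hlev).trans ?_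
      rw [Finset.sum_const, nsmul_eq_mul]
      gcongr
    have e1 : (H ^ e) ^ 2 * (H ^ e * H ^ (230 * e)) ≤ H ^ (250 * e) := by
      rw [← Real.rpow_natCast (H ^ e), ← Real.rpow_mul hH0.le, ← Real.rpow_add hH0, ← Real.rpow_add hH0]
      apply Real.rpow_le_rpow_of_exponent_le hH1
      push_cast
      linarith
    calc (((Finset.Ico n₀ n₁).card : ℕ) : ℝ) ^ 2 *
          ∑ n ∈ Finset.Ico n₀ n₁, n6 (mu v) (xp (res (In5 β) (∑ j ∈ Finset.range (2 ^ (n + 1)), Dj F Φ n j))) ≤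
          (H ^ e) ^ 2 * (H ^ e * (C₅ * (C₃ + 1) * H ^ (230 * e) * H ^ 2)) := by
            exact mul_le_mul (pow_le_pow_left₀ (Nat.cast_nonneg _) hcard 2) h2 (Finset.sum_nonneg fun _ _ => n6_nn _) (sq_nonneg _)
      _ = C₅ * (C₃ + 1) * ((H ^ e) ^ 2 * (H ^ e * H ^ (230 * e))) * H ^ 2 := by ring
      _ ≤ _ := by gcongr
  have hfinal := hreg β H σ (ρ * H ^ (-e)) v (2 ^ n₀) hβ (by linarith) hσ hσ1 hv.wt Nat.one_le_two_pow
  have e2 : ∑ i ∈ Finset.range (2 ^ n₀), Fw β H e σ p (2 ^ n₀) i = ∑ i ∈ Finset.range (2 ^ n₀), F n₀ i := rfl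
  rw [e2, htel, res_add] at hfinal
  refine hfinal.trans ?_
  calc C₂ * n6 (mu v) (xp (res (In5 β) (∑ i ∈ Finset.range (2 ^ n₀), Dt F Φ n₀ i) +
        res (In5 β) (∑ n ∈ Finset.Ico n₀ n₁, ∑ j ∈ Finset.range (2 ^ (n + 1)), Dj F Φ n j))) ≤
        C₂ * (4 * (n6 (mu v) (xp (res (In5 β) (∑ i ∈ Finset.range (2 ^ n₀), Dt F Φ n₀ i))) +
          n6 (mu v) (xp (res (In5 β) (∑ n ∈ Finset.Ico n₀ n₁, ∑ j ∈ Finset.range (2 ^ (n + 1)), Dj F Φ n j))))) := by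
          have := n6_add_xp hv.wt (res (In5 β) (∑ i ∈ Finset.range (2 ^ n₀), Dt F Φ n₀ i))
            (res (In5 β) (∑ n ∈ Finset.Ico n₀ n₁, ∑ j ∈ Finset.range (2 ^ (n + 1)), Dj F Φ n j))
          gcongr
    _ ≤ C₂ * (4 * (C₆ * (C₄ + 1) * H ^ (250 * e) * H ^ 2 + C₅ * (C₃ + 1) * H ^ (250 * e) * H ^ 2)) := by gcongr
    _ = _ := by ring

theorem shellC {e : ℝ} (he : 0 < e) (he1 : e ≤ 1 / 2000) : ∃ C : ℝ, 0 < C ∧ ∀ H ρ β : ℝ, 1 ≤ H → H ^ (3 / 2 : ℝ) ≤ ρ →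
    ρ ≤ H ^ (3 - 100 * e) → |β| ≤ 1 / 2 →
      ∫ r in Icc ρ (2 * ρ), m6 (reg β H) (fun k => ee (r * ph β k)) ≤ C * H ^ (750 * e) * ρ * H ^ 6 := by
  obtain ⟨H₀, C, c₀, Cd, hH₀, hC, hc₀, h⟩ := core he he1
  refine ⟨2 / c₀ * C ^ 3 + (10 ^ 4 * H₀ ^ 2) ^ 6, by positivity, ?_⟩
  intro H ρ β hH hρ hρ3 hβ
  have hH0 : 0 < H := by linarith
  have hρ0 : 0 < ρ := lt_of_lt_of_le (by positivity) hρ
  have p1 : (1 : ℝ) ≤ H ^ (750 * e) := Real.one_le_rpow hH (by linarith)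
  rcases le_or_gt H₀ H with hc | hc
  · have h1 := cover (X := ρ * H ^ (-e)) (ρ := ρ) (K := (C * H ^ (250 * e) * H ^ 2) ^ 3) (c₀ := c₀) (Cd := Cd) (by positivity) (by
      have : H ^ (-e) ≤ 1 := Real.rpow_le_one_of_one_le_of_nonpos hH (by linarith)
      nlinarith) hc₀ (reg β H) (ph β) (by
      intro R₁ hR
      obtain ⟨v, hv, hn⟩ := h β H ρ R₁ hβ hc hρ hρ3 hR.1 hR.2
      exact ⟨v, hv, pow_le_pow_left₀ (n6_nn _) hn 3⟩)
    refine h1.trans ?_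
    have e1 : (C * H ^ (250 * e) * H ^ 2) ^ 3 = C ^ 3 * H ^ (750 * e) * H ^ 6 := by
      have : (H ^ (250 * e)) ^ 3 = H ^ (750 * e) := by
        rw [← Real.rpow_natCast, ← Real.rpow_mul hH0.le]
        congr 1
        push_cast
        ring
      rw [mul_pow, mul_pow, this]
      ring
    rw [e1]
    have h2 : 2 * ρ / c₀ * (C ^ 3 * H ^ (750 * e) * H ^ 6) = (2 / c₀ * C ^ 3) * H ^ (750 * e) * ρ * H ^ 6 := by ring
    rw [h2]
    have h3 : (2 / c₀ * C ^ 3) ≤ 2 / c₀ * C ^ 3 + (10 ^ 4 * H₀ ^ 2) ^ 6 := by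
      have : (0 : ℝ) ≤ (10 ^ 4 * H₀ ^ 2) ^ 6 := by positivity
      linarith
    gcongr
  · have h1 : ∀ r : ℝ, m6 (reg β H) (fun k => ee (r * ph β k)) ≤ (10 ^ 4 * H₀ ^ 2) ^ 6 := by
      intro r
      refine (m6_card (reg β H) (fun k => (ee_norm _).le)).trans ?_
      refine pow_le_pow_left₀ (by positivity) ((reg_card hH).trans ?_) 6
      gcongr
    have h2 : ‖∫ r in Icc ρ (2 * ρ), m6 (reg β H) (fun k => ee (r * ph β k))‖ ≤
        (10 ^ 4 * H₀ ^ 2) ^ 6 * volume.real (Icc ρ (2 * ρ)) := by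
      refine norm_setIntegral_le_of_norm_le_const (by rw [Real.volume_Icc]; exact ENNReal.ofReal_lt_top) fun r _ => ?_
      rw [Real.norm_eq_abs, abs_of_nonneg (by unfold m6; positivity)]
      exact h1 r
    have h3 : volume.real (Icc ρ (2 * ρ)) = ρ := by
      rw [measureReal_def, Real.volume_Icc, ENNReal.toReal_ofReal (by linarith)]
      ring
    rw [h3] at h2
    refine (le_norm_self _).trans (h2.trans ?_)
    have h4 : (1 : ℝ) ≤ H ^ 6 := one_le_pow₀ hH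
    have h5 : (10 ^ 4 * H₀ ^ 2) ^ 6 ≤ 2 / c₀ * C ^ 3 + (10 ^ 4 * H₀ ^ 2) ^ 6 := by
      have : (0 : ℝ) ≤ 2 / c₀ * C ^ 3 := by positivity
      linarith
    calc (10 ^ 4 * H₀ ^ 2) ^ 6 * ρ = (10 ^ 4 * H₀ ^ 2) ^ 6 * 1 * ρ * 1 := by ring
      _ ≤ (2 / c₀ * C ^ 3 + (10 ^ 4 * H₀ ^ 2) ^ 6) * H ^ (750 * e) * ρ * H ^ 6 := by gcongr

/-- the sixth moment of the shell is Gaussian -/
theorem shell2 {ε : ℝ} (hε : 0 < ε) : ∃ C : ℝ, 0 < C ∧ ∀ H ρ β : ℝ, 1 ≤ H → H ^ (3 / 2 : ℝ) ≤ ρ → |β| ≤ 1 / 2 →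
    ∫ r in Icc ρ (2 * ρ), m6 (reg β H) (fun k => ee (r * ph β k)) ≤ C * H ^ ε * ρ * H ^ 6 := by
  obtain ⟨e, he, he1, he2⟩ : ∃ e : ℝ, 0 < e ∧ e ≤ 1 / 2000 ∧ 800 * e ≤ ε :=
    ⟨min (1 / 2000) (ε / 800), lt_min (by norm_num) (by positivity), min_le_left _ _, by
      have := min_le_right (1 / 2000 : ℝ) (ε / 800)
      linarith⟩
  obtain ⟨C₁, hC₁, h₁⟩ := shellC he he1
  obtain ⟨C₂, hC₂, h₂⟩ := shellA (ε := 800 * e) (by linarith)
  refine ⟨max C₁ C₂, lt_max_of_lt_left hC₁, fun H ρ β hH hρ hβ => ?_⟩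
  have hH0 : 0 < H := by linarith
  have hρ0 : 0 < ρ := lt_of_lt_of_le (by positivity) hρ
  rcases le_or_gt ρ (H ^ (3 - 100 * e)) with hc | hc
  · refine (h₁ H ρ β hH hρ hc hβ).trans ?_
    have h3 : H ^ (750 * e) ≤ H ^ ε := Real.rpow_le_rpow_of_exponent_le hH (by linarith)
    have h4 := le_max_left C₁ C₂
    gcongr
  · refine (h₂ H ρ β hH ?_ hβ).trans ?_
    · refine le_trans (le_of_eq ?_) hc.le
      congr 1
      ring
    · have h3 : H ^ (800 * e) ≤ H ^ ε := Real.rpow_le_rpow_of_exponent_le hH he2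
      have h4 := le_max_right C₁ C₂
      gcongr

end Pool.Agent.Helper64.GS
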