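import Pool.Agent.Helper64.GS.Cls

/-!
# GC-G6: the octant sum

PROOF. `C₀ = 2^12` (say). Let `Q = ⌈(R₀ K)^(1/5)⌉₊`: `R₀ K ≤ Q⁵`, and `Q ≤ 2 (R₀K)^(1/5)` (as `R₀ K ≥ 1`), so `Q⁵ ≤ 32 R₀ K`; with `R₀/4 ≤ R ≤ 4 R₀`: `R K ≤ 4 Q⁵`, `Q⁵ ≤ 128 R K`. There is `R₁(ε)` such that
for `R₀ ≥ R₁`: `Q ≥ 12 C₀`, `Q ≥ 8`, `Q ≤ K` (`K⁵ ≥ K R₀^(1+4ε) ≥ 32 R₀ K`, so `K ≥ 2 (R₀K)^(1/5) ≥ Q`). For `R₀ < R₁` the sum is bounded by `card (oct K) ≤ 16 K²` times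
`1` (`K/nk k ≤ 1`) with `K ≤ R₀ < R₁`, a constant, while the right side is at least `C` (all factors are `≥ 1`).
Let `R₀ ≥ R₁`, `T = K/Q ≥ 1`. Every `k ∈ oct K` lies in exactly one `sec K Q n` (`nd_exists`, `nd_unique`, `nd_range`). Let `I` be minimal with `2^(I+1) ≥ T^(2/3)` (so `2^I ≤ T^(2/3)` or `I = 0`). Classes
`A = 2^i`, `i = 0, ..., I`: the `n` with `Q/2^(i+1) < n.1 ≤ Q/2^i` (`Good (Q/A) n` by `nd_coprime`, `nd_range`) if `sec K Q n` is non empty; and the rest `n.1 ≤ Q/2^(I+1)`.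
The rest: `small_q` with `P = Q/2^(I+1)`, at most `C K²/2^(I+1) ≤ C K² T^(-2/3) = C K^(4/3) Q^(2/3)` frequencies (if `P < 1` there is no such `n`), each term of norm `≤ 1`.
Class `A = 2^i ≤ T^(2/3)` (or `A = 1`): hypotheses of `class_bound0`: `A ≤ Q`, `A⁴ ≤ T^(8/3) ≤ Q³` and `(K A/Q)^(3/2) ≤ R A³/(12 Q³)`: enough `K^(3/2) Q^(3/2) ≤ R/12` (`A^(3/2) ≤ A³`), and
`Q^(3/2) ≤ 32^(3/10) (R₀K)^(3/10) ≤ 3 (R₀K)^(3/10)`, so enough `K^(9/5) ≤ R₀^(7/10)/144`, true for large `R₀` since `K ≤ R₀^(7/18 - ε)`. `T ≤ Q`, i.e. `K ≤ Q²`: `K⁵ ≤ (R₀K)²` as `K³ ≤ R₀²`; so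
`T^(8/3) ≤ Q^(8/3) ≤ Q³`. Result for each class: `∑ ‖bs‖ ≤ C K^(ε') (R K⁹/Q)^(1/6) (1 + K³/R)^(2/45)`, with `(R K⁹/Q)^(1/6) ≤ C K^(4/3) (R₀K)^(2/15)` (`Q ≥ (R₀K)^(1/5)`,
`R₀K⁹ (R₀K)^(-1/5) = K⁸ (R₀K)^(4/5)`), and `(1 + 4K³/R₀)^(2/45) ≤ 2 (1 + K³/R₀)^(2/45)`. There are `I + 1 ≤ C_ε R₀^(ε')` classes; `K ≤ R₀`. Also `Q^(2/3) ≤ 2 (R₀K)^(2/15)`.
Take `ε' = ε/4` or smaller.
-/

open MeasureTheory Real Set Filter Topology

set_option autoImplicit false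

namespace Pool.Agent.Helper64.GS

open Pool.Agent.Helper22.AE
open Pool.Agent.Helper22.AC (n6 IsWt mu)
open Pool.Agent.Helper92.GC

private theorem nk_ge38 (k : ℤ × ℤ) : |(k.1 : ℝ)| ≤ nk k := by
  have h1 := Complex.abs_re_le_norm (cz k)
  simpa [nk, cz] using h1

private theorem term38 {K : ℕ} (hK : 1 ≤ K) {k : ℤ × ℤ} (hk : (K : ℤ) ≤ k.1) (i : ℕ) (x : ℝ) :
    ‖(((K : ℝ) / nk k : ℝ) : ℂ) ^ i * ee x‖ ≤ 1 := by
  have h1 : (K : ℝ) ≤ nk k := by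
    have h2 : (K : ℝ) ≤ (k.1 : ℝ) := by exact_mod_cast hk
    exact h2.trans ((le_abs_self _).trans (nk_ge38 k))
  have hK0 : (0 : ℝ) < K := by exact_mod_cast hK
  have h0 : 0 < nk k := hK0.trans_le h1
  rw [norm_mul, ee_norm, mul_one, norm_pow, Complex.norm_real, Real.norm_of_nonneg (by positivity)]
  exact pow_le_one₀ (by positivity) ((div_le_one h0).2 h1)

private theorem mem_oct38 {K : ℕ} {k : ℤ × ℤ} (hk : k ∈ oct K) :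
    (K : ℤ) ≤ k.1 ∧ k.1 < 2 * K ∧ 0 ≤ k.2 ∧ k.2 ≤ k.1 := by
  classical
  unfold oct at hk
  exact (Finset.mem_filter.1 hk).2

private theorem bs_card38 {K : ℕ} (hK : 1 ≤ K) {S : Finset (ℤ × ℤ)} (hS : S ⊆ oct K) (i : ℕ)
    (R : ℝ) (c : ℝ × ℝ) : ‖bs S K i R c‖ ≤ S.card := by
  unfold bs
  refine (norm_sum_le _ _).trans ?_
  refine (Finset.sum_le_card_nsmul _ _ 1 fun k hk => ?_).trans (le_of_eq (by simp))
  exact term38 hK (mem_oct38 (hS hk)).1 i _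

private theorem oct_card38 {K : ℕ} (hK : 1 ≤ K) : ((oct K).card : ℝ) ≤ 25 * (K : ℝ) ^ 2 := by
  classical
  have h1 : (oct K).card ≤ (box (2 * K)).card := by
    unfold oct
    exact Finset.card_le_card (Finset.filter_subset _ _)
  have h2 : (box (2 * K)).card = (4 * K + 1) ^ 2 := by
    unfold box
    rw [Finset.card_product, Int.card_Icc]
    have h3 : ((2 * K : ℕ) : ℤ) + 1 - (-((2 * K : ℕ) : ℤ)) = ((4 * K + 1 : ℕ) : ℤ) := by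
      push_cast
      ring
    rw [h3, Int.toNat_natCast]
    ring
  have h4 : (4 * K + 1) ^ 2 ≤ 25 * K ^ 2 := by nlinarith
  have h5 : (oct K).card ≤ 25 * K ^ 2 := by omega
  exact_mod_cast h5

/-- the parameters -/
private theorem par38 {ε : ℝ} (hε : 0 < ε) (hε1 : ε ≤ 1 / 1000) {R₀ R : ℝ} {K : ℕ} (hR₀ : 1 ≤ R₀)
    (h1 : R₀ / 4 ≤ R) (h2 : R ≤ 4 * R₀) (h3 : R₀ ^ (1 / 4 + ε) ≤ K) (h4 : (K : ℝ) ≤ R₀ ^ (7 / 18 - ε))
    (hB : 400 ≤ R₀ ^ (2 * ε)) : ∃ (Q : ℕ) (x : ℝ), x = (R₀ * K) ^ (1 / 5 : ℝ) ∧ 1 ≤ x ∧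
      x ^ 5 = R₀ * K ∧ x ≤ Q ∧ (Q : ℝ) ≤ 2 * x ∧ 1536 ≤ Q ∧ Q ≤ K ∧ (K : ℝ) ≤ (Q : ℝ) ^ 2 ∧
      R * K ≤ 128 * (Q : ℝ) ^ 5 ∧ (Q : ℝ) ^ 5 ≤ 128 * (R * K) ∧
      ∀ A : ℝ, 1 ≤ A → (K * A / Q) ^ (3 / 2 : ℝ) ≤ R / (12 * (Q / A) ^ 3) := by
  have hR0 : 0 < R₀ := by linarith
  have hK1 : (1 : ℝ) ≤ K := (Real.one_le_rpow hR₀ (by linarith)).trans h3
  have hK0 : (0 : ℝ) < K := by linarith
  have hRK : 1 ≤ R₀ * K := one_le_mul_of_one_le_of_one_le hR₀ hK1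
  have hRK0 : 0 ≤ R₀ * K := by linarith
  obtain ⟨x, hx⟩ : ∃ x : ℝ, x = (R₀ * K) ^ (1 / 5 : ℝ) := ⟨_, rfl⟩
  have hx1 : 1 ≤ x := by
    rw [hx]
    exact Real.one_le_rpow hRK (by norm_num)
  have hx0 : 0 < x := by linarith
  have hx5 : x ^ 5 = R₀ * K := by
    rw [hx, ← Real.rpow_natCast, ← Real.rpow_mul hRK0]
    norm_num
  have hQx : x ≤ (⌈x⌉₊ : ℝ) := Nat.le_ceil x
  have hQ2 : (⌈x⌉₊ : ℝ) ≤ 2 * x := by
    have := Nat.ceil_lt_add_one hx0.le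
    linarith
  generalize ⌈x⌉₊ = Q at hQx hQ2
  have hB2 : (R₀ : ℝ) ^ (4 * ε) = (R₀ ^ (2 * ε)) ^ 2 := by
    rw [← Real.rpow_natCast, ← Real.rpow_mul hR0.le]
    congr 1
    push_cast
    ring
  have hB4 : 40000 ≤ R₀ ^ (4 * ε) := by
    rw [hB2]
    nlinarith
  have hx4 : 40000 ≤ x := by
    refine hB4.trans ?_
    rw [hx]
    calc R₀ ^ (4 * ε) ≤ R₀ ^ (1 / 5 : ℝ) := Real.rpow_le_rpow_of_exponent_le hR₀ (by linarith)
      _ ≤ (R₀ * K) ^ (1 / 5 : ℝ) := Real.rpow_le_rpow hR0.le (le_mul_of_one_le_right hR0.le hK1)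
        (by norm_num)
  have hK4 : 40000 * R₀ ≤ (K : ℝ) ^ 4 := by
    have e1 : (R₀ ^ (1 / 4 + ε)) ^ 4 = R₀ * R₀ ^ (4 * ε) := by
      nth_rw 2 [← Real.rpow_one R₀]
      rw [← Real.rpow_natCast, ← Real.rpow_mul hR0.le, ← Real.rpow_add hR0]
      congr 1
      push_cast
      ring
    have e2 : (R₀ ^ (1 / 4 + ε)) ^ 4 ≤ (K : ℝ) ^ 4 := pow_le_pow_left₀ (by positivity) h3 4
    rw [e1] at e2
    nlinarith
  have hxK : 2 * x ≤ K := by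
    have e1 : (2 * x) ^ 5 ≤ (K : ℝ) ^ 5 := by
      rw [mul_pow, hx5]
      have : (K : ℝ) ^ 5 = K ^ 4 * K := by ring
      rw [this]
      nlinarith
    exact (pow_le_pow_iff_left₀ (by positivity) hK0.le (by norm_num)).1 e1
  have hK2 : 144 * (K : ℝ) ^ (9 / 5 : ℝ) ≤ R₀ ^ (7 / 10 : ℝ) := by
    have e1 : (K : ℝ) ^ (9 / 5 : ℝ) ≤ (R₀ ^ (7 / 18 - ε)) ^ (9 / 5 : ℝ) := Real.rpow_le_rpow hK0.le h4 (by norm_num)
    have e2 : (R₀ ^ (7 / 18 - ε)) ^ (9 / 5 : ℝ) * (R₀ ^ (2 * ε)) ^ (9 / 10 : ℝ) = R₀ ^ (7 / 10 : ℝ) := by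
      rw [← Real.rpow_mul hR0.le, ← Real.rpow_mul hR0.le, ← Real.rpow_add hR0]
      congr 1
      ring
    have e4 : (144 : ℝ) ≤ (R₀ ^ (2 * ε)) ^ (9 / 10 : ℝ) := by
      calc (144 : ℝ) = ((144 : ℝ) ^ 10) ^ (1 / 10 : ℝ) := by
            rw [← Real.rpow_natCast, ← Real.rpow_mul (by norm_num)]
            norm_num
        _ ≤ ((400 : ℝ) ^ 9) ^ (1 / 10 : ℝ) := Real.rpow_le_rpow (by norm_num) (by norm_num) (by norm_num)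
        _ = (400 : ℝ) ^ (9 / 10 : ℝ) := by
            rw [← Real.rpow_natCast, ← Real.rpow_mul (by norm_num)]
            norm_num
        _ ≤ _ := Real.rpow_le_rpow (by norm_num) hB (by norm_num)
    rw [← e2]
    have e3 : 0 ≤ (R₀ ^ (7 / 18 - ε)) ^ (9 / 5 : ℝ) := by positivity
    calc 144 * (K : ℝ) ^ (9 / 5 : ℝ) ≤ 144 * (R₀ ^ (7 / 18 - ε)) ^ (9 / 5 : ℝ) := by linarith
      _ = (R₀ ^ (7 / 18 - ε)) ^ (9 / 5 : ℝ) * 144 := by ring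
      _ ≤ _ := mul_le_mul_of_nonneg_left e4 e3
  have hKR : (K : ℝ) ^ 2 ≤ R₀ := by
    have e1 : (K : ℝ) ^ 2 ≤ (R₀ ^ (7 / 18 - ε)) ^ 2 := pow_le_pow_left₀ hK0.le h4 2
    refine e1.trans ?_
    calc (R₀ ^ (7 / 18 - ε)) ^ 2 = R₀ ^ ((7 / 18 - ε) * 2) := by
          rw [← Real.rpow_natCast, ← Real.rpow_mul hR0.le]
          norm_num
      _ ≤ R₀ ^ (1 : ℝ) := Real.rpow_le_rpow_of_exponent_le hR₀ (by linarith)
      _ = R₀ := Real.rpow_one _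
  have hQ0 : (0 : ℝ) < Q := by linarith
  have hQ5 : R₀ * K ≤ (Q : ℝ) ^ 5 := by
    rw [← hx5]
    exact pow_le_pow_left₀ hx0.le hQx 5
  have hQ5' : (Q : ℝ) ^ 5 ≤ 32 * (R₀ * K) := by
    rw [← hx5]
    calc (Q : ℝ) ^ 5 ≤ (2 * x) ^ 5 := pow_le_pow_left₀ hQ0.le hQ2 5
      _ = 32 * x ^ 5 := by ring
  have hK32 : (K : ℝ) ^ 3 ≤ R₀ ^ 2 := by
    calc (K : ℝ) ^ 3 ≤ (K : ℝ) ^ 4 := pow_le_pow_right₀ hK1 (by norm_num)
      _ = ((K : ℝ) ^ 2) ^ 2 := by ring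
      _ ≤ R₀ ^ 2 := pow_le_pow_left₀ (by positivity) hKR 2
  refine ⟨Q, x, hx, hx1, hx5, hQx, hQ2, ?_, ?_, ?_, ?_, ?_, ?_⟩
  · have : (1536 : ℝ) ≤ Q := by linarith
    exact_mod_cast this
  · have : (Q : ℝ) ≤ K := hQ2.trans hxK
    exact_mod_cast this
  · have e1 : (K : ℝ) ^ 5 ≤ ((Q : ℝ) ^ 2) ^ 5 := by
      calc (K : ℝ) ^ 5 = (K : ℝ) ^ 3 * (K : ℝ) ^ 2 := by ring
        _ ≤ R₀ ^ 2 * (K : ℝ) ^ 2 := mul_le_mul_of_nonneg_right hK32 (by positivity)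
        _ = (R₀ * K) ^ 2 := by ring
        _ ≤ ((Q : ℝ) ^ 5) ^ 2 := pow_le_pow_left₀ hRK0 hQ5 2
        _ = ((Q : ℝ) ^ 2) ^ 5 := by ring
    exact (pow_le_pow_iff_left₀ hK0.le (by positivity) (by norm_num)).1 e1
  · nlinarith
  · nlinarith
  · intro A hA
    have hA0 : 0 < A := by linarith
    have e1 : (K : ℝ) ^ (3 / 2 : ℝ) * (Q : ℝ) ^ (3 / 2 : ℝ) ≤ 3 * R₀ / 144 := by
      have e2 : (Q : ℝ) ^ (3 / 2 : ℝ) ≤ 3 * (R₀ ^ (3 / 10 : ℝ) * (K : ℝ) ^ (3 / 10 : ℝ)) := by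
        have e3 : (Q : ℝ) ^ (3 / 2 : ℝ) = ((Q : ℝ) ^ 5) ^ (3 / 10 : ℝ) := by
          rw [← Real.rpow_natCast, ← Real.rpow_mul hQ0.le]
          norm_num
        have e4 : (32 : ℝ) ^ (3 / 10 : ℝ) ≤ 3 := by
          calc (32 : ℝ) ^ (3 / 10 : ℝ) = ((32 : ℝ) ^ 3) ^ (1 / 10 : ℝ) := by
                rw [← Real.rpow_natCast, ← Real.rpow_mul (by norm_num)]
                norm_num
            _ ≤ ((3 : ℝ) ^ 10) ^ (1 / 10 : ℝ) := Real.rpow_le_rpow (by norm_num) (by norm_num) (by norm_num)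
            _ = 3 := by
                rw [← Real.rpow_natCast, ← Real.rpow_mul (by norm_num)]
                norm_num
        calc (Q : ℝ) ^ (3 / 2 : ℝ) = ((Q : ℝ) ^ 5) ^ (3 / 10 : ℝ) := e3
          _ ≤ (32 * (R₀ * K)) ^ (3 / 10 : ℝ) := Real.rpow_le_rpow (by positivity) hQ5' (by norm_num)
          _ = 32 ^ (3 / 10 : ℝ) * (R₀ ^ (3 / 10 : ℝ) * (K : ℝ) ^ (3 / 10 : ℝ)) := by
            rw [Real.mul_rpow (by norm_num) hRK0, Real.mul_rpow hR0.le hK0.le]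
          _ ≤ 3 * (R₀ ^ (3 / 10 : ℝ) * (K : ℝ) ^ (3 / 10 : ℝ)) :=
            mul_le_mul_of_nonneg_right e4 (by positivity)
      calc (K : ℝ) ^ (3 / 2 : ℝ) * (Q : ℝ) ^ (3 / 2 : ℝ)
          ≤ (K : ℝ) ^ (3 / 2 : ℝ) * (3 * (R₀ ^ (3 / 10 : ℝ) * (K : ℝ) ^ (3 / 10 : ℝ))) :=
            mul_le_mul_of_nonneg_left e2 (by positivity)
        _ = 3 * ((K : ℝ) ^ (3 / 2 : ℝ) * (K : ℝ) ^ (3 / 10 : ℝ)) * R₀ ^ (3 / 10 : ℝ) := by ring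
        _ = 3 * (K : ℝ) ^ (9 / 5 : ℝ) * R₀ ^ (3 / 10 : ℝ) := by
            rw [← Real.rpow_add hK0]
            norm_num
        _ ≤ 3 * (R₀ ^ (7 / 10 : ℝ) / 144) * R₀ ^ (3 / 10 : ℝ) := by
            refine mul_le_mul_of_nonneg_right ?_ (by positivity)
            linarith
        _ = 3 * (R₀ ^ (7 / 10 : ℝ) * R₀ ^ (3 / 10 : ℝ)) / 144 := by ring
        _ = 3 * R₀ / 144 := by
            rw [← Real.rpow_add hR0]
            norm_num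
    have e2 : (K * A / Q : ℝ) ^ (3 / 2 : ℝ) =
        (K : ℝ) ^ (3 / 2 : ℝ) * A ^ (3 / 2 : ℝ) / (Q : ℝ) ^ (3 / 2 : ℝ) := by
      rw [Real.div_rpow (by positivity) hQ0.le, Real.mul_rpow hK0.le hA0.le]
    have e3 : A ^ (3 / 2 : ℝ) ≤ A ^ 3 := by
      rw [← Real.rpow_natCast]
      exact Real.rpow_le_rpow_of_exponent_le hA (by norm_num)
    have e4 : (Q : ℝ) ^ 3 = (Q : ℝ) ^ (3 / 2 : ℝ) * (Q : ℝ) ^ (3 / 2 : ℝ) := by
      rw [← Real.rpow_add hQ0]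
      norm_num
    have e5 : R / (12 * (Q / A) ^ 3) = R * A ^ 3 / (12 * (Q : ℝ) ^ 3) := by
      field_simp
    have hQ7 : 0 < (Q : ℝ) ^ (3 / 2 : ℝ) := Real.rpow_pos_of_pos hQ0 _
    rw [e2, e5, e4, div_le_div_iff₀ hQ7 (by positivity)]
    have hA3 : 0 < A ^ 3 := by positivity
    have e6 : 12 * ((K : ℝ) ^ (3 / 2 : ℝ) * (Q : ℝ) ^ (3 / 2 : ℝ)) ≤ R := by linarith
    calc (K : ℝ) ^ (3 / 2 : ℝ) * A ^ (3 / 2 : ℝ) * (12 * ((Q : ℝ) ^ (3 / 2 : ℝ) * (Q : ℝ) ^ (3 / 2 : ℝ)))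
        ≤ (K : ℝ) ^ (3 / 2 : ℝ) * A ^ 3 * (12 * ((Q : ℝ) ^ (3 / 2 : ℝ) * (Q : ℝ) ^ (3 / 2 : ℝ))) := by
          refine mul_le_mul_of_nonneg_right ?_ (by positivity)
          exact mul_le_mul_of_nonneg_left e3 (by positivity)
      _ = (12 * ((K : ℝ) ^ (3 / 2 : ℝ) * (Q : ℝ) ^ (3 / 2 : ℝ))) * (A ^ 3 * (Q : ℝ) ^ (3 / 2 : ℝ)) := by
          ring
      _ ≤ R * (A ^ 3 * (Q : ℝ) ^ (3 / 2 : ℝ)) := mul_le_mul_of_nonneg_right e6 (by positivity)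
      _ = R * A ^ 3 * (Q : ℝ) ^ (3 / 2 : ℝ) := by ring

open Classical in
/-- the classes -/
private noncomputable def En38 (K Q : ℕ) (f : ℤ × ℤ → ℤ × ℤ) (m : ℕ) : Finset (ℤ × ℤ) :=
  (oct K).filter fun k => ((f k).1 : ℝ) ≤ Q / 2 ^ m

open Classical in
private noncomputable def On38 (K Q : ℕ) (f : ℤ × ℤ → ℤ × ℤ) (m : ℕ) : Finset (ℤ × ℤ) :=
  (oct K).filter fun k => (Q : ℝ) / 2 ^ (m + 1) < ((f k).1 : ℝ) ∧ ((f k).1 : ℝ) ≤ Q / 2 ^ m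

private theorem split38 (K Q : ℕ) (f : ℤ × ℤ → ℤ × ℤ) (i : ℕ) (R : ℝ) (c : ℝ × ℝ) (m : ℕ) :
    bs (En38 K Q f m) K i R c = bs (En38 K Q f (m + 1)) K i R c + bs (On38 K Q f m) K i R c := by
  classical
  unfold bs
  rw [← Finset.sum_filter_add_sum_filter_not (En38 K Q f m)
    (fun k => ((f k).1 : ℝ) ≤ Q / 2 ^ (m + 1))]
  have hle : (Q : ℝ) / 2 ^ (m + 1) ≤ Q / 2 ^ m :=
    div_le_div_of_nonneg_left (Nat.cast_nonneg Q) (by positivity)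
      (pow_le_pow_right₀ one_le_two (Nat.le_succ m))
  congr 1
  · refine Finset.sum_congr ?_ fun _ _ => rfl
    ext k
    unfold En38
    rw [Finset.mem_filter, Finset.mem_filter, Finset.mem_filter]
    exact ⟨fun h => ⟨h.1.1, h.2⟩, fun h => ⟨⟨h.1, h.2.trans hle⟩, h.2⟩⟩
  · refine Finset.sum_congr ?_ fun _ _ => rfl
    ext k
    unfold En38 On38
    rw [Finset.mem_filter, Finset.mem_filter, Finset.mem_filter, not_le]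
    exact ⟨fun h => ⟨h.1.1, h.2, h.1.2⟩, fun h => ⟨⟨h.1, h.2.2⟩, h.2.1⟩⟩

private theorem splits38 {K Q : ℕ} {f : ℤ × ℤ → ℤ × ℤ} (hf : ∀ k ∈ oct K, ((f k).1 : ℝ) ≤ Q)
    (i : ℕ) (R : ℝ) (c : ℝ × ℝ) (m : ℕ) :
    bs (oct K) K i R c = bs (En38 K Q f m) K i R c +
      ∑ j ∈ Finset.range m, bs (On38 K Q f j) K i R c := by
  classical
  induction m with
  | zero =>
    rw [Finset.sum_range_zero, add_zero]
    congr 1
    unfold En38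
    rw [pow_zero, div_one]
    exact (Finset.filter_true_of_mem hf).symm
  | succ m ih =>
    rw [ih, split38, Finset.sum_range_succ]
    ring

private theorem fib38 {K Q : ℕ} (hQ : 3 ≤ Q) (hK : 1 ≤ K) {f : ℤ × ℤ → ℤ × ℤ}
    (hf : ∀ k ∈ oct K, IsNd Q k (f k)) (i : ℕ) (R : ℝ) (c : ℝ × ℝ) (j : ℕ) :
    ∃ W : Finset (ℤ × ℤ), (∀ n ∈ W, Good (Q / 2 ^ j) n) ∧
      ‖bs (On38 K Q f j) K i R c‖ ≤ ∑ n ∈ W, ‖bs (sec K Q n) K i R c‖ := by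
  classical
  refine ⟨(On38 K Q f j).image f, ?_, ?_⟩
  · intro n hn
    obtain ⟨k, hk, rfl⟩ := Finset.mem_image.1 hn
    unfold On38 at hk
    obtain ⟨hk1, hk2, hk3⟩ := Finset.mem_filter.1 hk
    obtain ⟨h1, -, h3, h4⟩ := mem_oct38 hk1
    have h5 := nd_range hQ (by omega) h3 h4 (hf k hk1)
    refine ⟨nd_coprime (hf k hk1), ?_, hk3, h5.1, h5.2.1⟩
    rw [pow_succ, ← div_div] at hk2
    exact hk2
  · have h1 : bs (On38 K Q f j) K i R c =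
        ∑ n ∈ (On38 K Q f j).image f, bs (sec K Q n) K i R c := by
      unfold bs
      rw [← Finset.sum_fiberwise_of_maps_to (s := On38 K Q f j) (t := (On38 K Q f j).image f)
        (g := f) (fun k hk => Finset.mem_image_of_mem f hk)]
      refine Finset.sum_congr rfl fun n hn => ?_
      refine Finset.sum_congr ?_ fun _ _ => rfl
      obtain ⟨k₀, hk₀, rfl⟩ := Finset.mem_image.1 hn
      unfold On38 at hk₀
      obtain ⟨-, h2⟩ := Finset.mem_filter.1 hk₀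
      ext k
      unfold On38 sec
      rw [Finset.mem_filter, Finset.mem_filter, Finset.mem_filter]
      constructor
      · rintro ⟨⟨h3, -⟩, h4⟩
        refine ⟨h3, ?_⟩
        rw [← h4]
        exact hf k h3
      · rintro ⟨h3, h4⟩
        have h5 := (mem_oct38 h3).1
        have h6 : f k = f k₀ := nd_unique hQ (by omega) (hf k h3) h4
        refine ⟨⟨h3, ?_⟩, h6⟩
        rw [h6]
        exact h2
    rw [h1]
    exact norm_sum_le _ _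

/-- one class -/
private theorem cls38 {ε C₁ : ℝ} (hε : 0 < ε) (hC₁ : 0 < C₁) {R₀ R x S : ℝ} {K Q : ℕ}
    (hR₀ : 1 ≤ R₀) (h1 : R₀ / 4 ≤ R) (h2 : R ≤ 4 * R₀) (hK : (1 : ℝ) ≤ K) (hKR : (K : ℝ) ≤ R₀)
    (hx : x = (R₀ * K) ^ (1 / 5 : ℝ)) (hx1 : 1 ≤ x) (hx5 : x ^ 5 = R₀ * K) (hQx : x ≤ Q)
    (hS : S ^ 6 ≤ C₁ * (K : ℝ) ^ ε * (R * (K : ℝ) ^ 9 / Q) * (1 + (K : ℝ) ^ 3 / R) ^ (0 : ℝ)) :
    S ≤ (1 + 16 * C₁) * R₀ ^ (ε / 6) * ((K : ℝ) ^ (4 / 3 : ℝ) * (R₀ * K) ^ (2 / 15 : ℝ) *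
      (1 + (K : ℝ) ^ 3 / R₀) ^ (0 : ℝ)) := by
  have hR0 : 0 < R₀ := by linarith
  have hRp : 0 < R := by linarith
  have hK0 : (0 : ℝ) < K := by linarith
  have hx0 : 0 < x := by linarith
  have hRK0 : 0 ≤ R₀ * K := by positivity
  have hy0 : 0 ≤ (K : ℝ) ^ 3 / R₀ := by positivity
  set y : ℝ := (K : ℝ) ^ 3 / R₀ with hy
  have hpos : 0 ≤ (1 + 16 * C₁) * R₀ ^ (ε / 6) * ((K : ℝ) ^ (4 / 3 : ℝ) * (R₀ * K) ^ (2 / 15 : ℝ) *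
      (1 + y) ^ (0 : ℝ)) := by positivity
  have e6 : ((1 + 16 * C₁) * R₀ ^ (ε / 6) * ((K : ℝ) ^ (4 / 3 : ℝ) * (R₀ * K) ^ (2 / 15 : ℝ) *
      (1 + y) ^ (0 : ℝ))) ^ 6 = (1 + 16 * C₁) ^ 6 * R₀ ^ ε * ((K : ℝ) ^ 8 * x ^ 4 *
      (1 + y) ^ (0 : ℝ)) := by
    have a1 : (R₀ ^ (ε / 6)) ^ 6 = R₀ ^ ε := by
      rw [← Real.rpow_natCast, ← Real.rpow_mul hR0.le]
      congr 1
      push_cast
      ring
    have a2 : ((K : ℝ) ^ (4 / 3 : ℝ)) ^ 6 = (K : ℝ) ^ 8 := by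
      rw [← Real.rpow_natCast, ← Real.rpow_mul hK0.le, ← Real.rpow_natCast]
      norm_num
    have a3 : ((R₀ * K) ^ (2 / 15 : ℝ)) ^ 6 = x ^ 4 := by
      rw [hx, ← Real.rpow_natCast, ← Real.rpow_mul hRK0, ← Real.rpow_natCast,
        ← Real.rpow_mul hRK0]
      norm_num
    have a4 : ((1 + y) ^ (0 : ℝ)) ^ 6 = (1 + y) ^ (0 : ℝ) := by
      rw [← Real.rpow_natCast, ← Real.rpow_mul (by positivity)]
      norm_num
    rw [mul_pow, mul_pow, mul_pow, mul_pow, a1, a2, a3, a4]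
  by_contra hcon
  push Not at hcon
  have h6 := pow_lt_pow_left₀ hcon hpos (n := 6) (by norm_num)
  rw [e6] at h6
  have h7 := h6.trans_le hS
  refine absurd h7 (not_lt.2 ?_)
  have b1 : (K : ℝ) ^ ε ≤ R₀ ^ ε := Real.rpow_le_rpow hK0.le hKR hε.le
  have b2 : R * (K : ℝ) ^ 9 / Q ≤ 4 * ((K : ℝ) ^ 8 * x ^ 4) := by
    rw [div_le_iff₀ (by linarith)]
    calc R * (K : ℝ) ^ 9 ≤ 4 * R₀ * (K : ℝ) ^ 9 := mul_le_mul_of_nonneg_right h2 (by positivity)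
      _ = 4 * ((K : ℝ) ^ 8 * (R₀ * K)) := by ring
      _ = 4 * ((K : ℝ) ^ 8 * x ^ 4) * x := by rw [← hx5]; ring
      _ ≤ 4 * ((K : ℝ) ^ 8 * x ^ 4) * Q := mul_le_mul_of_nonneg_left hQx (by positivity)
  have b3 : (1 + (K : ℝ) ^ 3 / R) ^ (0 : ℝ) ≤ 4 * (1 + y) ^ (0 : ℝ) := by
    have c1 : (K : ℝ) ^ 3 / R ≤ 4 * y := by
      rw [hy, div_le_iff₀ hRp]
      have : 4 * ((K : ℝ) ^ 3 / R₀) * R = (K : ℝ) ^ 3 * (4 * R / R₀) := by ring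
      rw [this]
      refine le_mul_of_one_le_right (by positivity) ?_
      rw [le_div_iff₀ hR0]
      linarith
    have c2 : (4 : ℝ) ^ (0 : ℝ) ≤ 4 := by
      calc (4 : ℝ) ^ (0 : ℝ) ≤ (4 : ℝ) ^ (1 : ℝ) :=
            Real.rpow_le_rpow_of_exponent_le (by norm_num) (by norm_num)
        _ = 4 := Real.rpow_one 4
    calc (1 + (K : ℝ) ^ 3 / R) ^ (0 : ℝ) ≤ (4 * (1 + y)) ^ (0 : ℝ) :=
          Real.rpow_le_rpow (by positivity) (by linarith) (by norm_num)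
      _ = 4 ^ (0 : ℝ) * (1 + y) ^ (0 : ℝ) := Real.mul_rpow (by norm_num) (by positivity)
      _ ≤ 4 * (1 + y) ^ (0 : ℝ) := mul_le_mul_of_nonneg_right c2 (by positivity)
  have b4 : 16 * C₁ ≤ (1 + 16 * C₁) ^ 6 := by
    have c1 : 1 ≤ 1 + 16 * C₁ := by linarith
    calc 16 * C₁ ≤ 1 + 16 * C₁ := by linarith
      _ = (1 + 16 * C₁) ^ 1 := (pow_one _).symm
      _ ≤ (1 + 16 * C₁) ^ 6 := pow_le_pow_right₀ c1 (by norm_num)
  calc C₁ * (K : ℝ) ^ ε * (R * (K : ℝ) ^ 9 / Q) * (1 + (K : ℝ) ^ 3 / R) ^ (0 : ℝ)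
      ≤ C₁ * R₀ ^ ε * (4 * ((K : ℝ) ^ 8 * x ^ 4)) * (4 * (1 + y) ^ (0 : ℝ)) := by
        gcongr
    _ = 16 * C₁ * R₀ ^ ε * ((K : ℝ) ^ 8 * x ^ 4 * (1 + y) ^ (0 : ℝ)) := by ring
    _ ≤ (1 + 16 * C₁) ^ 6 * R₀ ^ ε * ((K : ℝ) ^ 8 * x ^ 4 * (1 + y) ^ (0 : ℝ)) := by
        gcongr

/-- the rest -/
private theorem rest38 {C₂ : ℝ} (hC₂ : 0 < C₂) {R₀ x V : ℝ} {K Q : ℕ} {b : ℝ} (hR₀ : 1 ≤ R₀)
    (hK : (1 : ℝ) ≤ K) (hx : x = (R₀ * K) ^ (1 / 5 : ℝ)) (hx1 : 1 ≤ x) (hQx : x ≤ Q)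
    (hQ2 : (Q : ℝ) ≤ 2 * x) (hV : V = ((K : ℝ) / Q) ^ (2 / 3 : ℝ)) (hb : V ≤ b) :
    C₂ * (K : ℝ) ^ 2 * (Q / b) / Q ≤ 2 * C₂ * ((K : ℝ) ^ (4 / 3 : ℝ) * (R₀ * K) ^ (2 / 15 : ℝ) *
      (1 + (K : ℝ) ^ 3 / R₀) ^ (0 : ℝ)) := by
  have hR0 : 0 < R₀ := by linarith
  have hK0 : (0 : ℝ) < K := by linarith
  have hx0 : 0 < x := by linarith
  have hQ0 : (0 : ℝ) < Q := by linarith
  have hRK0 : 0 ≤ R₀ * K := by positivity
  have hV0 : 0 < V := by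
    rw [hV]
    positivity
  have hb0 : 0 < b := by linarith
  have e1 : C₂ * (K : ℝ) ^ 2 * (Q / b) / Q = C₂ * ((K : ℝ) ^ 2 / b) := by
    field_simp
  have e2 : (K : ℝ) ^ 2 / b ≤ (K : ℝ) ^ 2 / V := div_le_div_of_nonneg_left (by positivity) hV0 hb
  have e3 : (K : ℝ) ^ 2 / V = (K : ℝ) ^ (4 / 3 : ℝ) * (Q : ℝ) ^ (2 / 3 : ℝ) := by
    rw [div_eq_iff hV0.ne', hV, Real.div_rpow hK0.le hQ0.le]
    have hQ3 : (Q : ℝ) ^ (2 / 3 : ℝ) ≠ 0 := (Real.rpow_pos_of_pos hQ0 _).ne'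
    have e4 : (K : ℝ) ^ 2 = (K : ℝ) ^ (4 / 3 : ℝ) * (K : ℝ) ^ (2 / 3 : ℝ) := by
      rw [← Real.rpow_add hK0]
      norm_num
    rw [e4]
    field_simp
  have e5 : (Q : ℝ) ^ (2 / 3 : ℝ) ≤ 2 * (R₀ * K) ^ (2 / 15 : ℝ) := by
    have c1 : x ^ (2 / 3 : ℝ) = (R₀ * K) ^ (2 / 15 : ℝ) := by
      rw [hx, ← Real.rpow_mul hRK0]
      norm_num
    have c2 : (2 : ℝ) ^ (2 / 3 : ℝ) ≤ 2 := by
      calc (2 : ℝ) ^ (2 / 3 : ℝ) ≤ (2 : ℝ) ^ (1 : ℝ) :=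
            Real.rpow_le_rpow_of_exponent_le (by norm_num) (by norm_num)
        _ = 2 := Real.rpow_one 2
    calc (Q : ℝ) ^ (2 / 3 : ℝ) ≤ (2 * x) ^ (2 / 3 : ℝ) := Real.rpow_le_rpow hQ0.le hQ2 (by norm_num)
      _ = 2 ^ (2 / 3 : ℝ) * x ^ (2 / 3 : ℝ) := Real.mul_rpow (by norm_num) hx0.le
      _ ≤ 2 * (R₀ * K) ^ (2 / 15 : ℝ) := by
        rw [c1]
        exact mul_le_mul_of_nonneg_right c2 (by positivity)
  have e6 : 1 ≤ (1 + (K : ℝ) ^ 3 / R₀) ^ (0 : ℝ) := by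
    refine Real.one_le_rpow ?_ (by norm_num)
    have : 0 ≤ (K : ℝ) ^ 3 / R₀ := by positivity
    linarith
  rw [e1]
  calc C₂ * ((K : ℝ) ^ 2 / b) ≤ C₂ * ((K : ℝ) ^ (4 / 3 : ℝ) * (Q : ℝ) ^ (2 / 3 : ℝ)) := by
        rw [← e3]
        exact mul_le_mul_of_nonneg_left e2 hC₂.le
    _ ≤ C₂ * ((K : ℝ) ^ (4 / 3 : ℝ) * (2 * (R₀ * K) ^ (2 / 15 : ℝ))) := by
        gcongr
    _ = 2 * C₂ * ((K : ℝ) ^ (4 / 3 : ℝ) * (R₀ * K) ^ (2 / 15 : ℝ) * 1) := by ring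
    _ ≤ _ := by
        gcongr

theorem oct_bound0 {ε : ℝ} (hε : 0 < ε) (hε1 : ε ≤ 1 / 1000) : ∃ C : ℝ, 0 < C ∧ ∀ (R₀ R : ℝ) (K : ℕ), 1 ≤ R₀ → R₀ / 4 ≤ R → R ≤ 4 * R₀ →
    R₀ ^ (1 / 4 + ε) ≤ K → (K : ℝ) ≤ R₀ ^ (7 / 18 - ε) → ∀ i : ℕ, (i = 1 ∨ i = 2) → ∀ c : ℝ × ℝ,
      ‖bs (oct K) K i R c‖ ≤ C * R₀ ^ ε * (K : ℝ) ^ (4 / 3 : ℝ) * (R₀ * K) ^ (2 / 15 : ℝ) *
        (1 + (K : ℝ) ^ 3 / R₀) ^ (0 : ℝ) := by
  classical
  obtain ⟨C₁, hC₁, hcls⟩ := class_bound0 hε 128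
  obtain ⟨C₂, hC₂, hsm⟩ := small_q
  have hb0 : 0 < 25 * (400 : ℝ) ^ (1 / (2 * ε)) := by positivity
  refine ⟨(4 / ε + 1) * (1 + 16 * C₁) + 2 * C₂ + 25 * 400 ^ (1 / (2 * ε)), by positivity, ?_⟩
  intro R₀ R K hR₀ h1 h2 h3 h4 i hi c
  have hR0 : 0 < R₀ := by linarith
  have hK1 : (1 : ℝ) ≤ K := (Real.one_le_rpow hR₀ (by linarith)).trans h3
  have hKn : 1 ≤ K := by exact_mod_cast hK1
  have hK0 : (0 : ℝ) < K := by linarith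
  obtain ⟨M, hM⟩ : ∃ M : ℝ, M = (K : ℝ) ^ (4 / 3 : ℝ) * (R₀ * K) ^ (2 / 15 : ℝ) *
      (1 + (K : ℝ) ^ 3 / R₀) ^ (0 : ℝ) := ⟨_, rfl⟩
  have hM1 : 1 ≤ M := by
    rw [hM]
    have a1 : 1 ≤ (K : ℝ) ^ (4 / 3 : ℝ) := Real.one_le_rpow hK1 (by norm_num)
    have a2 : 1 ≤ (R₀ * K) ^ (2 / 15 : ℝ) :=
      Real.one_le_rpow (one_le_mul_of_one_le_of_one_le hR₀ hK1) (by norm_num)
    have a3 : 1 ≤ (1 + (K : ℝ) ^ 3 / R₀) ^ (0 : ℝ) := by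
      refine Real.one_le_rpow ?_ (by norm_num)
      have : 0 ≤ (K : ℝ) ^ 3 / R₀ := by positivity
      linarith
    exact one_le_mul_of_one_le_of_one_le (one_le_mul_of_one_le_of_one_le a1 a2) a3
  have hRe : 1 ≤ R₀ ^ ε := Real.one_le_rpow hR₀ hε.le
  have hgoal : ‖bs (oct K) K i R c‖ ≤ ((4 / ε + 1) * (1 + 16 * C₁) + 2 * C₂ +
      25 * 400 ^ (1 / (2 * ε))) * R₀ ^ ε * M := by
    by_cases hB : 400 ≤ R₀ ^ (2 * ε)
    · obtain ⟨Q, x, hx, hx1, hx5, hQx, hQ2, hQ, hQK, hKQ, hq1, hq2, hA⟩ :=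
        par38 hε hε1 hR₀ h1 h2 h3 h4 hB
      have hQ0 : (0 : ℝ) < Q := by linarith
      have hT1 : 1 ≤ (K : ℝ) / Q := by
        rw [one_le_div hQ0]
        exact_mod_cast hQK
      have hTQ : (K : ℝ) / Q ≤ Q := by
        rw [div_le_iff₀ hQ0, ← sq]
        exact hKQ
      obtain ⟨V, hV⟩ : ∃ V : ℝ, V = ((K : ℝ) / Q) ^ (2 / 3 : ℝ) := ⟨_, rfl⟩
      have hV1 : 1 ≤ V := by
        rw [hV]
        exact Real.one_le_rpow hT1 (by norm_num)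
      have hVT : V ≤ (K : ℝ) / Q := by
        rw [hV]
        nth_rw 2 [← Real.rpow_one ((K : ℝ) / Q)]
        exact Real.rpow_le_rpow_of_exponent_le hT1 (by norm_num)
      have hV4 : V ^ 4 ≤ (Q : ℝ) ^ 3 := by
        calc V ^ 4 = ((K : ℝ) / Q) ^ (8 / 3 : ℝ) := by
              rw [hV, ← Real.rpow_natCast, ← Real.rpow_mul (by positivity)]
              norm_num
          _ ≤ ((K : ℝ) / Q) ^ (3 : ℝ) := Real.rpow_le_rpow_of_exponent_le hT1 (by norm_num)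
          _ = ((K : ℝ) / Q) ^ 3 := by
              rw [← Real.rpow_natCast]
              norm_num
          _ ≤ (Q : ℝ) ^ 3 := pow_le_pow_left₀ (by positivity) hTQ 3
      obtain ⟨I, hI1, hI2⟩ := exists_nat_pow_near hV1 (one_lt_two (α := ℝ))
      have hKR : (K : ℝ) ≤ R₀ := by
        refine h4.trans ?_
        nth_rw 2 [← Real.rpow_one R₀]
        exact Real.rpow_le_rpow_of_exponent_le hR₀ (by linarith)
      have hex : ∀ k ∈ oct K, ∃ n, IsNd Q k n ∧ n.1 ≤ Q := by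
        intro k hk
        obtain ⟨a1, -, a3, a4⟩ := mem_oct38 hk
        exact nd_exists (by omega) (by omega) a3 a4
      choose! f hf using hex
      have hfQ : ∀ k ∈ oct K, ((f k).1 : ℝ) ≤ Q := by
        intro k hk
        exact_mod_cast (hf k hk).2
      rw [splits38 hfQ i R c (I + 1)]
      have hcl : ∀ j ∈ Finset.range (I + 1), ‖bs (On38 K Q f j) K i R c‖ ≤
          (1 + 16 * C₁) * R₀ ^ (ε / 6) * M := by
        intro j hj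
        obtain ⟨W, hW1, hW2⟩ := fib38 (by omega) hKn (fun k hk => (hf k hk).1) i R c j
        refine hW2.trans ?_
        have hAV : (2 : ℝ) ^ j ≤ V :=
          (pow_le_pow_right₀ one_le_two (Nat.lt_succ_iff.1 (Finset.mem_range.1 hj))).trans hI1
        have hA1 : (1 : ℝ) ≤ 2 ^ j := one_le_pow₀ one_le_two
        rw [hM]
        refine cls38 hε hC₁ hR₀ h1 h2 hK1 hKR hx hx1 hx5 hQx ?_
        refine hcls K Q (2 ^ j) R (by omega) hQK hA1 ?_ ((hAV.trans hVT).trans hTQ)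
          ((pow_le_pow_left₀ (by positivity) hAV 4).trans hV4) (by linarith) hq1 hq2
          (hA _ hA1) i hi c W hW1
        have : (1536 : ℝ) ≤ Q := by exact_mod_cast hQ
        linarith
      have hsum : ‖∑ j ∈ Finset.range (I + 1), bs (On38 K Q f j) K i R c‖ ≤
          ((I : ℝ) + 1) * ((1 + 16 * C₁) * R₀ ^ (ε / 6) * M) := by
        refine (norm_sum_le _ _).trans ((Finset.sum_le_card_nsmul _ _ _ hcl).trans (le_of_eq ?_))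
        rw [Finset.card_range, nsmul_eq_mul]
        push_cast
        ring
      have hsub : En38 K Q f (I + 1) ⊆ oct K := Finset.filter_subset _ _
      have hrest : ‖bs (En38 K Q f (I + 1)) K i R c‖ ≤ 2 * C₂ * M := by
        refine (bs_card38 hKn hsub i R c).trans ?_
        by_cases hP : 1 ≤ (Q : ℝ) / 2 ^ (I + 1)
        · refine (hsm K Q ((Q : ℝ) / 2 ^ (I + 1)) (by omega) hQK hP _ ?_).trans ?_
          · intro k hk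
            have hk' := hk
            unfold En38 at hk'
            obtain ⟨a1, a2⟩ := Finset.mem_filter.1 hk'
            obtain ⟨b1, b2, b3, b4⟩ := mem_oct38 a1
            exact ⟨b1, b2, b3, b4, f k, (hf k a1).1, a2⟩
          · rw [hM]
            exact rest38 hC₂ hR₀ hK1 hx hx1 hQx hQ2 hV hI2.le
        · have hem : En38 K Q f (I + 1) = ∅ := by
            rw [Finset.eq_empty_iff_forall_notMem]
            intro k hk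
            unfold En38 at hk
            obtain ⟨a1, a2⟩ := Finset.mem_filter.1 hk
            apply hP
            refine le_trans ?_ a2
            exact_mod_cast (hf k a1).1.1
          rw [hem, Finset.card_empty, Nat.cast_zero]
          positivity
      have hIR : (I : ℝ) + 1 ≤ (4 / ε + 1) * R₀ ^ (ε / 2) := by
        have a1 : (2 : ℝ) ^ I ≤ R₀ := by
          refine hI1.trans (hVT.trans (le_trans ?_ hKR))
          exact div_le_self hK0.le (by linarith)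
        have a2 : (I : ℝ) * Real.log 2 ≤ Real.log R₀ := by
          rw [← Real.log_pow]
          exact Real.log_le_log (by positivity) a1
        have a3 : Real.log R₀ ≤ R₀ ^ (ε / 2) / (ε / 2) := Real.log_le_rpow_div hR0.le (by positivity)
        have a4 : 1 / 2 ≤ Real.log 2 := by
          have := Real.log_two_gt_d9
          linarith
        have a5 : 1 ≤ R₀ ^ (ε / 2) := Real.one_le_rpow hR₀ (by positivity)
        have a6 : (I : ℝ) * (1 / 2) ≤ R₀ ^ (ε / 2) / (ε / 2) :=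
          (mul_le_mul_of_nonneg_left a4 (Nat.cast_nonneg I)).trans (a2.trans a3)
        have a7 : R₀ ^ (ε / 2) / (ε / 2) = 2 / ε * R₀ ^ (ε / 2) := by
          field_simp
        rw [a7] at a6
        have a8 : (4 / ε + 1) * R₀ ^ (ε / 2) = 2 * (2 / ε * R₀ ^ (ε / 2)) + R₀ ^ (ε / 2) := by ring
        rw [a8]
        linarith
      have hexp : R₀ ^ (ε / 2) * R₀ ^ (ε / 6) ≤ R₀ ^ ε := by
        rw [← Real.rpow_add hR0]
        exact Real.rpow_le_rpow_of_exponent_le hR₀ (by linarith)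
      have hM0 : 0 ≤ M := by linarith
      calc ‖bs (En38 K Q f (I + 1)) K i R c + ∑ j ∈ Finset.range (I + 1), bs (On38 K Q f j) K i R c‖
          ≤ 2 * C₂ * M + ((I : ℝ) + 1) * ((1 + 16 * C₁) * R₀ ^ (ε / 6) * M) :=
            (norm_add_le _ _).trans (add_le_add hrest hsum)
        _ ≤ 2 * C₂ * M + (4 / ε + 1) * R₀ ^ (ε / 2) * ((1 + 16 * C₁) * R₀ ^ (ε / 6) * M) := by
            gcongr
        _ = 2 * C₂ * 1 * M + (4 / ε + 1) * (1 + 16 * C₁) * (R₀ ^ (ε / 2) * R₀ ^ (ε / 6)) * M := by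
            ring
        _ ≤ 2 * C₂ * R₀ ^ ε * M + (4 / ε + 1) * (1 + 16 * C₁) * R₀ ^ ε * M := by
            gcongr
        _ = ((4 / ε + 1) * (1 + 16 * C₁) + 2 * C₂) * (R₀ ^ ε * M) := by ring
        _ ≤ ((4 / ε + 1) * (1 + 16 * C₁) + 2 * C₂ + 25 * 400 ^ (1 / (2 * ε))) * (R₀ ^ ε * M) := by
            refine mul_le_mul_of_nonneg_right (by linarith) (by positivity)
        _ = _ := by ring
    · push Not at hB
      have a1 : R₀ ≤ 400 ^ (1 / (2 * ε)) := by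
        have e1 : R₀ = (R₀ ^ (2 * ε)) ^ (1 / (2 * ε)) := by
          rw [← Real.rpow_mul hR0.le, mul_one_div_cancel (by positivity), Real.rpow_one]
        rw [e1]
        exact Real.rpow_le_rpow (by positivity) hB.le (by positivity)
      have a2 : (K : ℝ) ^ 2 ≤ R₀ := by
        calc (K : ℝ) ^ 2 ≤ (R₀ ^ (7 / 18 - ε)) ^ 2 := pow_le_pow_left₀ hK0.le h4 2
          _ = R₀ ^ ((7 / 18 - ε) * 2) := by
              rw [← Real.rpow_natCast, ← Real.rpow_mul hR0.le]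
              norm_num
          _ ≤ R₀ ^ (1 : ℝ) := Real.rpow_le_rpow_of_exponent_le hR₀ (by linarith)
          _ = R₀ := Real.rpow_one _
      have a3 := (bs_card38 hKn (Finset.Subset.refl (oct K)) i R c).trans (oct_card38 hKn)
      have a4 : (1 : ℝ) ≤ R₀ ^ ε * M := one_le_mul_of_one_le_of_one_le hRe hM1
      calc ‖bs (oct K) K i R c‖ ≤ 25 * (K : ℝ) ^ 2 := a3
        _ ≤ 25 * 400 ^ (1 / (2 * ε)) := by linarith
        _ ≤ (4 / ε + 1) * (1 + 16 * C₁) + 2 * C₂ + 25 * 400 ^ (1 / (2 * ε)) := by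
            have : 0 ≤ (4 / ε + 1) * (1 + 16 * C₁) + 2 * C₂ := by positivity
            linarith
        _ ≤ ((4 / ε + 1) * (1 + 16 * C₁) + 2 * C₂ + 25 * 400 ^ (1 / (2 * ε))) * (R₀ ^ ε * M) :=
            le_mul_of_one_le_right (by positivity) a4
        _ = _ := by ring
  rw [hM] at hgoal
  refine hgoal.trans (le_of_eq ?_)
  ring

end Pool.Agent.Helper64.GS
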