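import Pool.Agent.Helper92.GC.D3
import Pool.Agent.Helper92.GC.D4
import Pool.Agent.Helper64.GS.Oct

/-!
# GS-MAIN: the exponent 5/8

PROOF. As Helper92.GC.Main, with `shell0` (no loss in the shell) in place of `shell`: let `0 < ε ≤ 1/1000`, `τ = 3/8 - ε/2`, `e2 = ε/4`, `1 - τ = 5/8 + ε/2`; `K = 2^n ≤ R^(τ+e2) ≤ R^(3/8 - ε/8)`.
`S_K = 25 K²` if `K < R^(1/4+ε/8)` (`sqa_triv`), `S_K = 8 C R^(ε/8) K^(4/3) (RK)^(2/15) + 16 K` otherwise (`sqa_oct`, `oct_bound0`).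
`R^(1/2) K^(-3/2) K^(4/3) (RK)^(2/15) = R^(19/30) K^(-1/30) ≤ R^(19/30 - 1/120) = R^(5/8)`.
-/

open MeasureTheory Real Set Filter Topology

set_option autoImplicit false

namespace Pool.Agent.Helper64.GS

open Pool.Agent.Helper22.AE
open Pool.Agent.Helper22.AC (n6 IsWt mu)
open Pool.Agent.Helper92.GC

private lemma big64 {ε C X K : ℝ} (hε : 0 < ε) (hX : 1 ≤ X) (hK1 : 1 ≤ K) (hK4 : X ^ (1 / 4 : ℝ) ≤ K) (hC : 0 < C) :
    X ^ (1 / 2 : ℝ) * K ^ (-(3 / 2) : ℝ) * (8 * (C * X ^ (ε / 8) * K ^ (4 / 3 : ℝ) *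
      (X * K) ^ (2 / 15 : ℝ)) + 16 * K) ≤ (16 * C + 16) * X ^ (5 / 8 + ε / 2) := by
  have hX0 : 0 < X := by linarith
  have hK0 : 0 < K := by linarith
  obtain ⟨x, rfl⟩ : ∃ x, X = exp x := ⟨log X, (exp_log hX0).symm⟩
  obtain ⟨k, rfl⟩ : ∃ k, K = exp k := ⟨log K, (exp_log hK0).symm⟩
  have hx : 0 ≤ x := one_le_exp_iff.1 hX
  have hk : 0 ≤ k := one_le_exp_iff.1 hK1
  rw [← exp_mul, exp_le_exp] at hK4
  have hp : 0 ≤ ε * x := mul_nonneg hε.le hx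
  rw [← exp_add]
  simp only [← exp_mul]
  have e1 : exp (x * (1 / 2)) * exp (k * -(3 / 2)) * (8 * (C * exp (x * (ε / 8)) * exp (k * (4 / 3)) *
      exp ((x + k) * (2 / 15))) + 16 * exp k) =
      8 * C * exp (x * (1 / 2) + k * -(3 / 2) + x * (ε / 8) + k * (4 / 3) + (x + k) * (2 / 15)) +
        16 * exp (x * (1 / 2) + k * -(3 / 2) + k) := by
    simp only [exp_add]
    ring
  rw [e1]
  have h3 : exp (x * (1 / 2) + k * -(3 / 2) + x * (ε / 8) + k * (4 / 3) + (x + k) * (2 / 15)) ≤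
      exp (x * (5 / 8 + ε / 2)) := by
    rw [exp_le_exp]
    nlinarith
  have h5 : exp (x * (1 / 2) + k * -(3 / 2) + k) ≤ exp (x * (5 / 8 + ε / 2)) := by
    rw [exp_le_exp]
    nlinarith
  have h6 := mul_le_mul_of_nonneg_left h3 (show 0 ≤ 8 * C by positivity)
  have h7 : 0 ≤ 8 * C * exp (x * (5 / 8 + ε / 2)) := by positivity
  linarith

private lemma small64 {ε X K : ℝ} (hε : 0 < ε) (hX : 1 ≤ X) (hK1 : 1 ≤ K)
    (hK4 : K ≤ X ^ (1 / 4 + ε / 8)) :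
    X ^ (1 / 2 : ℝ) * K ^ (-(3 / 2) : ℝ) * (25 * K ^ 2) ≤ 25 * X ^ (5 / 8 + ε / 2) := by
  have hX0 : 0 < X := by linarith
  have hK0 : 0 < K := by linarith
  obtain ⟨x, rfl⟩ : ∃ x, X = exp x := ⟨log X, (exp_log hX0).symm⟩
  obtain ⟨k, rfl⟩ : ∃ k, K = exp k := ⟨log K, (exp_log hK0).symm⟩
  have hx : 0 ≤ x := one_le_exp_iff.1 hX
  have hk : 0 ≤ k := one_le_exp_iff.1 hK1
  rw [← exp_mul, exp_le_exp] at hK4
  have hp : 0 ≤ ε * x := mul_nonneg hε.le hx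
  simp only [← exp_mul]
  have e : exp k ^ 2 = exp (2 * k) := by
    rw [← exp_nat_mul]
    norm_num
  rw [e]
  have e1 : exp (x * (1 / 2)) * exp (k * -(3 / 2)) * (25 * exp (2 * k)) =
      25 * exp (x * (1 / 2) + k * -(3 / 2) + 2 * k) := by
    simp only [exp_add]
    ring
  rw [e1]
  refine mul_le_mul_of_nonneg_left (exp_le_exp.2 ?_) (by norm_num)
  nlinarith

private theorem main64 {ε : ℝ} (hε : 0 < ε) (hε1 : ε ≤ 1 / 1000) : ∃ C : ℝ, ∀ R : ℝ, 1 ≤ R →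
    ∀ c : ℝ × ℝ, |dcnt c R - π * R ^ 2| ≤ C * R ^ (5 / 8 + ε) := by
  obtain ⟨C1, R1, hR1, hblocks⟩ := disc_blocks (τ := 3 / 8 - ε / 2) (e2 := ε / 4) (by linarith) (by linarith)
    (by linarith)
  obtain ⟨C2, hC2, hft⟩ := ft_sum_bound
  obtain ⟨C3, hC3, hoct⟩ := oct_bound0 (ε := ε / 8) (by linarith) (by linarith)
  obtain ⟨C4, hbdd⟩ := dcnt_bdd R1
  refine ⟨|C1| + (8 / ε + 1) * (C2 * (16 * C3 + 42)) + |C4|, ?_⟩
  intro X hX c
  have hX0 : 0 < X := by linarith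
  have hbig : 1 ≤ X ^ (5 / 8 + ε) := one_le_rpow hX (by linarith)
  have hc1 : 0 ≤ |C1| := abs_nonneg _
  have hc4 : 0 ≤ |C4| := abs_nonneg _
  have hc2 : 0 ≤ (8 / ε + 1) * (C2 * (16 * C3 + 42)) := by positivity
  rcases le_total X R1 with hXR | hXR
  · refine (hbdd X hX hXR c).trans ((le_abs_self _).trans ?_)
    nlinarith
  -- the number of blocks
  have hl2 : 0 < log 2 := log_pos (by norm_num)
  have hlX : 0 ≤ log X := log_nonneg hX
  set n1 : ℕ := ⌈(3 / 8 - ε / 2 + ε / 4) * (log X / log 2)⌉₊ with hn1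
  have hpow : X ^ (3 / 8 - ε / 2 + ε / 4) = (2 : ℝ) ^ ((3 / 8 - ε / 2 + ε / 4) * (log X / log 2)) := by
    rw [rpow_def_of_pos hX0, rpow_def_of_pos (by norm_num : (0 : ℝ) < 2)]
    congr 1
    field_simp
  have hn1a : X ^ (3 / 8 - ε / 2 + ε / 4) ≤ 2 ^ n1 := by
    rw [hpow, ← rpow_natCast]
    exact rpow_le_rpow_of_exponent_le (by norm_num) (Nat.le_ceil _)
  have hn1b : ∀ n < n1, (2 : ℝ) ^ n ≤ X ^ (3 / 8 - ε / 2 + ε / 4) := by
    intro n hn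
    rw [hpow, ← rpow_natCast]
    exact rpow_le_rpow_of_exponent_le (by norm_num) (Nat.lt_ceil.1 hn).le
  have hn1c : (n1 : ℝ) ≤ (8 / ε + 1) * X ^ (ε / 4) := by
    have h0 : 0 ≤ (3 / 8 - ε / 2 + ε / 4) * (log X / log 2) :=
      mul_nonneg (by linarith) (div_nonneg hlX hl2.le)
    have h1 : (n1 : ℝ) < (3 / 8 - ε / 2 + ε / 4) * (log X / log 2) + 1 := Nat.ceil_lt_add_one h0
    have h2 : log X ≤ X ^ (ε / 4) / (ε / 4) := log_le_rpow_div hX0.le (by linarith)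
    have h3 : (1 : ℝ) / 2 < log 2 := by
      have := log_two_gt_d9
      linarith
    have h4 : log X / log 2 ≤ 2 * log X := by
      rw [div_le_iff₀ hl2]
      nlinarith
    have h5 : (3 / 8 - ε / 2 + ε / 4) * (log X / log 2) ≤ 2 * log X := by
      have h6 : 0 ≤ log X / log 2 := by positivity
      nlinarith
    have h7 : 1 ≤ X ^ (ε / 4) := one_le_rpow hX (by linarith)
    have h8 : 2 * (X ^ (ε / 4) / (ε / 4)) = 8 / ε * X ^ (ε / 4) := by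
      field_simp
      ring
    calc (n1 : ℝ) ≤ 2 * log X + 1 := by linarith
      _ ≤ 8 / ε * X ^ (ε / 4) + X ^ (ε / 4) := by linarith
      _ = (8 / ε + 1) * X ^ (ε / 4) := by ring
  -- the bounds of the blocks
  set S : ℕ → ℝ := fun K => if (K : ℝ) ≤ X ^ (1 / 4 + ε / 8) then 25 * (K : ℝ) ^ 2 else
    8 * (C3 * X ^ (ε / 8) * (K : ℝ) ^ (4 / 3 : ℝ) * (X * K) ^ (2 / 15 : ℝ)) + 16 * K with hS
  set B : ℕ → ℝ := fun n => C2 * (X ^ (1 / 2 : ℝ) * ((2 ^ n : ℕ) : ℝ) ^ (-(3 / 2) : ℝ) * S (2 ^ n) + 1)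
    with hB
  have hK1 : ∀ n : ℕ, (1 : ℝ) ≤ ((2 ^ n : ℕ) : ℝ) := by
    intro n
    push_cast
    exact one_le_pow₀ (by norm_num)
  have hSnn : ∀ K : ℕ, 0 ≤ S K := by
    intro K
    simp only [hS]
    split_ifs
    · positivity
    · positivity
  have hmid : X ^ (3 / 8 - ε / 2 + ε / 4) ≤ X ^ (7 / 18 - ε / 8) :=
    rpow_le_rpow_of_exponent_le hX (by linarith)
  have hq : X ^ (1 / 4 : ℝ) ≤ X ^ (1 / 4 + ε / 8) := rpow_le_rpow_of_exponent_le hX (by linarith)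
  have hBle : ∀ n ∈ Finset.range n1, B n ≤ C2 * (16 * C3 + 42) * X ^ (5 / 8 + ε / 2) := by
    intro n hn
    have h1 : X ^ (1 / 2 : ℝ) * ((2 ^ n : ℕ) : ℝ) ^ (-(3 / 2) : ℝ) * S (2 ^ n) ≤
        (16 * C3 + 41) * X ^ (5 / 8 + ε / 2) := by
      have h0 : 0 ≤ X ^ (5 / 8 + ε / 2) := by positivity
      simp only [hS]
      split_ifs with h
      · have := small64 hε hX (hK1 n) h
        nlinarith
      · push Not at h
        have := big64 hε hX (hK1 n) (hq.trans h.le) hC3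
        nlinarith
    have h2 : 1 ≤ X ^ (5 / 8 + ε / 2) := one_le_rpow hX (by linarith)
    calc B n ≤ C2 * ((16 * C3 + 41) * X ^ (5 / 8 + ε / 2) + X ^ (5 / 8 + ε / 2)) :=
          mul_le_mul_of_nonneg_left (by linarith) hC2.le
      _ = C2 * (16 * C3 + 42) * X ^ (5 / 8 + ε / 2) := by ring
  have hsum : ∑ n ∈ Finset.range n1, B n ≤
      (8 / ε + 1) * (C2 * (16 * C3 + 42)) * X ^ (5 / 8 + ε) := by
    refine (Finset.sum_le_sum hBle).trans ?_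
    rw [Finset.sum_const, Finset.card_range, nsmul_eq_mul]
    have h3 : X ^ (ε / 4) * X ^ (5 / 8 + ε / 2) ≤ X ^ (5 / 8 + ε) := by
      rw [← rpow_add hX0]
      exact rpow_le_rpow_of_exponent_le hX (by linarith)
    calc (n1 : ℝ) * (C2 * (16 * C3 + 42) * X ^ (5 / 8 + ε / 2)) ≤
        (8 / ε + 1) * X ^ (ε / 4) * (C2 * (16 * C3 + 42) * X ^ (5 / 8 + ε / 2)) :=
          mul_le_mul_of_nonneg_right hn1c (by positivity)
      _ = (8 / ε + 1) * (C2 * (16 * C3 + 42)) * (X ^ (ε / 4) * X ^ (5 / 8 + ε / 2)) := by ring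
      _ ≤ _ := mul_le_mul_of_nonneg_left h3 hc2
  have hmain := hblocks X hXR n1 hn1a B (by
    intro n hn r hr c'
    refine hft X r (S (2 ^ n)) (2 ^ n) hX hr.1 hr.2 Nat.one_le_two_pow (hSnn _) ?_ c'
    intro r' hr' i hi c''
    have hK : (((2 ^ n : ℕ) : ℝ)) ≤ X ^ (3 / 8 - ε / 2 + ε / 4) := by
      push_cast
      exact hn1b n hn
    simp only [hS]
    split_ifs with h
    · exact sqa_triv Nat.one_le_two_pow c''
    · push Not at h
      refine sqa_oct Nat.one_le_two_pow (fun c => ?_) c''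
      have h9 := hoct X r' (2 ^ n) hX hr'.1 hr'.2 h.le (hK.trans hmid) i hi c
      rwa [rpow_zero, mul_one] at h9)
    X ⟨le_rfl, by linarith⟩ c
  refine hmain.trans ?_
  have h5 : X ^ (1 - (3 / 8 - ε / 2) : ℝ) ≤ X ^ (5 / 8 + ε) := rpow_le_rpow_of_exponent_le hX (by linarith)
  have h6 : C1 * X ^ (1 - (3 / 8 - ε / 2) : ℝ) ≤ |C1| * X ^ (5 / 8 + ε) := by
    refine (mul_le_mul_of_nonneg_right (le_abs_self C1) (by positivity)).trans ?_
    exact mul_le_mul_of_nonneg_left h5 hc1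
  have h7 : 0 ≤ |C4| * X ^ (5 / 8 + ε) := by positivity
  calc C1 * X ^ (1 - (3 / 8 - ε / 2) : ℝ) + ∑ n ∈ Finset.range n1, B n ≤
      |C1| * X ^ (5 / 8 + ε) + (8 / ε + 1) * (C2 * (16 * C3 + 42)) * X ^ (5 / 8 + ε) := add_le_add h6 hsum
    _ ≤ _ := by linarith

theorem main {ε : ℝ} (hε : 0 < ε) : ∃ C : ℝ, ∀ R : ℝ, 1 ≤ R → ∀ c : ℝ × ℝ,
    |dcnt c R - π * R ^ 2| ≤ C * R ^ (5 / 8 + ε) := by
  rcases le_total ε (1 / 1000) with h | h
  · exact main64 hε h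
  · obtain ⟨C, hC⟩ := main64 (ε := 1 / 1000) (by norm_num) le_rfl
    refine ⟨|C|, fun R hR c => (hC R hR c).trans ?_⟩
    have h1 : R ^ (5 / 8 + 1 / 1000 : ℝ) ≤ R ^ (5 / 8 + ε) :=
      rpow_le_rpow_of_exponent_le hR (by linarith)
    refine (mul_le_mul_of_nonneg_right (le_abs_self C) (by positivity)).trans ?_
    exact mul_le_mul_of_nonneg_left h1 (abs_nonneg _)

end Pool.Agent.Helper64.GS
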