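import Mathlib

/-!
# Linear Noether normalisation by valuations

For finitely many elements `z i` of an extension `K` of an infinite field `k` there are algebraically independent `h j` in the
span of the `z i` such that `v (z i) ≤ max 1 (max v (h j))` for all valuations `v` of `K` trivial on `k`.
-/

set_option autoImplicit false

namespace Pool.Agent.Helper64.GS

universe u v

variable {k : Type u} {K : Type v} [Field k] [Field K] [Algebra k K]

/-- the sum of the terms of top degree -/
def top {m : ℕ} (g : MvPolynomial (Fin m) k) (c : Fin m → k) : k :=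
  ∑ e ∈ g.support with ∑ i, e i = g.totalDegree, g.coeff e * ∏ i, c i ^ e i

theorem deg_le {m : ℕ} (g : MvPolynomial (Fin m) k) (e : Fin m →₀ ℕ) (he : e ∈ g.support) :
    ∑ i, e i ≤ g.totalDegree := by
  have := MvPolynomial.le_totalDegree he
  rwa [Finsupp.sum_fintype _ _ (fun _ => rfl)] at this

theorem exists_top [Infinite k] {m : ℕ} (g : MvPolynomial (Fin m) k) (hg : g ≠ 0) :
    ∃ c : Fin m → k, top g c ≠ 0 := by
  classical
  by_contra hcon
  push Not at hcon
  let G : MvPolynomial (Fin m) k := ∑ e ∈ g.support with ∑ i, e i = g.totalDegree, MvPolynomial.monomial e (g.coeff e)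
  have h1 : G = 0 := by
    apply MvPolynomial.funext
    intro c
    rw [map_zero, ← hcon c]
    simp only [G, top, map_sum]
    refine Finset.sum_congr rfl fun e _ => ?_
    rw [MvPolynomial.eval_monomial, Finsupp.prod_fintype _ _ (fun _ => pow_zero _)]
  obtain ⟨e, he, hed⟩ := Finset.exists_mem_eq_sup g.support (MvPolynomial.support_nonempty.mpr hg)
    (fun s => s.sum fun _ e => e)
  have h3 : ∑ i, e i = g.totalDegree := by
    rw [MvPolynomial.totalDegree, hed, Finsupp.sum_fintype _ _ (fun _ => rfl)]
  have h2 := congrArg (MvPolynomial.coeff e) h1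
  simp only [G, MvPolynomial.coeff_sum, MvPolynomial.coeff_monomial, MvPolynomial.coeff_zero] at h2
  rw [Finset.sum_ite_eq' _ e, if_pos (Finset.mem_filter.mpr ⟨he, h3⟩)] at h2
  exact (MvPolynomial.mem_support_iff.mp he) h2

theorem top_scale {m : ℕ} (g : MvPolynomial (Fin m) k) (c : Fin m → k) (a : k) :
    top g (fun i => a * c i) = a ^ g.totalDegree * top g c := by
  unfold top
  rw [Finset.mul_sum]
  refine Finset.sum_congr rfl fun e he => ?_
  have h := (Finset.mem_filter.mp he).2
  rw [← h, ← Finset.prod_pow_eq_pow_sum]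
  simp only [mul_pow]
  rw [Finset.prod_mul_distrib]
  ring

/-- the key estimate -/
theorem root_bound {m : ℕ} (g : MvPolynomial (Fin m) k) (z : Fin m → K) (hz : MvPolynomial.aeval z g = 0)
    (c : Fin m → k) (hc : top g c ≠ 0) (j : Fin m)
    (O : ValuationSubring K) (hO : ∀ a : k, algebraMap k K a ∈ O) (B : O.ValueGroup) (hB : 1 ≤ B)
    (h : ∀ i, O.valuation (z i - algebraMap k K (c i) * z j) ≤ B) : O.valuation (z j) ≤ B := by
  classical
  by_contra hcon
  push Not at hcon
  have h0 : 0 < O.valuation (z j) := lt_of_le_of_lt zero_le hcon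
  have hzj : z j ≠ 0 := by
    intro h
    rw [h, map_zero] at h0
    exact lt_irrefl _ h0
  set τ := (z j)⁻¹ with hτ
  have hτ1 : O.valuation τ < 1 := by
    rw [hτ, map_inv₀]
    exact inv_lt_one_of_one_lt₀ (lt_of_le_of_lt hB hcon)
  have hw : ∀ i, O.valuation (z i * τ - algebraMap k K (c i)) < 1 := by
    intro i
    have h1 : z i * τ - algebraMap k K (c i) = (z i - algebraMap k K (c i) * z j) * τ := by
      rw [hτ]
      field_simp
    rw [h1, map_mul, hτ, map_inv₀]
    calc O.valuation (z i - algebraMap k K (c i) * z j) * (O.valuation (z j))⁻¹ ≤ B * (O.valuation (z j))⁻¹ :=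
          mul_le_mul_left (h i) _
      _ < 1 := by
          rw [← div_eq_mul_inv]
          exact (div_lt_one₀ h0).mpr hcon
  have hτO : τ ∈ O := (O.valuation_le_one_iff τ).mp hτ1.le
  have hdO : ∀ i, z i * τ - algebraMap k K (c i) ∈ O := fun i => (O.valuation_le_one_iff _).mp (hw i).le
  have hwO : ∀ i, z i * τ ∈ O := by
    intro i
    have := add_mem (hdO i) (hO (c i))
    rwa [sub_add_cancel] at this
  let ι : k →+* O := (algebraMap k K).codRestrict O.toSubring hO
  let ρ := IsLocalRing.residue O
  have hρ0 : ∀ a : O, O.valuation (a : K) < 1 → ρ a = 0 := by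
    intro a ha
    rw [IsLocalRing.residue_eq_zero_iff]
    exact (O.valuation_lt_one_iff a).mpr ha
  have hρw : ∀ i, ρ ⟨z i * τ, hwO i⟩ = ρ (ι (c i)) := by
    intro i
    rw [← sub_eq_zero, ← map_sub]
    exact hρ0 _ (hw i)
  have hρτ : ρ ⟨τ, hτO⟩ = 0 := hρ0 _ hτ1
  set D := g.totalDegree with hD
  have hS : ∑ e ∈ g.support, ι (g.coeff e) * (∏ i, (⟨z i * τ, hwO i⟩ : O) ^ e i) * (⟨τ, hτO⟩ : O) ^ (D - ∑ i, e i) = 0 := by
    apply Subtype.ext
    push_cast
    rw [← mul_zero (τ ^ D), ← hz, MvPolynomial.aeval_def, MvPolynomial.eval₂_eq', Finset.mul_sum]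
    refine Finset.sum_congr rfl fun e he => ?_
    have h1 := deg_le g e he
    have h2 : τ ^ D = τ ^ (∑ i, e i) * τ ^ (D - ∑ i, e i) := by
      rw [← pow_add]
      congr 1
      omega
    rw [h2, ← Finset.prod_pow_eq_pow_sum]
    simp only [mul_pow]
    rw [Finset.prod_mul_distrib]
    show algebraMap k K (g.coeff e) * _ * _ = _
    ring
  have h1 := congrArg ρ hS
  rw [map_zero, map_sum] at h1
  have h2 : ρ (ι (top g c)) = 0 := by
    rw [← h1]
    unfold top
    rw [map_sum, map_sum, Finset.sum_filter]
    refine Finset.sum_congr rfl fun e he => ?_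
    simp only [map_mul, map_prod, map_pow, hρτ, hρw]
    split_ifs with h3
    · rw [hD, h3, Nat.sub_self, pow_zero, mul_one]
    · have := deg_le g e he
      rw [zero_pow (by omega), mul_zero]
  exact hc ((map_eq_zero (ρ.comp ι)).mp h2)

/-- Linear Noether normalisation. -/
theorem noether [Infinite k] (m : ℕ) (z : Fin m → K) :
    ∃ (d : ℕ) (h : Fin d → K), AlgebraicIndependent k h ∧ (∀ j, h j ∈ Submodule.span k (Set.range z)) ∧
      ∀ O : ValuationSubring K, (∀ a : k, algebraMap k K a ∈ O) → ∀ B : O.ValueGroup, 1 ≤ B →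
        (∀ j, O.valuation (h j) ≤ B) → ∀ i, O.valuation (z i) ≤ B := by
  classical
  induction m with
  | zero =>
    refine ⟨0, Fin.elim0, ?_, fun j => j.elim0, fun O _ B _ _ i => i.elim0⟩
    rw [algebraicIndependent_empty_type_iff]
    exact (algebraMap k K).injective
  | succ m ih =>
    by_cases hz : AlgebraicIndependent k z
    · exact ⟨m + 1, z, hz, fun j => Submodule.subset_span (Set.mem_range_self j), fun O _ B _ h i => h i⟩
    · rw [algebraicIndependent_iff] at hz
      push Not at hz
      obtain ⟨g, hgz, hg⟩ := hz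
      obtain ⟨c, hc⟩ := exists_top g hg
      -- a coordinate which is not zero
      have hj : ∃ j, c j ≠ 0 := by
        by_contra hcon
        push Not at hcon
        have hD : g.totalDegree = 0 := by
          by_contra hD
          apply hc
          have := top_scale g c 0
          rw [zero_pow hD, zero_mul] at this
          rw [← this]
          congr 1
          funext i
          rw [hcon i, mul_zero]
        rw [MvPolynomial.totalDegree_eq_zero_iff_eq_C] at hD
        rw [hD, MvPolynomial.aeval_C, map_eq_zero] at hgz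
        rw [hgz, MvPolynomial.C_0] at hD
        exact hg hD
      obtain ⟨j, hj⟩ := hj
      set c' : Fin (m + 1) → k := fun i => (c j)⁻¹ * c i with hc'
      have hc'0 : top g c' ≠ 0 := by
        rw [hc', top_scale]
        exact mul_ne_zero (pow_ne_zero _ (inv_ne_zero hj)) hc
      have hc'j : c' j = 1 := inv_mul_cancel₀ hj
      obtain ⟨d, h, h1, h2, h3⟩ := ih fun i => z (j.succAbove i) - algebraMap k K (c' (j.succAbove i)) * z j
      refine ⟨d, h, h1, fun l => ?_, fun O hO B hB hh => ?_⟩
      · refine (Submodule.span_le.mpr ?_) (h2 l)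
        rintro _ ⟨i, rfl⟩
        apply Submodule.sub_mem
        · exact Submodule.subset_span (Set.mem_range_self _)
        · show algebraMap k K (c' (j.succAbove i)) * z j ∈ _
          rw [← Algebra.smul_def]
          exact Submodule.smul_mem _ _ (Submodule.subset_span (Set.mem_range_self _))
      · have h4 := h3 O hO B hB hh
        have h5 : O.valuation (z j) ≤ B := by
          apply root_bound g z hgz c' hc'0 j O hO B hB
          intro i
          rcases eq_or_ne i j with rfl | hi
          · rw [hc'j, map_one, one_mul, sub_self, map_zero]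
            exact zero_le
          · obtain ⟨l, rfl⟩ := Fin.exists_succAbove_eq hi
            exact h4 l
        intro i
        rcases eq_or_ne i j with rfl | hi
        · exact h5
        · obtain ⟨l, rfl⟩ := Fin.exists_succAbove_eq hi
          have h6 : z (j.succAbove l) = (z (j.succAbove l) - algebraMap k K (c' (j.succAbove l)) * z j) +
              algebraMap k K (c' (j.succAbove l)) * z j := by ring
          rw [h6]
          refine (O.valuation.map_add _ _).trans (max_le (h4 l) ?_)
          rw [map_mul]
          calc _ ≤ 1 * O.valuation (z j) := mul_le_mul_left ((O.valuation_le_one_iff _).mpr (hO _)) _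
            _ ≤ B := by rw [one_mul]; exact h5

end Pool.Agent.Helper64.GS
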